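import Pool.Agent.Lib.MP_09cbbd_sw.BoxDef

/-!
# Needles and spheres: geometric definitions
-/

set_option autoImplicit false

namespace Pool.Agent.NeedleGas

open MeasureTheory Pool.Agent.SquareWellGas

/-- Euclidean norm. -/
noncomputable def nrm {d : ℕ} (x : Fin d → ℝ) : ℝ := Real.sqrt (∑ k, x k ^ 2)

/-- The point `y + s g / |g|` of the line through `y` with the direction of `g`. -/
noncomputable def pt {d : ℕ} (y g : Fin d → ℝ) (s : ℝ) : Fin d → ℝ :=
  fun k => y k + s * (g k / nrm g)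

/-- The sphere of radius `a` and centre `x` meets the needle of length `L`, centre `y` and
direction `g / |g|`. -/
def Hit {d : ℕ} (a L : ℝ) (x y g : Fin d → ℝ) : Prop :=
  ∃ s : ℝ, |s| ≤ L / 2 ∧ ∑ k, (x k - pt y g s k) ^ 2 < a ^ 2

/-- Volume of the unit ball. -/
noncomputable def kap (d : ℕ) : ℝ := volume.real {g : Fin d → ℝ | ∑ k, g k ^ 2 ≤ 1}

/-- Fraction of the needles with centre in the box of side `h` which meet no sphere with centre
in `S`. -/
noncomputable def free (d : ℕ) (a L h : ℝ) (S : Set (Fin d → ℝ)) : ℝ :=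
  volume.real {q : (Fin d → ℝ) × (Fin d → ℝ) | q.1 ∈ Box d h ∧ ∑ k, q.2 k ^ 2 ≤ 1 ∧
    ∀ x ∈ S, ¬ Hit a L x q.1 q.2} / (h ^ d * kap d)

/-- The cell `v` of side `l`. -/
def cell {d : ℕ} (l : ℝ) (v : Fin d → ℤ) : Set (Fin d → ℝ) :=
  {x | ∀ k, (v k : ℝ) * l ≤ x k ∧ x k < ((v k : ℝ) + 1) * l}

/-- The cells of the block `b` (`K ^ d` cells). -/
noncomputable def cells {d : ℕ} (K : ℕ) (b : Fin d → ℤ) : Finset (Fin d → ℤ) :=
  Fintype.piFinset fun k => Finset.Ico (b k * K) ((b k + 1) * K)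

/-- Fraction of the cells of side `l` of the block `b` which contain a point of `S`. -/
noncomputable def phi {d : ℕ} (K : ℕ) (l : ℝ) (S : Set (Fin d → ℝ)) (b : Fin d → ℤ) : ℝ := by
  classical exact (((cells K b).filter fun v => ∃ x ∈ S, x ∈ cell l v).card : ℝ) / (K : ℝ) ^ d

end Pool.Agent.NeedleGas
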