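import Pool.Agent.Lib.MP_09cbbd_ndg.Def

/-!
# Hard spheres and thin hard needles: the partition function
-/

set_option autoImplicit false

namespace Pool.Agent.NeedleGas

open MeasureTheory Filter Topology Pool.Agent.SquareWellGas

/-- Partition function of hard spheres and thin hard needles in the box `[0, ℓ)^d`: `N` spheres of
radius `a` (centres `x_i`) and, at activity `z`, any number `M` of needles of length `L` (centres
`y_j`, directions `g_j / |g_j|` with `g_j` in the unit ball):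
`(1 / N!) ∑_M ((z / κ) ^ M / M!) vol {(x, y, g)}`, where `κ` is the volume of the unit ball, over
the configurations with `|x_i - x_j| ≥ 2 a` for `i ≠ j` (the spheres do not overlap), no sphere
meets a needle, and no two needles meet. -/
noncomputable def Z (d : ℕ) (a L z : ℝ) (ℓ : ℝ) (N : ℕ) : ℝ :=
  ((N.factorial : ℝ))⁻¹ * ∑' M : ℕ, (z / kap d) ^ M / M.factorial *
    volume.real {p : (Fin N → Fin d → ℝ) × (Fin M → (Fin d → ℝ) × (Fin d → ℝ)) |
      (∀ i, p.1 i ∈ Box d ℓ) ∧ (∀ j, (p.2 j).1 ∈ Box d ℓ ∧ ∑ k, (p.2 j).2 k ^ 2 ≤ 1) ∧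
      (∀ i j, i ≠ j → (2 * a) ^ 2 ≤ ∑ k, (p.1 i k - p.1 j k) ^ 2) ∧
      (∀ i j, ¬ Hit a L (p.1 i) (p.2 j).1 (p.2 j).2) ∧
      ∀ i j, i ≠ j → ∀ s t : ℝ, |s| ≤ L / 2 → |t| ≤ L / 2 →
        pt (p.2 i).1 (p.2 i).2 s ≠ pt (p.2 j).1 (p.2 j).2 t}

end Pool.Agent.NeedleGas
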