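import Pool.Agent.Lib.MP_09cbbd_ndg.GDef

/-!
# Uniform directions and cylinders: basic facts
-/

set_option autoImplicit false

namespace Pool.Agent.Needle

open MeasureTheory Metric Set

variable {d : ℕ}

theorem measurable_nrm : Measurable fun g : V d => ‖g‖⁻¹ • g :=
  (measurable_norm.inv).smul measurable_id

theorem vol_ball_pos : 0 < volume (ball (0 : V d) 1) := measure_ball_pos _ _ one_pos

theorem vol_ball_ne_top : volume (ball (0 : V d) 1) ≠ ⊤ := measure_ball_lt_top.ne

theorem sg_apply {S : Set (V d)} (hS : MeasurableSet S) :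
    sg d S = (volume (ball (0 : V d) 1))⁻¹ *
      volume (ball (0 : V d) 1 ∩ {g | ‖g‖⁻¹ • g ∈ S}) := by
  unfold sg
  rw [Measure.smul_apply, smul_eq_mul, Measure.map_apply measurable_nrm hS,
    Measure.restrict_apply (measurable_nrm hS), inter_comm]
  rfl

instance sg_prob : IsProbabilityMeasure (sg d) := by
  refine ⟨?_⟩
  rw [sg_apply MeasurableSet.univ]
  have : ball (0 : V d) 1 ∩ {g | ‖g‖⁻¹ • g ∈ (univ : Set (V d))} = ball (0 : V d) 1 := by
    ext g; simp
  rw [this]
  exact ENNReal.inv_mul_cancel vol_ball_pos.ne' vol_ball_ne_top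

theorem ae_norm (hd : 1 ≤ d) : ∀ᵐ θ ∂(sg d), ‖θ‖ = 1 := by
  rw [ae_iff]
  have hm : MeasurableSet {θ : V d | ¬ ‖θ‖ = 1} :=
    (measurable_norm (measurableSet_singleton (1 : ℝ))).compl
  rw [sg_apply hm]
  have h0 : ball (0 : V d) 1 ∩ {g | ‖g‖⁻¹ • g ∈ {θ : V d | ¬ ‖θ‖ = 1}} ⊆ {0} := by
    rintro g ⟨-, hg⟩
    by_contra h
    apply hg
    have : ‖g‖ ≠ 0 := by simpa using h
    rw [norm_smul, norm_inv, norm_norm, inv_mul_cancel₀ this]
  have : Nonempty (Fin d) := ⟨⟨0, hd⟩⟩
  have : Nontrivial (V d) := inferInstance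
  have h1 : volume ({0} : Set (V d)) = 0 := measure_singleton 0
  rw [measure_mono_null h0 h1, mul_zero]

theorem sg_map (R : V d ≃ₗᵢ[ℝ] V d) : (sg d).map R = sg d := by
  ext S hS
  rw [Measure.map_apply R.continuous.measurable hS, sg_apply (R.continuous.measurable hS),
    sg_apply hS]
  congr 1
  have h := R.measurePreserving.measure_preimage
    ((measurableSet_ball.inter (measurable_nrm hS)).nullMeasurableSet :
      NullMeasurableSet (ball (0 : V d) 1 ∩ {g | ‖g‖⁻¹ • g ∈ S}) volume)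
  refine Eq.trans ?_ h
  congr 1
  ext g
  simp [LinearIsometryEquiv.norm_map]

theorem lintegral_sg_map (R : V d ≃ₗᵢ[ℝ] V d) {f : V d → ENNReal} (hf : Measurable f) :
    ∫⁻ θ, f (R θ) ∂(sg d) = ∫⁻ θ, f θ ∂(sg d) := by
  conv_rhs => rw [← sg_map R]
  rw [lintegral_map hf R.continuous.measurable]

instance : SFinite (mu d) := by unfold mu; infer_instance

/-! ### Cylinders -/

theorem neg_mem_Cy {L a : ℝ} {θ u : V d} : -u ∈ Cy L a θ ↔ u ∈ Cy L a θ := by
  unfold Cy
  simp only [mem_ofPred_eq, inner_neg_left, abs_neg, neg_smul, sub_neg_eq_add]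
  have : -u + (inner ℝ u θ : ℝ) • θ = -(u - (inner ℝ u θ : ℝ) • θ) := by abel
  rw [this, norm_neg]

theorem convex_Cy (L a : ℝ) (θ : V d) : Convex ℝ (Cy L a θ) := by
  have h1 : Convex ℝ {u : V d | |inner ℝ u θ| ≤ L / 2} := by
    intro x hx y hy s t hs ht hst
    simp only [mem_ofPred_eq] at *
    rw [inner_add_left, inner_smul_left, inner_smul_left]
    simp only [conj_trivial]
    calc |s * inner ℝ x θ + t * inner ℝ y θ| ≤ |s * inner ℝ x θ| + |t * inner ℝ y θ| := abs_add_le _ _
      _ = s * |inner ℝ x θ| + t * |inner ℝ y θ| := by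
          rw [abs_mul, abs_mul, abs_of_nonneg hs, abs_of_nonneg ht]
      _ ≤ s * (L / 2) + t * (L / 2) := by gcongr
      _ = L / 2 := by rw [← add_mul, hst, one_mul]
  have h2 : Convex ℝ {u : V d | ‖u - (inner ℝ u θ : ℝ) • θ‖ < a} := by
    intro x hx y hy s t hs ht hst
    simp only [mem_ofPred_eq] at *
    rw [inner_add_left, inner_smul_left, inner_smul_left]
    simp only [conj_trivial]
    have e : s • x + t • y - (s * inner ℝ x θ + t * inner ℝ y θ : ℝ) • θ =
        s • (x - (inner ℝ x θ : ℝ) • θ) + t • (y - (inner ℝ y θ : ℝ) • θ) := by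
      module
    rw [e]
    have h3 := norm_add_le (s • (x - (inner ℝ x θ : ℝ) • θ)) (t • (y - (inner ℝ y θ : ℝ) • θ))
    rw [norm_smul, norm_smul, Real.norm_of_nonneg hs, Real.norm_of_nonneg ht] at h3
    refine h3.trans_lt ?_
    rcases eq_or_lt_of_le hs with h0 | h0
    · rw [← h0] at hst ⊢
      rw [zero_add] at hst
      rw [hst, zero_mul, zero_add, one_mul]
      exact hy
    · have h4 : s * ‖x - (inner ℝ x θ : ℝ) • θ‖ < s * a := by gcongr
      have h5 : t * ‖y - (inner ℝ y θ : ℝ) • θ‖ ≤ t * a := by gcongr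
      have h6 : s * a + t * a = a := by rw [← add_mul, hst, one_mul]
      linarith
  exact h1.inter h2

theorem map_mem_Cy {L a : ℝ} {θ u : V d} (R : V d ≃ₗᵢ[ℝ] V d) :
    R u ∈ Cy L a (R θ) ↔ u ∈ Cy L a θ := by
  unfold Cy
  simp only [mem_ofPred_eq, LinearIsometryEquiv.inner_map_map]
  rw [← LinearIsometryEquiv.map_smul, ← LinearIsometryEquiv.map_sub,
    LinearIsometryEquiv.norm_map]

theorem measurableSet_Cy2 (L a : ℝ) : MeasurableSet {p : V d × V d | p.1 ∈ Cy L a p.2} := by
  have h1 : Continuous fun p : V d × V d => |(inner ℝ p.1 p.2 : ℝ)| := by fun_prop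
  have h2 : Continuous fun p : V d × V d => ‖p.1 - (inner ℝ p.1 p.2 : ℝ) • p.2‖ := by fun_prop
  exact (measurableSet_le h1.measurable measurable_const).inter
    (measurableSet_lt h2.measurable measurable_const)

theorem measurableSet_Cy (L a : ℝ) (θ : V d) : MeasurableSet (Cy L a θ) := by
  have h1 : Continuous fun p : V d => |(inner ℝ p θ : ℝ)| := by fun_prop
  have h2 : Continuous fun p : V d => ‖p - (inner ℝ p θ : ℝ) • θ‖ := by fun_prop
  exact (measurableSet_le h1.measurable measurable_const).inter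
    (measurableSet_lt h2.measurable measurable_const)

/-- A point of the cylinder around a needle is close to the needle. -/
theorem near_of_Cy {L a : ℝ} {θ x y : V d} (h : x - y ∈ Cy L a θ) :
    |(inner ℝ (x - y) θ : ℝ)| ≤ L / 2 ∧ ‖x - (y + (inner ℝ (x - y) θ : ℝ) • θ)‖ < a := by
  refine ⟨h.1, ?_⟩
  have : x - (y + (inner ℝ (x - y) θ : ℝ) • θ) = x - y - (inner ℝ (x - y) θ : ℝ) • θ := by abel
  rw [this]
  exact h.2

/-- There is an isometry that maps a vector to another vector with the same norm. -/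
theorem exists_iso {v w : V d} (h : ‖v‖ = ‖w‖) : ∃ R : V d ≃ₗᵢ[ℝ] V d, R v = w :=
  ⟨_, Submodule.reflection_sub h⟩

end Pool.Agent.Needle
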