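import Pool.Agent.Lib.MP_09cbbd_ndg.GOsc

/-!
# The blocking lemma
-/

set_option autoImplicit false

namespace Pool.Agent.Needle

open MeasureTheory Metric Set Filter Topology

variable {d : ℕ}

/-- Disjoint cells of the volume `w` and of diameter at most `s`, each with a point. -/
structure Cells (d : ℕ) (s : ℝ) (w : ENNReal) (ι : Type) (Q : ι → Set (V d)) (q : ι → V d) :
    Prop where
  meas : ∀ i, MeasurableSet (Q i)
  disj : Pairwise fun i j => Disjoint (Q i) (Q j)
  vol : ∀ i, volume (Q i) = w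
  mem : ∀ i, q i ∈ Q i
  diam : ∀ i, ∀ x ∈ Q i, ∀ y ∈ Q i, ‖x - y‖ ≤ s

theorem amgm (x y : ENNReal) : 2 * (x * y) ≤ x ^ 2 + y ^ 2 := by
  by_cases hx : x = ⊤
  · rw [hx]; simp
  · by_cases hy : y = ⊤
    · rw [hy]; simp
    · lift x to NNReal using hx
      lift y to NNReal using hy
      have := two_mul_le_add_sq x y
      rw [mul_assoc] at this
      exact_mod_cast this

theorem tub_eq (L a : ℝ) (Y : Set (V d)) (p : V d × V d) :
    tub L a Y p = ∫⁻ x in Y, (At L a x).indicator (fun _ => (1 : ENNReal)) p := by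
  unfold tub
  have hm : MeasurableSet {x : V d | x - p.1 ∈ Cy L a p.2} :=
    (measurable_id.sub_const p.1) (measurableSet_Cy L a p.2)
  rw [inter_comm, ← Measure.restrict_apply hm, ← lintegral_indicator_one hm]
  rfl

theorem tub_le (L a : ℝ) (Y : Set (V d)) (p : V d × V d) : tub L a Y p ≤ volume Y :=
  measure_mono inter_subset_left

theorem measurable_ind (L a : ℝ) : Measurable fun r : (V d × V d) × V d =>
    (At L a r.2).indicator (fun _ => (1 : ENNReal)) r.1 := by
  have h : MeasurableSet {r : (V d × V d) × V d | r.2 - r.1.1 ∈ Cy L a r.1.2} := by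
    have h2 : Measurable fun r : (V d × V d) × V d => (r.2 - r.1.1, r.1.2) := by fun_prop
    exact h2 (measurableSet_Cy2 L a)
  exact measurable_const.indicator h

theorem measurable_ind' (L a : ℝ) (x : V d) : Measurable fun r : V d × V d =>
    (At L a x).indicator (fun _ => (1 : ENNReal)) r :=
  measurable_const.indicator (measurableSet_At L a x)

theorem measurable_ind_left (L a : ℝ) (p : V d × V d) : Measurable fun x : V d =>
    (At L a x).indicator (fun _ => (1 : ENNReal)) p := by
  have h1 : Measurable fun x : V d => (p, x) := measurable_const.prodMk measurable_id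
  have h2 := (measurable_ind (d := d) L a).comp h1
  exact h2

theorem measurable_tub (L a : ℝ) (Y : Set (V d)) :
    Measurable (tub L a Y) := by
  have h := (measurable_ind (d := d) L a).lintegral_prod_right' (ν := volume.restrict Y)
  convert h using 2
  exact tub_eq L a Y _

theorem lint_pair (L a : ℝ) (x x' : V d) :
    ∫⁻ p, (At L a x).indicator (fun _ => (1 : ENNReal)) p *
      (At L a x').indicator (fun _ => (1 : ENNReal)) p ∂(mu d) = K L a (x' - x) := by
  rw [← K_pair, ← lintegral_indicator_one ((measurableSet_At L a x).inter (measurableSet_At L a x'))]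
  refine lintegral_congr fun p => ?_
  by_cases g1 : p ∈ At L a x <;> by_cases g2 : p ∈ At L a x' <;> simp [indicator, g1, g2]

theorem lint_tub_point (L a : ℝ) (Y : Set (V d)) (x' : V d) :
    ∫⁻ p, (At L a x').indicator (fun _ => (1 : ENNReal)) p * tub L a Y p ∂(mu d) =
      ∫⁻ x in Y, K L a (x - x') := by
  simp only [tub_eq]
  have h1 : ∀ p : V d × V d, (At L a x').indicator (fun _ => (1 : ENNReal)) p *
      ∫⁻ x in Y, (At L a x).indicator (fun _ => (1 : ENNReal)) p =
      ∫⁻ x in Y, (At L a x').indicator (fun _ => (1 : ENNReal)) p *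
        (At L a x).indicator (fun _ => (1 : ENNReal)) p := fun p => by
    rw [lintegral_const_mul _ (measurable_ind_left L a p)]
  simp only [h1]
  rw [lintegral_lintegral_swap]
  · refine lintegral_congr fun x => ?_
    rw [lint_pair]
  · refine Measurable.aemeasurable ?_
    exact ((measurable_ind' L a x').comp measurable_fst).mul (measurable_ind L a)

theorem lint_tub_sq (L a : ℝ) (Y : Set (V d)) :
    ∫⁻ p, tub L a Y p ^ 2 ∂(mu d) = ∫⁻ x' in Y, ∫⁻ x in Y, K L a (x - x') := by
  simp only [← lint_tub_point L a Y]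
  rw [lintegral_lintegral_swap]
  · refine lintegral_congr fun p => ?_
    rw [lintegral_mul_const _ (measurable_ind_left L a p), ← tub_eq, sq]
  · refine Measurable.aemeasurable ?_
    exact ((measurable_ind L a).comp (measurable_swap)).mul
      ((measurable_tub L a Y).comp measurable_snd)

variable {s : ℝ} {w : ENNReal} {ι : Type} [Fintype ι] {Q : ι → Set (V d)} {q : ι → V d}

/-- The number of the points in the cylinder. -/
noncomputable def cnt (L a : ℝ) (q : ι → V d) (p : V d × V d) : ENNReal :=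
  ∑ i, (At L a (q i)).indicator (fun _ => (1 : ENNReal)) p

theorem lint_cnt_tub (L a : ℝ) (Y : Set (V d)) (q : ι → V d) :
    ∫⁻ p, cnt L a q p * tub L a Y p ∂(mu d) = ∑ i, ∫⁻ x in Y, K L a (x - q i) := by
  unfold cnt
  simp only [Finset.sum_mul]
  rw [lintegral_finsetSum]
  · refine Finset.sum_congr rfl fun i _ => ?_
    rw [lint_tub_point L a Y]
  · intro i _
    exact (measurable_ind' L a (q i)).mul (measurable_tub L a Y)

theorem lint_cnt_sq (L a : ℝ) (q : ι → V d) :
    ∫⁻ p, cnt L a q p ^ 2 ∂(mu d) = ∑ i, ∑ j, K L a (q j - q i) := by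
  unfold cnt
  simp only [sq, Finset.sum_mul_sum]
  rw [lintegral_finsetSum]
  · refine Finset.sum_congr rfl fun i _ => ?_
    rw [lintegral_finsetSum]
    · refine Finset.sum_congr rfl fun j _ => ?_
      rw [lint_pair]
    · intro j _
      exact (measurable_ind' L a (q i)).mul (measurable_ind' L a (q j))
  · intro i _
    exact Finset.measurable_sum _ fun j _ =>
      (measurable_ind' L a (q i)).mul (measurable_ind' L a (q j))

theorem Cells.lint_union (C : Cells d s w ι Q q) (f : V d → ENNReal) :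
    ∫⁻ x in ⋃ i, Q i, f x = ∑ i, ∫⁻ x in Q i, f x := by
  rw [lintegral_iUnion C.meas C.disj, tsum_fintype]

theorem Cells.vol_union (C : Cells d s w ι Q q) : volume (⋃ i, Q i) = Fintype.card ι * w := by
  rw [measure_iUnion C.disj C.meas, tsum_fintype]
  simp [C.vol]

theorem Cells.meas_union (C : Cells d s w ι Q q) : MeasurableSet (⋃ i, Q i) :=
  MeasurableSet.iUnion C.meas

theorem Cells.second (hd : 1 ≤ d) (C : Cells d s w ι Q q) (hs : 0 ≤ s) (L a : ℝ) (η : ENNReal) :
    2 * (∑ i, w * ∫⁻ x in ⋃ i, Q i, kr hd L a (‖x - q i‖ + 2 * s)) +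
      η ^ 2 * mu d {p | η ≤ tub L a (⋃ i, Q i) p ∧ ∀ i, p ∉ At L a (q i)} ≤
    2 * ∑ i, w * ∫⁻ x in ⋃ i, Q i, kr hd L a (‖x - q i‖ - 2 * s) := by
  obtain ⟨Y, hYdef⟩ : ∃ Y, Y = ⋃ i, Q i := ⟨_, rfl⟩
  have hY : MeasurableSet Y := by rw [hYdef]; exact C.meas_union
  rw [← hYdef]
  obtain ⟨S, hS⟩ : ∃ S, S = {p : V d × V d | η ≤ tub L a Y p ∧ ∀ i, p ∉ At L a (q i)} := ⟨_, rfl⟩
  have hSm : MeasurableSet S := by
    rw [hS]
    have h1 : MeasurableSet {p : V d × V d | η ≤ tub L a Y p} :=
      measurableSet_le measurable_const (measurable_tub L a Y)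
    have h2 : MeasurableSet {p : V d × V d | ∀ i, p ∉ At L a (q i)} := by
      have : {p : V d × V d | ∀ i, p ∉ At L a (q i)} = ⋂ i, (At L a (q i))ᶜ := by
        ext p; simp
      rw [this]
      exact MeasurableSet.iInter fun i => (measurableSet_At L a (q i)).compl
    exact h1.inter h2
  rw [← hS]
  -- pointwise
  have hpt : ∀ p : V d × V d, 2 * (w * (cnt L a q p * tub L a Y p)) +
      S.indicator (fun _ => η ^ 2) p ≤ tub L a Y p ^ 2 + w ^ 2 * cnt L a q p ^ 2 := by
    intro p
    by_cases hp : p ∈ S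
    · rw [indicator_of_mem hp]
      rw [hS] at hp
      have h0 : cnt L a q p = 0 := by
        unfold cnt
        exact Finset.sum_eq_zero fun i _ => indicator_of_notMem (hp.2 i) _
      rw [h0]
      simp only [zero_mul, mul_zero, zero_add, ne_eq, OfNat.ofNat_ne_zero, not_false_eq_true,
        zero_pow, add_zero]
      exact pow_le_pow_left₀ zero_le hp.1 2
    · rw [indicator_of_notMem hp, add_zero]
      have h := amgm (tub L a Y p) (w * cnt L a q p)
      calc 2 * (w * (cnt L a q p * tub L a Y p)) = 2 * (tub L a Y p * (w * cnt L a q p)) := by ring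
        _ ≤ tub L a Y p ^ 2 + (w * cnt L a q p) ^ 2 := h
        _ = _ := by rw [mul_pow]
  have hcm : Measurable (cnt L a q) := by
    unfold cnt
    exact Finset.measurable_sum _ fun i _ => measurable_ind' L a (q i)
  have htm := measurable_tub (d := d) L a Y
  have hint := lintegral_mono (μ := mu d) hpt
  have hpm : Measurable fun p : V d × V d => cnt L a q p * tub L a Y p := hcm.mul htm
  have hm3 : Measurable fun p : V d × V d => 2 * (w * (cnt L a q p * tub L a Y p)) :=
    (hpm.const_mul w).const_mul 2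
  have hm4 : Measurable fun p : V d × V d => w * (cnt L a q p * tub L a Y p) := hpm.const_mul w
  have hm5 : Measurable fun p : V d × V d => cnt L a q p ^ 2 := hcm.pow_const 2
  rw [lintegral_add_left hm3,
    lintegral_add_left (htm.pow_const 2), lintegral_const_mul _ hm4,
    lintegral_const_mul _ hpm, lintegral_const_mul _ hm5,
    lintegral_indicator_const hSm, lint_cnt_tub L a Y, lint_cnt_sq, lint_tub_sq L a Y] at hint
  -- upper bounds
  have key : ∀ i j, ∀ x ∈ Q i, ∀ y ∈ Q j, ∀ z ∈ Q j,
      K L a (y - x) ≤ kr hd L a (‖z - q i‖ - 2 * s) := by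
    intro i j x hx y hy z hz
    rw [← kr_norm hd]
    refine kr_anti hd L a ?_
    have h1 := C.diam i x hx (q i) (C.mem i)
    have h2 := C.diam j z hz y hy
    have h3 : z - q i = (z - y) + (y - x) + (x - q i) := by abel
    have h4 := norm_add₃_le (a := z - y) (b := y - x) (c := x - q i)
    rw [← h3] at h4
    linarith
  have up1 : ∫⁻ x' in Y, ∫⁻ x in Y, K L a (x - x') ≤
      ∑ i, w * ∫⁻ x in Y, kr hd L a (‖x - q i‖ - 2 * s) := by
    rw [hYdef, C.lint_union (fun x' => ∫⁻ x in ⋃ i, Q i, K L a (x - x'))]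
    refine Finset.sum_le_sum fun i _ => ?_
    calc ∫⁻ x' in Q i, ∫⁻ x in ⋃ i, Q i, K L a (x - x')
        ≤ ∫⁻ _x' in Q i, ∫⁻ x in ⋃ i, Q i, kr hd L a (‖x - q i‖ - 2 * s) := by
          refine setLIntegral_mono' (C.meas i) fun x' hx' => ?_
          refine setLIntegral_mono' C.meas_union fun x hx => ?_
          obtain ⟨j, hj⟩ := mem_iUnion.1 hx
          exact key i j x' hx' x hj x hj
      _ = _ := by rw [setLIntegral_const, C.vol, mul_comm]
  have up2 : w ^ 2 * ∑ i, ∑ j, K L a (q j - q i) ≤
      ∑ i, w * ∫⁻ x in Y, kr hd L a (‖x - q i‖ - 2 * s) := by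
    rw [Finset.mul_sum]
    refine Finset.sum_le_sum fun i _ => ?_
    rw [hYdef, C.lint_union, sq, mul_assoc]
    refine mul_le_mul' le_rfl ?_
    rw [Finset.mul_sum]
    refine Finset.sum_le_sum fun j _ => ?_
    calc w * K L a (q j - q i) = ∫⁻ _x in Q j, K L a (q j - q i) := by
          rw [setLIntegral_const, C.vol, mul_comm]
      _ ≤ _ := setLIntegral_mono' (C.meas j) fun x hx => key i j (q i) (C.mem i) (q j) (C.mem j) x hx
  have low : ∑ i, ∫⁻ x in Y, kr hd L a (‖x - q i‖ + 2 * s) ≤ ∑ i, ∫⁻ x in Y, K L a (x - q i) := by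
    refine Finset.sum_le_sum fun i _ => ?_
    refine lintegral_mono fun x => ?_
    rw [← kr_norm hd]
    exact kr_anti hd L a (by linarith)
  calc 2 * (∑ i, w * ∫⁻ x in Y, kr hd L a (‖x - q i‖ + 2 * s)) + η ^ 2 * mu d S
      ≤ 2 * (w * ∑ i, ∫⁻ x in Y, K L a (x - q i)) + η ^ 2 * mu d S := by
        rw [← Finset.mul_sum]
        exact add_le_add (mul_le_mul' le_rfl (mul_le_mul' le_rfl low)) le_rfl
    _ ≤ _ := hint
    _ ≤ _ := add_le_add up1 up2
    _ = _ := (two_mul _).symm

end Pool.Agent.Needle
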