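import Pool.Agent.Lib.MP_09cbbd_ndg.GCap
import Pool.Agent.Lib.MP_09cbbd_ndg.GLem

/-!
# The bathtub bound and the second moment
-/

set_option autoImplicit false

namespace Pool.Agent.Needle

open MeasureTheory Metric Set

variable {d : ℕ}

/-- Constant of the bathtub bound. -/
noncomputable def c4 (d : ℕ) : ℝ := d * (volume (ball (0 : V d) 1)).toReal + 1

theorem c4_pos : 0 < c4 d := by
  unfold c4
  have := kap_pos (d := d)
  positivity

theorem integral_ball (hd : 1 ≤ d) {r : ℝ} (hr : 0 < r) :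
    ∫⁻ z in ball (0 : V d) r, ENNReal.ofReal ((‖z‖⁻¹) ^ (d - 1)) =
      ENNReal.ofReal (d * (volume (ball (0 : V d) 1)).toReal * r) := by
  have : Nonempty (Fin d) := ⟨⟨0, hd⟩⟩
  have : Nontrivial (V d) := inferInstance
  have hfr : Module.finrank ℝ (V d) = d := by simp
  obtain ⟨f, hf⟩ : ∃ f : ℝ → ℝ, f = (Iio r).indicator fun y => (y⁻¹) ^ (d - 1) := ⟨_, rfl⟩
  have h1 : ∀ y ∈ Ioi (0 : ℝ), y ^ (Module.finrank ℝ (V d) - 1) • f y =
      (Iio r).indicator (fun _ => (1 : ℝ)) y := by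
    intro y hy
    rw [hfr, hf, smul_eq_mul]
    by_cases h : y ∈ Iio r
    · rw [indicator_of_mem h, indicator_of_mem h, ← mul_pow, mul_inv_cancel₀ (ne_of_gt hy), one_pow]
    · rw [indicator_of_notMem h, indicator_of_notMem h, mul_zero]
  have h2 : ∫⁻ z in ball (0 : V d) r, ENNReal.ofReal ((‖z‖⁻¹) ^ (d - 1)) =
      ∫⁻ z : V d, ENNReal.ofReal (f ‖z‖) := by
    rw [← lintegral_indicator measurableSet_ball]
    refine lintegral_congr fun z => ?_
    by_cases h : z ∈ ball (0 : V d) r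
    · have h' : ‖z‖ ∈ Iio r := by simpa using h
      rw [indicator_of_mem h, hf, indicator_of_mem h']
    · have h' : ‖z‖ ∉ Iio r := by simpa using h
      rw [indicator_of_notMem h, hf, indicator_of_notMem h', ENNReal.ofReal_zero]
  have hint : Integrable (fun z : V d => f ‖z‖) := by
    rw [integrable_fun_norm_addHaar (volume : Measure (V d)) (f := f)]
    refine IntegrableOn.congr_fun ?_ (fun y hy => (h1 y hy).symm) measurableSet_Ioi
    rw [integrableOn_indicator_iff measurableSet_Iio]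
    refine integrableOn_const ?_
    rw [Iio_inter_Ioi, Real.volume_Ioo]
    exact ENNReal.ofReal_ne_top
  rw [h2, ← ofReal_integral_eq_lintegral_ofReal hint (Filter.Eventually.of_forall fun z => by
    show 0 ≤ f ‖z‖
    rw [hf, indicator_apply]
    split_ifs
    · positivity
    · exact le_rfl)]
  congr 1
  rw [integral_fun_norm_addHaar (volume : Measure (V d)) f, setIntegral_congr_fun measurableSet_Ioi h1,
    setIntegral_indicator measurableSet_Iio, hfr]
  simp only [integral_const, smul_eq_mul, mul_one, nsmul_eq_mul]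
  rw [measureReal_restrict_apply_univ, Ioi_inter_Iio, Real.volume_real_Ioo_of_le hr.le, sub_zero, ← mul_assoc]
  rfl

theorem bath (hd : 1 ≤ d) {H : Set (V d)} {r : ℝ} (hr : 0 < r)
    (hH : volume H ≤ ENNReal.ofReal (r ^ d)) (x : V d) :
    ∫⁻ x' in H, ENNReal.ofReal ((‖x' - x‖⁻¹) ^ (d - 1)) ≤ ENNReal.ofReal (c4 d * r) := by
  have h1 : ∀ x' : V d, ENNReal.ofReal ((‖x' - x‖⁻¹) ^ (d - 1)) ≤
      (ball (0 : V d) r).indicator (fun z => ENNReal.ofReal ((‖z‖⁻¹) ^ (d - 1))) (x' - x) +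
        ENNReal.ofReal ((r⁻¹) ^ (d - 1)) := by
    intro x'
    by_cases h : x' - x ∈ ball (0 : V d) r
    · rw [indicator_of_mem h]
      exact le_self_add
    · rw [indicator_of_notMem h, zero_add]
      refine ENNReal.ofReal_le_ofReal ?_
      rw [mem_ball_zero_iff, not_lt] at h
      have : ‖x' - x‖⁻¹ ≤ r⁻¹ := inv_anti₀ hr h
      exact pow_le_pow_left₀ (by positivity) this _
  have hm : Measurable fun z : V d => ENNReal.ofReal ((‖z‖⁻¹) ^ (d - 1)) :=
    ((measurable_norm.inv).pow_const _).ennreal_ofReal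
  have hm2 : Measurable ((ball (0 : V d) r).indicator
      (fun z => ENNReal.ofReal ((‖z‖⁻¹) ^ (d - 1)))) := hm.indicator measurableSet_ball
  have hm3 : Measurable fun x' : V d => (ball (0 : V d) r).indicator
      (fun z => ENNReal.ofReal ((‖z‖⁻¹) ^ (d - 1))) (x' - x) := hm2.comp (measurable_id.sub_const x)
  calc ∫⁻ x' in H, ENNReal.ofReal ((‖x' - x‖⁻¹) ^ (d - 1))
      ≤ ∫⁻ x' in H, ((ball (0 : V d) r).indicator
        (fun z => ENNReal.ofReal ((‖z‖⁻¹) ^ (d - 1))) (x' - x) +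
        ENNReal.ofReal ((r⁻¹) ^ (d - 1))) := lintegral_mono h1
    _ = (∫⁻ x' in H, (ball (0 : V d) r).indicator
        (fun z => ENNReal.ofReal ((‖z‖⁻¹) ^ (d - 1))) (x' - x)) +
        ENNReal.ofReal ((r⁻¹) ^ (d - 1)) * volume H := by
        rw [lintegral_add_left hm3, setLIntegral_const]
    _ ≤ (∫⁻ x' : V d, (ball (0 : V d) r).indicator
        (fun z => ENNReal.ofReal ((‖z‖⁻¹) ^ (d - 1))) (x' - x)) +
        ENNReal.ofReal ((r⁻¹) ^ (d - 1)) * ENNReal.ofReal (r ^ d) :=
        add_le_add (setLIntegral_le_lintegral _ _) (mul_le_mul' le_rfl hH)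
    _ = ENNReal.ofReal (d * (volume (ball (0 : V d) 1)).toReal * r) + ENNReal.ofReal r := by
        rw [lintegral_sub_right_eq_self (fun z : V d => (ball (0 : V d) r).indicator
          (fun z => ENNReal.ofReal ((‖z‖⁻¹) ^ (d - 1))) z) x, lintegral_indicator measurableSet_ball,
          integral_ball hd hr, ← ENNReal.ofReal_mul (by positivity)]
        congr 2
        obtain ⟨n, rfl⟩ : ∃ n, d = n + 1 := ⟨d - 1, by omega⟩
        simp only [Nat.add_sub_cancel]
        rw [inv_pow, pow_succ, ← mul_assoc, inv_mul_cancel₀ (by positivity), one_mul]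
    _ = ENNReal.ofReal (c4 d * r) := by
        have := kap_pos (d := d)
        rw [← ENNReal.ofReal_add (by positivity) hr.le]
        congr 1
        unfold c4
        ring

/-! ### Second moments over a block -/

theorem perp_add (θ x y : V d) : ‖x - y - (inner ℝ (x - y) θ : ℝ) • θ‖ ≤
    ‖x - (inner ℝ x θ : ℝ) • θ‖ + ‖y - (inner ℝ y θ : ℝ) • θ‖ := by
  have e : x - y - (inner ℝ (x - y) θ : ℝ) • θ =
      (x - (inner ℝ x θ : ℝ) • θ) - (y - (inner ℝ y θ : ℝ) • θ) := by
    rw [inner_sub_left]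
    module
  rw [e]
  exact norm_sub_le _ _

/-- The part of a set of diameter `D` in a cylinder. -/
theorem vol_block (hd : 1 ≤ d) {b : Set (V d)} {D L a : ℝ} (hD : 0 ≤ D) (ha : 0 ≤ a)
    (hb : ∀ x ∈ b, ∀ y ∈ b, ‖x - y‖ ≤ D) {θ : V d} (hθ : ‖θ‖ = 1) (x : V d) :
    volume {y | y ∈ b ∧ x - y ∈ Cy L a θ} ≤ ENNReal.ofReal (2 * D * (4 * a) ^ (d - 1)) := by
  rcases Set.eq_empty_or_nonempty {y | y ∈ b ∧ x - y ∈ Cy L a θ} with h | ⟨y0, h1, h2⟩
  · rw [h, measure_empty]
    exact zero_le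
  · have h3 : {y | y ∈ b ∧ x - y ∈ Cy L a θ} ⊆ (fun y => y - y0) ⁻¹'
        {g : V d | -D ≤ (inner ℝ g θ : ℝ) ∧ (inner ℝ g θ : ℝ) ≤ D ∧
          ‖g - (inner ℝ g θ : ℝ) • θ‖ ≤ 2 * a} := by
      rintro y ⟨g1, g2⟩
      have g3 : |(inner ℝ (y - y0) θ : ℝ)| ≤ D := by
        refine (abs_real_inner_le_norm _ _).trans ?_
        rw [hθ, mul_one]
        exact hb y g1 y0 h1
      refine ⟨(abs_le.1 g3).1, (abs_le.1 g3).2, ?_⟩
      have g4 := perp_add θ (x - y0) (x - y)
      have e : x - y0 - (x - y) = y - y0 := by abel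
      rw [e] at g4
      have g5 := h2.2
      have g6 := g2.2
      show ‖y - y0 - (inner ℝ (y - y0) θ : ℝ) • θ‖ ≤ 2 * a
      linarith
    refine (measure_mono h3).trans ?_
    have hm : MeasurableSet {g : V d | -D ≤ (inner ℝ g θ : ℝ) ∧ (inner ℝ g θ : ℝ) ≤ D ∧
          ‖g - (inner ℝ g θ : ℝ) • θ‖ ≤ 2 * a} := by
      have k1 : Continuous fun g : V d => (inner ℝ g θ : ℝ) := by fun_prop
      have k2 : Continuous fun g : V d => ‖g - (inner ℝ g θ : ℝ) • θ‖ := by fun_prop
      exact (measurableSet_le measurable_const k1.measurable).inter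
        ((measurableSet_le k1.measurable measurable_const).inter
          (measurableSet_le k2.measurable measurable_const))
    have h4 := (measurePreserving_sub_right (volume : Measure (V d)) y0).measure_preimage
      hm.nullMeasurableSet
    refine (le_of_eq h4).trans ((box_le hd θ hθ (-D) D (2 * a) (by linarith) (by linarith)).trans
      (le_of_eq ?_))
    congr 1
    ring

theorem mu_pair_le (hd : 1 ≤ d) {b : Set (V d)} (hbm : MeasurableSet b) {D L a : ℝ} (hD : 0 ≤ D)
    (ha : 0 ≤ a) (hb : ∀ x ∈ b, ∀ y ∈ b, ‖x - y‖ ≤ D) {x x' : V d} (hx : x' ≠ x) :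
    mu d ((Prod.fst ⁻¹' b) ∩ (At L a x ∩ At L a x')) ≤
      ENNReal.ofReal (2 * D * (4 * a) ^ (d - 1) * (c2 d * (2 * a) ^ (d - 1))) *
        ENNReal.ofReal ((‖x' - x‖⁻¹) ^ (d - 1)) := by
  have hx' : x' - x ≠ 0 := sub_ne_zero.2 hx
  have hc2 := c2_pos (d := d)
  rw [mu_apply ((measurable_fst hbm).inter ((measurableSet_At L a x).inter
    (measurableSet_At L a x')))]
  have h1 : ∀ᵐ θ ∂(sg d), volume {y | (y, θ) ∈ (Prod.fst ⁻¹' b) ∩ (At L a x ∩ At L a x')} ≤
      {θ : V d | ‖(x' - x) - (inner ℝ (x' - x) θ : ℝ) • θ‖ ≤ 2 * a}.indicator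
        (fun _ => ENNReal.ofReal (2 * D * (4 * a) ^ (d - 1))) θ := by
    filter_upwards [ae_norm hd] with θ hθ
    by_cases h : θ ∈ {θ : V d | ‖(x' - x) - (inner ℝ (x' - x) θ : ℝ) • θ‖ ≤ 2 * a}
    · rw [indicator_of_mem h]
      refine le_trans (measure_mono ?_) (vol_block (L := L) hd hD ha hb hθ x)
      rintro y ⟨g1, g2, g3⟩
      exact ⟨g1, g2⟩
    · rw [indicator_of_notMem h]
      have : {y | (y, θ) ∈ (Prod.fst ⁻¹' b) ∩ (At L a x ∩ At L a x')} = ∅ := by
        refine eq_empty_of_forall_notMem ?_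
        rintro y ⟨g1, g2, g3⟩
        apply h
        have g4 := perp_add θ (x' - y) (x - y)
        have e : x' - y - (x - y) = x' - x := by abel
        rw [e] at g4
        have g5 : ‖x' - y - (inner ℝ (x' - y) θ : ℝ) • θ‖ < a := g3.2
        have g6 : ‖x - y - (inner ℝ (x - y) θ : ℝ) • θ‖ < a := g2.2
        show ‖(x' - x) - (inner ℝ (x' - x) θ : ℝ) • θ‖ ≤ 2 * a
        linarith
      rw [this, measure_empty]
  refine (lintegral_mono_ae h1).trans ?_
  rw [lintegral_indicator_const (measurableSet_perp (x' - x) (2 * a))]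
  refine (mul_le_mul' le_rfl (cap_le hd hx' (by linarith))).trans (le_of_eq ?_)
  rw [← ENNReal.ofReal_mul (by positivity), ← ENNReal.ofReal_mul (by positivity)]
  congr 1
  rw [div_eq_mul_inv, mul_pow]
  ring

/-- Second moment of the occupied volume. -/
theorem second_block (hd : 1 ≤ d) {b : Set (V d)} (hbm : MeasurableSet b) {D L a r : ℝ}
    (hD : 0 ≤ D) (ha : 0 ≤ a) (hr : 0 < r) (hb : ∀ x ∈ b, ∀ y ∈ b, ‖x - y‖ ≤ D) {H : Set (V d)}
    (hH : volume H ≤ ENNReal.ofReal (r ^ d)) :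
    ∫⁻ p in Prod.fst ⁻¹' b, tub L a H p ^ 2 ∂(mu d) ≤
      ENNReal.ofReal (2 * D * (4 * a) ^ (d - 1) * (c2 d * (2 * a) ^ (d - 1)) * (c4 d * r)) *
        volume H := by
  have hc2 := c2_pos (d := d)
  have hc4 := c4_pos (d := d)
  have : Nonempty (Fin d) := ⟨⟨0, hd⟩⟩
  have : Nontrivial (V d) := inferInstance
  have hbp : MeasurableSet (Prod.fst ⁻¹' b : Set (V d × V d)) := measurable_fst hbm
  have hsq : ∀ p : V d × V d, tub L a H p ^ 2 = ∫⁻ x in H,
      (At L a x).indicator (fun _ => (1 : ENNReal)) p * tub L a H p := by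
    intro p
    rw [lintegral_mul_const _ (measurable_ind_left L a p), ← tub_eq, sq]
  have hpr : ∀ (x : V d), ∫⁻ p in Prod.fst ⁻¹' b,
      (At L a x).indicator (fun _ => (1 : ENNReal)) p * tub L a H p ∂(mu d) =
      ∫⁻ x' in H, mu d ((Prod.fst ⁻¹' b) ∩ (At L a x ∩ At L a x')) := by
    intro x
    have h1 : ∀ p : V d × V d, (At L a x).indicator (fun _ => (1 : ENNReal)) p * tub L a H p =
        ∫⁻ x' in H, (At L a x).indicator (fun _ => (1 : ENNReal)) p *
          (At L a x').indicator (fun _ => (1 : ENNReal)) p := fun p => by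
      rw [lintegral_const_mul _ (measurable_ind_left L a p), tub_eq]
    simp only [h1]
    rw [lintegral_lintegral_swap]
    · refine lintegral_congr fun x' => ?_
      have h2 : ∀ p : V d × V d, (At L a x).indicator (fun _ => (1 : ENNReal)) p *
          (At L a x').indicator (fun _ => (1 : ENNReal)) p =
          (At L a x ∩ At L a x').indicator 1 p := by
        intro p
        by_cases g1 : p ∈ At L a x <;> by_cases g2 : p ∈ At L a x' <;> simp [indicator, g1, g2]
      simp only [h2]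
      rw [lintegral_indicator_one ((measurableSet_At L a x).inter (measurableSet_At L a x')),
        Measure.restrict_apply ((measurableSet_At L a x).inter (measurableSet_At L a x')),
        inter_comm]
    · refine Measurable.aemeasurable ?_
      exact ((measurable_ind' L a x).comp measurable_fst).mul (measurable_ind L a)
  simp only [hsq]
  rw [lintegral_lintegral_swap]
  swap
  · refine Measurable.aemeasurable ?_
    exact (measurable_ind L a).mul ((measurable_tub L a H).comp measurable_fst)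
  simp only [hpr]
  have hin : ∀ x : V d, ∫⁻ x' in H, mu d ((Prod.fst ⁻¹' b) ∩ (At L a x ∩ At L a x')) ≤
      ENNReal.ofReal (2 * D * (4 * a) ^ (d - 1) * (c2 d * (2 * a) ^ (d - 1)) * (c4 d * r)) := by
    intro x
    have h3 : ∀ᵐ x' ∂((volume : Measure (V d)).restrict H),
        mu d ((Prod.fst ⁻¹' b) ∩ (At L a x ∩ At L a x')) ≤
        ENNReal.ofReal (2 * D * (4 * a) ^ (d - 1) * (c2 d * (2 * a) ^ (d - 1))) *
          ENNReal.ofReal ((‖x' - x‖⁻¹) ^ (d - 1)) := by
      have h4 : ∀ᵐ x' ∂((volume : Measure (V d)).restrict H), x' ≠ x :=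
        ae_restrict_of_ae (Measure.ae_ne volume x)
      filter_upwards [h4] with x' hx'
      exact mu_pair_le hd hbm hD ha hb hx'
    refine (lintegral_mono_ae h3).trans ?_
    have hm : Measurable fun x' : V d => ENNReal.ofReal ((‖x' - x‖⁻¹) ^ (d - 1)) :=
      (((measurable_id.sub_const x).norm.inv).pow_const _).ennreal_ofReal
    rw [lintegral_const_mul _ hm, ENNReal.ofReal_mul (q := c4 d * r) (by positivity)]
    exact mul_le_mul' le_rfl (bath hd hr hH x)
  refine (lintegral_mono hin).trans ?_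
  rw [setLIntegral_const]

end Pool.Agent.Needle
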