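import Pool.Agent.Lib.MP_09cbbd_ndg.GVol

/-!
# The measure of caps
-/

set_option autoImplicit false

namespace Pool.Agent.Needle

open MeasureTheory Metric Set

variable {d : ℕ}

theorem perp_sq (z θ : V d) (hθ : ‖θ‖ = 1) :
    ‖z - (inner ℝ z θ : ℝ) • θ‖ ^ 2 = ‖z‖ ^ 2 - (inner ℝ z θ : ℝ) ^ 2 := by
  rw [norm_sub_sq_real, inner_smul_right, norm_smul, hθ, mul_one, Real.norm_eq_abs, sq_abs]
  ring

theorem norm_dir {g : V d} (hg : g ≠ 0) : ‖‖g‖⁻¹ • g‖ = 1 := by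
  rw [norm_smul, norm_inv, norm_norm, inv_mul_cancel₀ (norm_ne_zero_iff.2 hg)]

theorem perp_dir {z g : V d} (hz : z ≠ 0) (hg : g ≠ 0) :
    ‖g‖ * ‖z - (inner ℝ z (‖g‖⁻¹ • g) : ℝ) • (‖g‖⁻¹ • g)‖ =
      ‖z‖ * ‖g - (inner ℝ g (‖z‖⁻¹ • z) : ℝ) • (‖z‖⁻¹ • z)‖ := by
  have h1 := perp_sq z (‖g‖⁻¹ • g) (norm_dir hg)
  have h2 := perp_sq g (‖z‖⁻¹ • z) (norm_dir hz)
  have hz' : 0 < ‖z‖ := norm_pos_iff.2 hz
  have hg' : 0 < ‖g‖ := norm_pos_iff.2 hg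
  rw [inner_smul_right] at h1 h2
  rw [inner_smul_right, inner_smul_right]
  have h3 : (inner ℝ g z : ℝ) = inner ℝ z g := real_inner_comm _ _
  rw [h3] at h2 ⊢
  refine (sq_eq_sq₀ (by positivity) (by positivity)).1 ?_
  rw [mul_pow, mul_pow, h1, h2]
  field_simp

/-- Constant of the upper bound. -/
noncomputable def c2 (d : ℕ) : ℝ := 2 ^ d / (volume (ball (0 : V d) 1)).toReal

/-- Constant of the lower bound. -/
noncomputable def c3 (d : ℕ) : ℝ := 1 / 4 * (1 / (4 * d)) ^ (d - 1) / (volume (ball (0 : V d) 1)).toReal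

theorem kap_pos : 0 < (volume (ball (0 : V d) 1)).toReal :=
  ENNReal.toReal_pos vol_ball_pos.ne' vol_ball_ne_top

theorem c2_pos : 0 < c2 d := by
  unfold c2
  have := kap_pos (d := d)
  positivity

theorem c3_pos (hd : 1 ≤ d) : 0 < c3 d := by
  unfold c3
  have := kap_pos (d := d)
  have hd0 : (0 : ℝ) < d := by exact_mod_cast hd
  positivity

theorem sg_eq {S : Set (V d)} (hS : MeasurableSet S) :
    sg d S = ENNReal.ofReal ((volume (ball (0 : V d) 1)).toReal)⁻¹ *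
      volume (ball (0 : V d) 1 ∩ {g | ‖g‖⁻¹ • g ∈ S}) := by
  rw [sg_apply hS, ENNReal.ofReal_inv_of_pos kap_pos, ENNReal.ofReal_toReal vol_ball_ne_top]

theorem measurableSet_perp (z : V d) (s : ℝ) :
    MeasurableSet {θ : V d | ‖z - (inner ℝ z θ : ℝ) • θ‖ ≤ s} := by
  have h2 : Continuous fun p : V d => ‖z - (inner ℝ z p : ℝ) • p‖ := by fun_prop
  exact measurableSet_le h2.measurable measurable_const

theorem cap_le (hd : 1 ≤ d) {z : V d} (hz : z ≠ 0) {s : ℝ} (hs : 0 ≤ s) :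
    sg d {θ | ‖z - (inner ℝ z θ : ℝ) • θ‖ ≤ s} ≤ ENNReal.ofReal (c2 d * (s / ‖z‖) ^ (d - 1)) := by
  have hz' : 0 < ‖z‖ := norm_pos_iff.2 hz
  have hκ := kap_pos (d := d)
  rw [sg_eq (measurableSet_perp z s)]
  have h1 : ball (0 : V d) 1 ∩ {g | ‖g‖⁻¹ • g ∈ {θ | ‖z - (inner ℝ z θ : ℝ) • θ‖ ≤ s}} ⊆
      {g : V d | -1 ≤ (inner ℝ g (‖z‖⁻¹ • z) : ℝ) ∧ (inner ℝ g (‖z‖⁻¹ • z) : ℝ) ≤ 1 ∧
      ‖g - (inner ℝ g (‖z‖⁻¹ • z) : ℝ) • (‖z‖⁻¹ • z)‖ ≤ s / ‖z‖} := by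
    rintro g ⟨hg1, hg2⟩
    rw [mem_ball_zero_iff] at hg1
    have h2 : |(inner ℝ g (‖z‖⁻¹ • z) : ℝ)| ≤ 1 := by
      refine (abs_real_inner_le_norm _ _).trans ?_
      rw [norm_dir hz, mul_one]
      exact hg1.le
    refine ⟨(abs_le.1 h2).1, (abs_le.1 h2).2, ?_⟩
    rw [le_div_iff₀ hz']
    rcases eq_or_ne g 0 with hg | hg
    · subst hg
      simpa using hs
    · have h3 := perp_dir hz hg
      have h4 : ‖z - (inner ℝ z (‖g‖⁻¹ • g) : ℝ) • (‖g‖⁻¹ • g)‖ ≤ s := hg2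
      rw [mul_comm, ← h3]
      have hg' : 0 < ‖g‖ := norm_pos_iff.2 hg
      nlinarith [norm_nonneg (z - (inner ℝ z (‖g‖⁻¹ • g) : ℝ) • (‖g‖⁻¹ • g))]
  have h5 := (measure_mono h1).trans (box_le hd (‖z‖⁻¹ • z) (norm_dir hz) (-1) 1 (s / ‖z‖)
    (by norm_num) (by positivity))
  refine (mul_le_mul' le_rfl h5).trans ?_
  rw [← ENNReal.ofReal_mul (by positivity)]
  refine ENNReal.ofReal_le_ofReal (le_of_eq ?_)
  unfold c2
  obtain ⟨n, rfl⟩ : ∃ n, d = n + 1 := ⟨d - 1, by omega⟩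
  simp only [Nat.add_sub_cancel]
  rw [mul_pow, pow_succ]
  field_simp
  ring

theorem measurableSet_Cy' (L a : ℝ) (z : V d) : MeasurableSet {θ : V d | z ∈ Cy L a θ} := by
  have h1 : Measurable fun θ : V d => (z, θ) := measurable_const.prodMk measurable_id
  exact h1 (measurableSet_Cy2 L a)

theorem le_cap_aux (hd : 1 ≤ d) {z : V d} (hz : z ≠ 0) {L a D : ℝ} (ha : 0 < a) (haD : a ≤ D)
    (hDL : D ≤ L / 2) (hzD : ‖z‖ ≤ D) :
    ENNReal.ofReal (c3 d * (a / D) ^ (d - 1)) ≤ sg d {θ | z ∈ Cy L a θ} := by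
  have hz' : 0 < ‖z‖ := norm_pos_iff.2 hz
  have hD : 0 < D := lt_of_lt_of_le ha haD
  have hκ := kap_pos (d := d)
  have hd0 : (0 : ℝ) < d := by exact_mod_cast hd
  rw [sg_eq (measurableSet_Cy' L a z)]
  have h1 : {g : V d | 1 / 4 ≤ (inner ℝ g (‖z‖⁻¹ • z) : ℝ) ∧ (inner ℝ g (‖z‖⁻¹ • z) : ℝ) ≤ 1 / 2 ∧
      ‖g - (inner ℝ g (‖z‖⁻¹ • z) : ℝ) • (‖z‖⁻¹ • z)‖ < a / (4 * D)} ⊆
      ball (0 : V d) 1 ∩ {g | ‖g‖⁻¹ • g ∈ {θ | z ∈ Cy L a θ}} := by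
    rintro g ⟨g1, g2, g3⟩
    have g4 : a / (4 * D) ≤ 1 / 4 := by
      rw [div_le_div_iff₀ (by positivity) (by norm_num)]
      linarith
    have g5 : 1 / 4 ≤ ‖g‖ := by
      refine g1.trans ((le_abs_self _).trans ((abs_real_inner_le_norm _ _).trans ?_))
      rw [norm_dir hz, mul_one]
    have g6 : ‖g‖ < 1 := by
      have e : g = (g - (inner ℝ g (‖z‖⁻¹ • z) : ℝ) • (‖z‖⁻¹ • z)) +
        (inner ℝ g (‖z‖⁻¹ • z) : ℝ) • (‖z‖⁻¹ • z) := by abel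
      have := norm_add_le (g - (inner ℝ g (‖z‖⁻¹ • z) : ℝ) • (‖z‖⁻¹ • z))
        ((inner ℝ g (‖z‖⁻¹ • z) : ℝ) • (‖z‖⁻¹ • z))
      rw [← e, norm_smul _ (‖z‖⁻¹ • z), norm_dir hz, mul_one, Real.norm_of_nonneg (by linarith)] at this
      linarith
    have hg : g ≠ 0 := by
      rintro rfl
      rw [norm_zero] at g5
      linarith
    refine ⟨by rwa [mem_ball_zero_iff], ?_, ?_⟩
    · refine (abs_real_inner_le_norm _ _).trans ?_
      rw [norm_dir hg, mul_one]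
      exact hzD.trans hDL
    · have h3 := perp_dir hz hg
      have h4 : ‖z‖ * ‖g - (inner ℝ g (‖z‖⁻¹ • z) : ℝ) • (‖z‖⁻¹ • z)‖ < D * (a / (4 * D)) := by
        have h5 := norm_nonneg (g - (inner ℝ g (‖z‖⁻¹ • z) : ℝ) • (‖z‖⁻¹ • z))
        nlinarith
      have h6 : D * (a / (4 * D)) = 1 / 4 * a := by
        field_simp
      rw [← h3, h6] at h4
      have h7 := norm_nonneg (z - (inner ℝ z (‖g‖⁻¹ • g) : ℝ) • (‖g‖⁻¹ • g))
      nlinarith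
  have h2 := (le_box hd (‖z‖⁻¹ • z) (norm_dir hz) (1 / 4) (1 / 2) (a / (4 * D)) (by norm_num)
    (by positivity)).trans (measure_mono h1)
  refine le_trans ?_ (mul_le_mul' le_rfl h2)
  rw [← ENNReal.ofReal_mul (by positivity)]
  refine ENNReal.ofReal_le_ofReal (le_of_eq ?_)
  unfold c3
  have e : a / (4 * D) / d = 1 / (4 * d) * (a / D) := by field_simp
  rw [e, mul_pow]
  ring

theorem le_cap (hd : 1 ≤ d) {z : V d} {L a D : ℝ} (ha : 0 < a) (haD : a ≤ D)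
    (hDL : D ≤ L / 2) (hzD : ‖z‖ ≤ D) :
    ENNReal.ofReal (c3 d * (a / D) ^ (d - 1)) ≤ sg d {θ | z ∈ Cy L a θ} := by
  have hD : 0 < D := lt_of_lt_of_le ha haD
  rcases eq_or_ne z 0 with hz | hz
  · have h1 : {θ : V d | z ∈ Cy L a θ} = univ := by
      refine eq_univ_of_forall fun θ => ?_
      subst hz
      show |(inner ℝ (0 : V d) θ : ℝ)| ≤ L / 2 ∧ ‖(0 : V d) - (inner ℝ (0 : V d) θ : ℝ) • θ‖ < a
      simp only [inner_zero_left, abs_zero, zero_smul, sub_zero, norm_zero]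
      exact ⟨by linarith, ha⟩
    rw [h1, measure_univ]
    obtain ⟨e, he⟩ := exists_unit hd
    have h2 : D • e ≠ 0 := by
      rw [← norm_pos_iff, norm_smul, he, mul_one, Real.norm_of_nonneg hD.le]
      exact hD
    refine (le_cap_aux hd h2 ha haD hDL ?_).trans prob_le_one
    rw [norm_smul, he, mul_one, Real.norm_of_nonneg hD.le]
  · exact le_cap_aux hd hz ha haD hDL hzD

end Pool.Agent.Needle
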