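import Pool.Agent.Lib.MP_09cbbd_ndg.GSpl

/-!
# Free needles of a block: real form
-/

set_option autoImplicit false

namespace Pool.Agent.Needle

open MeasureTheory Metric Set

variable {d : ℕ}

/-- A block: volume `h ^ d` and diameter at most `d h`. -/
structure Bk (d : ℕ) (h : ℝ) (b : Set (V d)) : Prop where
  meas : MeasurableSet b
  vol : volume b = ENNReal.ofReal (h ^ d)
  diam : ∀ x ∈ b, ∀ y ∈ b, ‖x - y‖ ≤ d * h

/-- Constant of the first moment. -/
noncomputable def k1 (d : ℕ) : ℝ := c3 d / (16 * d ^ d * 2 ^ (d - 1))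

/-- Constant of the second moment. -/
noncomputable def k2 (d : ℕ) : ℝ := 2 ^ (d - 1) * c2 d * c4 d / (128 * d)

/-- Constant of the tube bound. -/
noncomputable def k0 (d : ℕ) : ℝ :=
  16 * d * (4 * d) ^ (d - 1) * (volume (ball (0 : V d) 1)).toReal * (d + 2) ^ d

theorem k1_pos (hd : 1 ≤ d) : 0 < k1 d := by
  unfold k1
  have := c3_pos hd
  have hd0 : (0 : ℝ) < d := by exact_mod_cast hd
  positivity

theorem k2_pos (hd : 1 ≤ d) : 0 < k2 d := by
  unfold k2
  have := c2_pos (d := d)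
  have := c4_pos (d := d)
  have hd0 : (0 : ℝ) < d := by exact_mod_cast hd
  positivity

theorem k0_pos (hd : 1 ≤ d) : 0 < k0 d := by
  unfold k0
  have := kap_pos (d := d)
  have hd0 : (0 : ℝ) < d := by exact_mod_cast hd
  positivity

theorem id1 (hd : 1 ≤ d) {a h : ℝ} (hh : 0 < h) :
    c3 d * (a / (d * h)) ^ (d - 1) * h ^ d = k1 d * (16 * d * h * (2 * a) ^ (d - 1)) := by
  have hd0 : (0 : ℝ) < d := by exact_mod_cast hd
  obtain ⟨n, rfl⟩ : ∃ n, d = n + 1 := ⟨d - 1, by omega⟩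
  unfold k1
  simp only [Nat.add_sub_cancel, mul_pow, div_pow, pow_succ]
  field_simp

theorem id2 (hd : 1 ≤ d) {a h ρ : ℝ} (hh : 0 < h) :
    2 * (d * h) * (4 * a) ^ (d - 1) * (c2 d * (2 * a) ^ (d - 1)) * (c4 d * (ρ * h)) =
      k2 d * ρ * (16 * d * h * (2 * a) ^ (d - 1)) ^ 2 := by
  have hd0 : (0 : ℝ) < d := by exact_mod_cast hd
  obtain ⟨n, rfl⟩ : ∃ n, d = n + 1 := ⟨d - 1, by omega⟩
  unfold k2
  simp only [Nat.add_sub_cancel]
  have h4 : (4 * a) ^ n = 2 ^ n * (2 * a) ^ n := by rw [← mul_pow]; ring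
  rw [h4]
  field_simp
  ring

theorem id3 (hd : 1 ≤ d) {a h : ℝ} :
    16 * d * h * (2 * a) ^ (d - 1) * (((d + 2) * h) ^ d * (volume (ball (0 : V d) 1)).toReal) =
      h * (a / (2 * d)) ^ (d - 1) * (k0 d * h ^ d) := by
  have hd0 : (0 : ℝ) < d := by exact_mod_cast hd
  unfold k0
  have h4 : (2 * a) ^ (d - 1) = (a / (2 * d)) ^ (d - 1) * (4 * d) ^ (d - 1) := by
    rw [← mul_pow]
    congr 1
    field_simp
    ring
  rw [h4, mul_pow ((d : ℝ) + 2) h d]
  ring

theorem vol_ball (hd : 1 ≤ d) (r : ℝ) (hr : 0 ≤ r) : volume (ball (0 : V d) r) =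
    ENNReal.ofReal (r ^ d * (volume (ball (0 : V d) 1)).toReal) := by
  have : Nonempty (Fin d) := ⟨⟨0, hd⟩⟩
  have : Nontrivial (V d) := inferInstance
  rw [Measure.addHaar_ball _ _ hr, ENNReal.ofReal_mul (by positivity),
    ENNReal.ofReal_toReal vol_ball_ne_top]
  simp

theorem core (hd : 1 ≤ d) {a h : ℝ} (ha : 0 < a) (hah : a ≤ h) {b : Set (V d)} (B : Bk d h b)
    {Y : Set (V d)} (hY : MeasurableSet Y) (hYb : Y ⊆ b) {U N : Set (V d × V d)} (hN : U ⊆ N)
    {η ε : ℝ} (hη : 0 < η) (hε : 0 ≤ ε)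
    (hbl : mu d {p | ENNReal.ofReal η * W d (16 * d * h) a ≤ tub (16 * d * h) a Y p ∧ p ∈ N} ≤
      ENNReal.ofReal ε * volume Y) :
    ∃ X : ℝ, 0 ≤ X ∧
      (mu d (Prod.fst ⁻¹' b ∩ U)).toReal / h ^ d + (volume Y).toReal / h ^ d + X ≤
        1 + ε + k0 d * η ∧
      k1 d * ((1 - (volume Y).toReal / h ^ d) * ((volume Y).toReal / h ^ d)) ≤ X + η ∧
      ∀ ρ : ℝ, 0 < ρ → (volume Y).toReal / h ^ d ≤ ρ ^ d → ∀ T : ℝ, 0 ≤ T →
        2 * T * (k1 d * ((1 - (volume Y).toReal / h ^ d) * ((volume Y).toReal / h ^ d))) ≤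
          T ^ 2 * (k2 d * ρ * ((volume Y).toReal / h ^ d)) + X + 2 * T * η := by
  have hd0 : (0 : ℝ) < d := by exact_mod_cast hd
  have hd1 : (1 : ℝ) ≤ d := by exact_mod_cast hd
  have hh : 0 < h := lt_of_lt_of_le ha hah
  have hk0 := k0_pos hd
  have hk1 := k1_pos hd
  have hk2 := k2_pos hd
  have hc2 := c2_pos (d := d)
  have hc3 := c3_pos hd
  have hc4 := c4_pos (d := d)
  have hkap := kap_pos (d := d)
  obtain ⟨β, hβ⟩ : ∃ β, β = h ^ d := ⟨_, rfl⟩
  have hβ0 : 0 < β := by rw [hβ]; positivity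
  have hvb : volume b = ENNReal.ofReal β := by rw [B.vol, hβ]
  obtain ⟨L, hL⟩ : ∃ L, L = 16 * d * h := ⟨_, rfl⟩
  have hL0 : 0 < L := by rw [hL]; positivity
  obtain ⟨W', hW'⟩ : ∃ W', W' = (W d L a).toReal := ⟨_, rfl⟩
  have hWt := W_ne_top (d := d) hd hL0.le ha.le
  have hWe : W d L a = ENNReal.ofReal W' := by rw [hW', ENNReal.ofReal_toReal hWt]
  obtain ⟨Wu, hWu⟩ : ∃ Wu, Wu = 16 * d * h * (2 * a) ^ (d - 1) := ⟨_, rfl⟩
  have hWu0 : 0 < Wu := by rw [hWu]; positivity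
  have hW1 : W' ≤ Wu := by
    rw [hW', hWu, ← hL]
    refine ENNReal.toReal_le_of_le_ofReal (by positivity) (W_le hd hL0.le ha.le)
  have hW0 : 0 ≤ W' := by rw [hW']; exact ENNReal.toReal_nonneg
  -- the volume of Y
  have hYle : volume Y ≤ ENNReal.ofReal β := by rw [← hvb]; exact measure_mono hYb
  obtain ⟨y, hy⟩ : ∃ y, y = (volume Y).toReal := ⟨_, rfl⟩
  have hvY : volume Y = ENNReal.ofReal y := by
    rw [hy, ENNReal.ofReal_toReal (ne_top_of_le_ne_top ENNReal.ofReal_ne_top hYle)]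
  have hy0 : 0 ≤ y := by rw [hy]; exact ENNReal.toReal_nonneg
  have hyβ : y ≤ β := by
    rw [hvY, ENNReal.ofReal_le_ofReal_iff hβ0.le] at hYle
    exact hYle
  have hvd : volume (b \ Y) = ENNReal.ofReal (β - y) := by
    rw [measure_sdiff hYb hY.nullMeasurableSet (by rw [hvY]; exact ENNReal.ofReal_ne_top), hvb, hvY,
      ENNReal.ofReal_sub _ hy0]
  -- τ
  obtain ⟨τ, hτ⟩ : ∃ τ, τ = ENNReal.ofReal η * W d L a := ⟨_, rfl⟩
  have hτe : τ = ENNReal.ofReal (η * W') := by rw [hτ, hWe, ENNReal.ofReal_mul hη.le]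
  rw [← hL, ← hτ, hvY, ← ENNReal.ofReal_mul hε] at hbl
  have hmub : mu d (Prod.fst ⁻¹' b) = ENNReal.ofReal β := by rw [mu_fst B.meas, hvb]
  have fin : ∀ S : Set (V d × V d), S ⊆ Prod.fst ⁻¹' b → ∃ m : ℝ, 0 ≤ m ∧ mu d S = ENNReal.ofReal m ∧
      m = (mu d S).toReal := by
    intro S hS
    refine ⟨(mu d S).toReal, ENNReal.toReal_nonneg, ?_, rfl⟩
    rw [ENNReal.ofReal_toReal]
    have h1 := measure_mono (μ := mu d) hS
    rw [hmub] at h1
    exact ne_top_of_le_ne_top ENNReal.ofReal_ne_top h1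
  obtain ⟨f, hf0, hf, hf'⟩ := fin (Prod.fst ⁻¹' b ∩ U) inter_subset_left
  obtain ⟨X, hX0, hX, -⟩ := fin {p | p.1 ∈ b \ Y ∧ τ ≤ tub L a Y p} (fun p hp => hp.1.1)
  obtain ⟨e, he0, he, -⟩ := fin {p | p.1 ∈ b ∧ p.1 ∈ Y ∧ tub L a Y p < τ} (fun p hp => hp.1)
  -- R1
  have R1 : f + X + y ≤ β + ε * y + e := by
    have h1 := base_le B.meas hY L a τ hN
    rw [inter_eq_self_of_subset_right hYb, hvb, hvY, hf, hX, he] at h1
    have h2 := h1.trans (add_le_add (add_le_add le_rfl hbl) le_rfl)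
    rw [← ENNReal.ofReal_add hf0 hX0, ← ENNReal.ofReal_add (by positivity) hy0,
      ← ENNReal.ofReal_add hβ0.le (by positivity), ← ENNReal.ofReal_add (by positivity) he0,
      ENNReal.ofReal_le_ofReal_iff (by positivity)] at h2
    exact h2
  -- tube
  have hLh : d * h ≤ L / 2 := by rw [hL]; nlinarith
  have hhd : h ≤ d * h := by nlinarith
  have R0 : e ≤ k0 d * η * β := by
    have h1 := mu_tube_low hd B.meas hY ha hh (by linarith : h ≤ L / 2) B.diam τ
    rw [he, hτe, vol_ball hd _ (by positivity), ← ENNReal.ofReal_mul (by positivity),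
      ← ENNReal.ofReal_mul (by positivity), ENNReal.ofReal_le_ofReal_iff (by positivity)] at h1
    have h2 : (d * h + h + a) ^ d ≤ ((d + 2) * h) ^ d := by
      have : d * h + h + a ≤ (d + 2) * h := by nlinarith
      gcongr
    have h3 : η * W' * ((d * h + h + a) ^ d * (volume (ball (0 : V d) 1)).toReal) ≤
        η * Wu * (((d + 2) * h) ^ d * (volume (ball (0 : V d) 1)).toReal) := by gcongr
    have h4 := id3 hd (a := a) (h := h)
    have hp : 0 < h * (a / (2 * d)) ^ (d - 1) := by positivity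
    have h5 : h * (a / (2 * d)) ^ (d - 1) * e ≤ h * (a / (2 * d)) ^ (d - 1) * (k0 d * η * β) := by
      calc _ ≤ _ := h1
        _ ≤ _ := h3
        _ = η * (16 * d * h * (2 * a) ^ (d - 1) *
          (((d + 2) * h) ^ d * (volume (ball (0 : V d) 1)).toReal)) := by rw [hWu]; ring
        _ = _ := by rw [h4, hβ]; ring
    exact le_of_mul_le_mul_left h5 hp
  -- first moment
  have hfm := first_moment hd (B.meas.diff hY) hY ha (hah.trans hhd) hLh
    (fun x hx y hy => B.diam x (hYb hx) y hy.1)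
  rw [hvd, hvY] at hfm
  have I1 := id1 hd (a := a) hh
  rw [← hWu, ← hβ] at I1
  have hAnn : 0 ≤ c3 d * (a / (d * h)) ^ (d - 1) := by positivity
  have hby : 0 ≤ β - y := by linarith
  have R2 : c3 d * (a / (d * h)) ^ (d - 1) * ((β - y) * y) ≤ W' * X + η * W' * (β - y) := by
    have h1 := hfm.trans (split_le hd (B.meas.diff hY) Y L a τ)
    rw [hX, hvd, hτe, hWe, ← ENNReal.ofReal_mul (by positivity), ← ENNReal.ofReal_mul (by positivity),
      ← ENNReal.ofReal_mul (by positivity), ← ENNReal.ofReal_mul (by positivity),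
      ← ENNReal.ofReal_add (by positivity) (by positivity),
      ENNReal.ofReal_le_ofReal_iff (by positivity)] at h1
    exact h1
  have hφ0 : 0 ≤ y / β := by positivity
  have hyφ : y = y / β * β := by field_simp
  have hβyφ : β - y = (1 - y / β) * β := by field_simp
  have hφ1 : 0 ≤ 1 - y / β := by
    rw [sub_nonneg, div_le_one hβ0]
    exact hyβ
  refine ⟨X / β, by positivity, ?_, ?_, ?_⟩
  · rw [← hf', ← hy, ← hβ, ← add_div, ← add_div, div_le_iff₀ hβ0]
    have : ε * y ≤ ε * β := by gcongr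
    nlinarith
  · rw [← hy, ← hβ]
    have h1 : Wu * (k1 d * ((1 - y / β) * (y / β)) * β) ≤ Wu * ((X / β + η) * β) := by
      calc Wu * (k1 d * ((1 - y / β) * (y / β)) * β) = k1 d * Wu * (((1 - y / β) * β) * (y / β)) := by
            ring
        _ = c3 d * (a / (d * h)) ^ (d - 1) * β * (((1 - y / β) * β) * (y / β)) := by rw [I1]
        _ = c3 d * (a / (d * h)) ^ (d - 1) * (((1 - y / β) * β) * (y / β * β)) := by ring
        _ = c3 d * (a / (d * h)) ^ (d - 1) * ((β - y) * y) := by rw [← hyφ, ← hβyφ]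
        _ ≤ W' * X + η * W' * (β - y) := R2
        _ ≤ Wu * X + η * Wu * β := by
          gcongr
          linarith
        _ = _ := by field_simp
    exact le_of_mul_le_mul_right (le_of_mul_le_mul_left h1 hWu0) hβ0
  · intro ρ hρ hρd T hT
    rw [← hy, ← hβ] at hρd ⊢
    obtain ⟨t, ht⟩ : ∃ t, t = T / Wu := ⟨_, rfl⟩
    have ht0 : 0 ≤ t := by rw [ht]; positivity
    have htW : t * Wu = T := by rw [ht]; field_simp
    have hYr : volume Y ≤ ENNReal.ofReal ((ρ * h) ^ d) := by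
      rw [hvY]
      refine ENNReal.ofReal_le_ofReal ?_
      rw [mul_pow, ← hβ]
      rwa [div_le_iff₀ hβ0] at hρd
    have hsb := second_block hd B.meas (L := L) (by positivity : (0 : ℝ) ≤ d * h) ha.le
      (by positivity : 0 < ρ * h) B.diam hYr
    have hsb2 : ∫⁻ p in Prod.fst ⁻¹' (b \ Y), tub L a Y p ^ 2 ∂(mu d) ≤ _ :=
      (lintegral_mono_set (preimage_mono sdiff_subset)).trans hsb
    have I2 := id2 hd (a := a) (ρ := ρ) hh
    rw [← hWu] at I2
    rw [I2, hvY, ← ENNReal.ofReal_mul (by positivity)] at hsb2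
    have h1 := split2_le (B.meas.diff hY) Y L a τ (ENNReal.ofReal t)
    have h2 := (mul_le_mul' (le_refl (2 * ENNReal.ofReal t)) hfm).trans (h1.trans
      (add_le_add (add_le_add (mul_le_mul' le_rfl hsb2) le_rfl) le_rfl))
    have e2 : (2 : ENNReal) = ENNReal.ofReal 2 := by simp
    rw [hX, hvd, hτe, e2, ← ENNReal.ofReal_mul (by positivity), ← ENNReal.ofReal_mul (by positivity),
      ← ENNReal.ofReal_mul (by positivity), ← ENNReal.ofReal_mul (by positivity),
      ← ENNReal.ofReal_pow (by positivity), ← ENNReal.ofReal_mul (by positivity),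
      ← ENNReal.ofReal_mul (by positivity), ← ENNReal.ofReal_mul (by positivity),
      ← ENNReal.ofReal_add (by positivity) (by positivity),
      ← ENNReal.ofReal_add (by positivity) (by positivity),
      ENNReal.ofReal_le_ofReal_iff (by positivity)] at h2
    have h3 : 2 * t * (η * W') * (β - y) ≤ 2 * T * η * β := by
      calc 2 * t * (η * W') * (β - y) ≤ 2 * t * (η * Wu) * β := by
            gcongr
            linarith
        _ = 2 * (t * Wu) * η * β := by ring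
        _ = _ := by rw [htW]
    have h4 : (2 * T * (k1 d * ((1 - y / β) * (y / β)))) * β ≤
        (T ^ 2 * (k2 d * ρ * (y / β)) + X / β + 2 * T * η) * β := by
      calc (2 * T * (k1 d * ((1 - y / β) * (y / β)))) * β
          = 2 * t * (k1 d * Wu * (((1 - y / β) * β) * (y / β))) := by rw [← htW]; ring
        _ = 2 * t * (c3 d * (a / (d * h)) ^ (d - 1) * β * (((1 - y / β) * β) * (y / β))) := by
            rw [I1]
        _ = 2 * t * (c3 d * (a / (d * h)) ^ (d - 1) * (((1 - y / β) * β) * (y / β * β))) := by ring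
        _ = 2 * t * (c3 d * (a / (d * h)) ^ (d - 1) * ((β - y) * y)) := by rw [← hyφ, ← hβyφ]
        _ ≤ t ^ 2 * (k2 d * ρ * Wu ^ 2 * y) + X + 2 * t * (η * W') * (β - y) := h2
        _ ≤ t ^ 2 * (k2 d * ρ * Wu ^ 2 * y) + X + 2 * T * η * β := by gcongr
        _ = (t * Wu) ^ 2 * (k2 d * ρ * y) + X + 2 * T * η * β := by ring
        _ = T ^ 2 * (k2 d * ρ * y) + X + 2 * T * η * β := by rw [htW]
        _ = _ := by field_simp
    exact le_of_mul_le_mul_right h4 hβ0

end Pool.Agent.Needle
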