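import Pool.Agent.Lib.MP_09cbbd_ndg.Def
import Pool.Agent.Lib.MP_09cbbd_ndg.GCore

/-!
# Cells and blocks in Euclidean space
-/

set_option autoImplicit false

namespace Pool.Agent.Needle

open MeasureTheory Metric Set Pool.Agent.NeedleGas

variable {d : ℕ}

/-- The cell `v` of side `l` in Euclidean space. -/
def Cl (l : ℝ) (v : Fin d → ℤ) : Set (V d) :=
  {y | ∀ k, (v k : ℝ) * l ≤ y k ∧ y k < ((v k : ℝ) + 1) * l}

theorem Cl_eq (l : ℝ) (v : Fin d → ℤ) :
    Cl l v = {y : V d | ∀ k, y k ∈ (fun k => Ico ((v k : ℝ) * l) (((v k : ℝ) + 1) * l)) k} := rfl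

theorem meas_Cl (l : ℝ) (v : Fin d → ℤ) : MeasurableSet (Cl l v) := by
  have h : Cl l v = ⋂ k, {y : V d | (v k : ℝ) * l ≤ y k ∧ y k < ((v k : ℝ) + 1) * l} := by
    ext y
    simp [Cl]
  rw [h]
  refine MeasurableSet.iInter fun k => ?_
  have h1 : Continuous fun y : V d => y k := by fun_prop
  exact (measurableSet_le measurable_const h1.measurable).inter
    (measurableSet_lt h1.measurable measurable_const)

theorem vol_Cl {l : ℝ} (hl : 0 ≤ l) (v : Fin d → ℤ) :
    volume (Cl l v) = ENNReal.ofReal (l ^ d) := by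
  rw [Cl_eq, vol_pi _ (fun k => measurableSet_Ico)]
  have h : ∀ k : Fin d, volume (Ico ((v k : ℝ) * l) (((v k : ℝ) + 1) * l)) = ENNReal.ofReal l := by
    intro k
    rw [Real.volume_Ico]
    congr 1
    ring
  simp only [h]
  rw [Finset.prod_const, Finset.card_univ, Fintype.card_fin, ENNReal.ofReal_pow hl]

theorem norm_le_of {z : V d} {r : ℝ} (hr : 0 ≤ r) (h : ∀ k, |z k| ≤ r) : ‖z‖ ≤ d * r := by
  rw [EuclideanSpace.norm_eq]
  rw [Real.sqrt_le_left (by positivity)]
  calc ∑ k, ‖z k‖ ^ 2 ≤ ∑ _k : Fin d, r ^ 2 := by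
        refine Finset.sum_le_sum fun k _ => ?_
        rw [Real.norm_eq_abs]
        have := h k
        gcongr
    _ = d * r ^ 2 := by rw [Finset.sum_const, Finset.card_univ, Fintype.card_fin, nsmul_eq_mul]
    _ ≤ (d * r) ^ 2 := by
        rw [mul_pow]
        rcases Nat.eq_zero_or_pos d with h0 | h0
        · subst h0
          simp
        · have : (1 : ℝ) ≤ d := by exact_mod_cast h0
          have h3 : (d : ℝ) ≤ d ^ 2 := by nlinarith
          exact mul_le_mul_of_nonneg_right h3 (by positivity)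

theorem diam_Cl {l : ℝ} (hl : 0 ≤ l) (v : Fin d → ℤ) (x : V d) (hx : x ∈ Cl l v) (y : V d)
    (hy : y ∈ Cl l v) : ‖x - y‖ ≤ d * l := by
  refine norm_le_of hl fun k => ?_
  rw [PiLp.sub_apply, abs_le]
  have h1 := hx k
  have h2 := hy k
  constructor <;> nlinarith

theorem disj_Cl {l : ℝ} (hl : 0 < l) {v v' : Fin d → ℤ} (h : v ≠ v') :
    Disjoint (Cl l v) (Cl l v') := by
  rw [Set.disjoint_left]
  intro y hy hy'
  apply h
  funext k
  have h1 := hy k
  have h2 := hy' k
  have h3 : (v k : ℝ) < v' k + 1 := lt_of_mul_lt_mul_right (lt_of_le_of_lt h1.1 h2.2) hl.le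
  have h4 : (v' k : ℝ) < v k + 1 := lt_of_mul_lt_mul_right (lt_of_le_of_lt h2.1 h1.2) hl.le
  have h5 : v k < v' k + 1 := by exact_mod_cast h3
  have h6 : v' k < v k + 1 := by exact_mod_cast h4
  omega

theorem Bk_Cl {h : ℝ} (hh : 0 ≤ h) (b : Fin d → ℤ) : Bk d h (Cl h b) :=
  ⟨meas_Cl h b, vol_Cl hh b, diam_Cl hh b⟩

/-- A cell of a block is contained in the block. -/
theorem Cl_sub {K : ℕ} {l : ℝ} (hl : 0 ≤ l) {b v : Fin d → ℤ} (hv : v ∈ cells K b) :
    Cl l v ⊆ Cl (K * l) b := by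
  intro y hy k
  have h1 := hy k
  have h2 := Finset.mem_Ico.1 (Fintype.mem_piFinset.1 hv k)
  have h3 : (b k : ℝ) * K ≤ v k := by exact_mod_cast h2.1
  have h4 : (v k : ℝ) + 1 ≤ (b k + 1) * K := by exact_mod_cast h2.2
  constructor
  · calc (b k : ℝ) * (K * l) = (b k * K) * l := by ring
      _ ≤ v k * l := by gcongr
      _ ≤ _ := h1.1
  · calc y k < (v k + 1) * l := h1.2
      _ ≤ ((b k + 1) * K) * l := by gcongr
      _ = _ := by ring

theorem card_cells (K : ℕ) (b : Fin d → ℤ) : (cells K b).card = K ^ d := by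
  unfold cells
  rw [Fintype.card_piFinset]
  have : ∀ k : Fin d, (Finset.Ico (b k * (K : ℤ)) ((b k + 1) * K)).card = K := by
    intro k
    rw [Int.card_Ico]
    have : (b k + 1) * (K : ℤ) - b k * K = K := by ring
    rw [this]
    simp
  simp [this]

/-- The point of Euclidean space. -/
def emb (x : Fin d → ℝ) : V d := WithLp.toLp 2 x

@[simp] theorem emb_apply (x : Fin d → ℝ) (k : Fin d) : emb x k = x k := rfl

theorem emb_mem {l : ℝ} {v : Fin d → ℤ} {x : Fin d → ℝ} (h : x ∈ cell l v) : emb x ∈ Cl l v := h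

/-- The cells with a point of `S` in a finite set of cells form a family of cells with points. -/
theorem exists_family {l s : ℝ} (hl : 0 < l) (hs : d * l ≤ s) (S : Set (Fin d → ℝ))
    (A : Finset (Fin d → ℤ)) (hA : ∀ v ∈ A, ∃ x ∈ S, x ∈ cell l v) :
    ∃ q : A → V d, (∀ v, ∃ x ∈ S, q v = emb x) ∧
      Cells d s (ENNReal.ofReal (l ^ d)) A (fun v => Cl l v.1) q := by
  choose x hx hx' using fun v : A => hA v.1 v.2
  refine ⟨fun v => emb (x v), fun v => ⟨x v, hx v, rfl⟩, ?_⟩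
  refine ⟨fun v => meas_Cl l v.1, ?_, fun v => vol_Cl hl.le v.1, fun v => emb_mem (hx' v), ?_⟩
  · intro v v' h
    exact disj_Cl hl fun h2 => h (Subtype.ext h2)
  · intro v x hx y hy
    exact (diam_Cl hl.le v.1 x hx y hy).trans hs

theorem vol_family {l : ℝ} (hl : 0 < l) (A : Finset (Fin d → ℤ)) :
    volume (⋃ v : A, Cl l v.1) = ENNReal.ofReal (A.card * l ^ d) := by
  rw [measure_iUnion (fun v v' h => disj_Cl hl fun h2 => h (Subtype.ext h2))
    (fun v => meas_Cl l v.1), tsum_fintype]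
  simp only [vol_Cl hl.le]
  rw [Finset.sum_const, Finset.card_univ, Fintype.card_coe, nsmul_eq_mul,
    ENNReal.ofReal_mul (by positivity), ENNReal.ofReal_natCast]

end Pool.Agent.Needle
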