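import Mathlib

/-!
# Needles: uniform directions, cylinders, free needles
-/

set_option autoImplicit false

namespace Pool.Agent.Needle

open MeasureTheory Metric Set

/-- Euclidean space. -/
abbrev V (d : ℕ) := EuclideanSpace ℝ (Fin d)

/-- The uniform distribution of a direction `g / |g|`, `g` uniform in the unit ball. -/
noncomputable def sg (d : ℕ) : Measure (V d) :=
  (volume (ball (0 : V d) 1))⁻¹ •
    ((volume : Measure (V d)).restrict (ball 0 1)).map fun g => ‖g‖⁻¹ • g

/-- Centres and directions. -/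
noncomputable def mu (d : ℕ) : Measure (V d × V d) := (volume : Measure (V d)).prod (sg d)

/-- The cylinder of length `L` and radius `a` around the direction `θ`. -/
def Cy {d : ℕ} (L a : ℝ) (θ : V d) : Set (V d) :=
  {u | |inner ℝ u θ| ≤ L / 2 ∧ ‖u - (inner ℝ u θ : ℝ) • θ‖ < a}

/-- The needles (centre, direction) of length `L` at distance at least `a` from all points of
`ω`. -/
def free {d : ℕ} (L a : ℝ) (ω : Set (V d)) : Set (V d × V d) :=
  {p | ∀ x ∈ ω, ∀ s : ℝ, |s| ≤ L / 2 → a ≤ ‖x - (p.1 + s • p.2)‖}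

/-- Volume of the cylinder. -/
noncomputable def W (d : ℕ) (L a : ℝ) : ENNReal :=
  ∫⁻ θ, volume (Cy L a θ) ∂(sg d)

/-- The pair function. -/
noncomputable def K {d : ℕ} (L a : ℝ) (z : V d) : ENNReal :=
  mu d {p | -p.1 ∈ Cy L a p.2 ∧ z - p.1 ∈ Cy L a p.2}

/-- Volume of the part of `Y` in the cylinder with centre `y` and direction `θ`. -/
noncomputable def tub {d : ℕ} (L a : ℝ) (Y : Set (V d)) (p : V d × V d) : ENNReal :=
  volume (Y ∩ {x | x - p.1 ∈ Cy L a p.2})

end Pool.Agent.Needle
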