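import Pool.Agent.Lib.MP_09cbbd_ndg.GVol

/-!
# The pair function
-/

set_option autoImplicit false

namespace Pool.Agent.Needle

open MeasureTheory Metric Set

variable {d : ℕ}

/-- Pairs (centre, direction) such that `q` is in the cylinder. -/
def At (L a : ℝ) (q : V d) : Set (V d × V d) := {p | q - p.1 ∈ Cy L a p.2}

theorem measurableSet_At (L a : ℝ) (q : V d) : MeasurableSet (At L a q) := by
  have h : Measurable fun p : V d × V d => (q - p.1, p.2) := by fun_prop
  exact h (measurableSet_Cy2 L a)

theorem measurableSet_At2 (L a : ℝ) :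
    MeasurableSet {r : V d × (V d × V d) | r.1 - r.2.1 ∈ Cy L a r.2.2} := by
  have h : Measurable fun r : V d × (V d × V d) => (r.1 - r.2.1, r.2.2) := by fun_prop
  exact h (measurableSet_Cy2 L a)

theorem mu_apply {S : Set (V d × V d)} (hS : MeasurableSet S) :
    mu d S = ∫⁻ θ, volume {y | (y, θ) ∈ S} ∂(sg d) := by
  unfold mu
  rw [Measure.prod_apply_symm hS]
  rfl

theorem mp_shift (v : V d) :
    MeasurePreserving (fun p : V d × V d => (p.1 + v, p.2)) (mu d) (mu d) := by
  unfold mu
  exact (measurePreserving_add_right volume v).prod (MeasurePreserving.id (sg d))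

theorem mu_shift (v : V d) {S : Set (V d × V d)} (hS : MeasurableSet S) :
    mu d {p | (p.1 + v, p.2) ∈ S} = mu d S :=
  (mp_shift v).measure_preimage hS.nullMeasurableSet

theorem K_eq (L a : ℝ) (z : V d) : K L a z = mu d (At L a 0 ∩ At L a z) := by
  unfold K At
  congr 1
  ext p
  simp

theorem K_pair (L a : ℝ) (q q' : V d) : mu d (At L a q ∩ At L a q') = K L a (q' - q) := by
  rw [K_eq]
  rw [← mu_shift (-q) ((measurableSet_At L a 0).inter (measurableSet_At L a (q' - q)))]
  congr 1
  ext p
  unfold At
  simp only [mem_inter_iff, mem_ofPred_eq]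
  have h1 : (0 : V d) - (p.1 + -q) = q - p.1 := by abel
  have h2 : q' - q - (p.1 + -q) = q' - p.1 := by abel
  rw [h1, h2]

theorem vol_At (L a : ℝ) (q θ : V d) : volume {y | (y, θ) ∈ At L a q} = volume (Cy L a θ) := by
  have h : {y | (y, θ) ∈ At L a q} = (fun y => q - y) ⁻¹' (Cy L a θ) := by
    ext y
    rfl
  rw [h]
  exact (Measure.measurePreserving_sub_left (volume : Measure (V d)) q).measure_preimage
    (measurableSet_Cy L a θ).nullMeasurableSet

theorem mu_At (L a : ℝ) (q : V d) : mu d (At L a q) = W d L a := by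
  rw [mu_apply (measurableSet_At L a q)]
  unfold W
  simp only [vol_At]

theorem K_zero (L a : ℝ) : K L a (0 : V d) = W d L a := by
  rw [K_eq, inter_self, mu_At]

theorem K_le (L a : ℝ) (z : V d) : K L a z ≤ W d L a := by
  rw [K_eq, ← mu_At L a z]
  exact measure_mono inter_subset_right

theorem measurable_K (L a : ℝ) : Measurable (K L a : V d → ENNReal) := by
  have h : MeasurableSet {r : V d × (V d × V d) | r.2 ∈ At L a 0 ∧ r.1 - r.2.1 ∈ Cy L a r.2.2} :=
    (measurable_snd (measurableSet_At L a 0)).inter (measurableSet_At2 L a)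
  have h2 := measurable_measure_prodMk_left (ν := mu d) h
  convert h2 using 2
  rw [K_eq]
  rfl

theorem lintegral_K (hd : 1 ≤ d) (L a : ℝ) : ∫⁻ z : V d, K L a z = W d L a * W d L a := by
  have hB := measurableSet_At2 (d := d) L a
  have h1 : ∀ z : V d, K L a z = ∫⁻ p, (At L a 0).indicator (fun _ => (1 : ENNReal)) p *
      {r : V d × (V d × V d) | r.1 - r.2.1 ∈ Cy L a r.2.2}.indicator (fun _ => (1 : ENNReal))
        (z, p) ∂(mu d) := by
    intro z
    rw [K_eq, ← lintegral_indicator_one ((measurableSet_At L a 0).inter (measurableSet_At L a z))]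
    refine lintegral_congr fun p => ?_
    by_cases g1 : p ∈ At L a 0
    · by_cases g2 : p ∈ At L a z
      · rw [indicator_of_mem (mem_inter g1 g2), indicator_of_mem g1, indicator_of_mem (by exact g2)]
        simp
      · rw [indicator_of_notMem (fun h => g2 h.2), indicator_of_notMem (s := {r : V d × (V d × V d) |
          r.1 - r.2.1 ∈ Cy L a r.2.2}) (by exact g2), mul_zero]
    · rw [indicator_of_notMem (fun h => g1 h.1), indicator_of_notMem g1, zero_mul]
  simp only [h1]
  rw [lintegral_lintegral_swap]
  swap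
  · refine Measurable.aemeasurable ?_
    refine Measurable.mul ?_ ?_
    · exact (measurable_const.indicator (measurableSet_At L a 0)).comp measurable_snd
    · exact measurable_const.indicator hB
  have h2 : ∀ᵐ p ∂(mu d), ∫⁻ z : V d, (At L a 0).indicator (fun _ => (1 : ENNReal)) p *
      {r : V d × (V d × V d) | r.1 - r.2.1 ∈ Cy L a r.2.2}.indicator (fun _ => (1 : ENNReal))
        (z, p) = (At L a 0).indicator (fun _ => W d L a) p := by
    have h3 : ∀ᵐ p ∂(mu d), ‖p.2‖ = 1 := by
      unfold mu
      exact Measure.quasiMeasurePreserving_snd.ae (ae_norm hd)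
    filter_upwards [h3] with p hp
    have hm : Measurable fun z : V d => {r : V d × (V d × V d) |
        r.1 - r.2.1 ∈ Cy L a r.2.2}.indicator (fun _ => (1 : ENNReal)) (z, p) :=
      (measurable_const.indicator hB).comp measurable_prodMk_right
    rw [lintegral_const_mul _ hm]
    have h4 : ∫⁻ z : V d, {r : V d × (V d × V d) | r.1 - r.2.1 ∈ Cy L a r.2.2}.indicator
        (fun _ => (1 : ENNReal)) (z, p) = W d L a := by
      rw [← volume_Cy_W hd hp]
      have h5 : MeasurableSet {z : V d | z - p.1 ∈ Cy L a p.2} :=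
        (measurable_id.sub_const p.1) (measurableSet_Cy L a p.2)
      have h6 : volume {z : V d | z - p.1 ∈ Cy L a p.2} = volume (Cy L a p.2) :=
        (measurePreserving_sub_right volume p.1).measure_preimage
          (measurableSet_Cy L a p.2).nullMeasurableSet
      rw [← h6, ← lintegral_indicator_one h5]
      rfl
    rw [h4]
    by_cases g : p ∈ At L a 0
    · rw [indicator_of_mem g, indicator_of_mem g, one_mul]
    · rw [indicator_of_notMem g, indicator_of_notMem g, zero_mul]
  rw [lintegral_congr_ae h2, lintegral_indicator_const (measurableSet_At L a 0), mu_At]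

theorem K_iso (L a : ℝ) (R : V d ≃ₗᵢ[ℝ] V d) (z : V d) : K L a (R z) = K L a z := by
  have hm : ∀ w : V d, MeasurableSet (At L a 0 ∩ At L a w) := fun w =>
    (measurableSet_At L a 0).inter (measurableSet_At L a w)
  rw [K_eq, K_eq, mu_apply (hm _), mu_apply (hm _)]
  rw [← lintegral_sg_map R (f := fun θ => volume {y | (y, θ) ∈ At L a 0 ∩ At L a (R z)})
    (measurable_measure_prodMk_right (μ := volume) (hm _))]
  refine lintegral_congr fun θ => ?_
  have hS : MeasurableSet {y | (y, R θ) ∈ At L a 0 ∩ At L a (R z)} :=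
    measurable_prodMk_right (hm (R z))
  rw [← R.measurePreserving.measure_preimage hS.nullMeasurableSet]
  congr 1
  ext y
  unfold At
  simp only [mem_preimage, mem_inter_iff, mem_ofPred_eq, zero_sub]
  rw [← map_neg, ← map_sub, map_mem_Cy, map_mem_Cy]

theorem K_scale (L a : ℝ) (z : V d) {t : ℝ} (h0 : 0 ≤ t) (h1 : t ≤ 1) :
    K L a z ≤ K L a (t • z) := by
  rw [K_eq, K_eq]
  rw [← mu_shift (-(((1 - t) / 2) • z))
    ((measurableSet_At L a 0).inter (measurableSet_At L a (t • z)))]
  refine measure_mono ?_
  rintro p ⟨h2, h3⟩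
  unfold At at *
  simp only [mem_inter_iff, mem_ofPred_eq, zero_sub] at *
  have c := convex_Cy L a p.2
  constructor
  · have := c h2 h3 (a := (1 + t) / 2) (b := (1 - t) / 2) (by linarith) (by linarith) (by ring)
    convert this using 1
    module
  · have := c h2 h3 (a := (1 - t) / 2) (b := (1 + t) / 2) (by linarith) (by linarith) (by ring)
    convert this using 1
    module

theorem K_anti (L a : ℝ) {z z' : V d} (h : ‖z'‖ ≤ ‖z‖) : K L a z ≤ K L a z' := by
  rcases eq_or_ne z 0 with hz | hz
  · subst hz
    rw [norm_zero, norm_le_zero_iff] at h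
    rw [h]
  · have hz' : 0 < ‖z‖ := norm_pos_iff.2 hz
    have h1 : ‖(‖z'‖ / ‖z‖) • z‖ = ‖z'‖ := by
      rw [norm_smul, norm_div, norm_norm, norm_norm]
      field_simp
    obtain ⟨R, hR⟩ := exists_iso h1
    rw [← hR, K_iso]
    exact K_scale L a z (by positivity) ((div_le_one hz').2 h)

end Pool.Agent.Needle
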