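import Pool.Agent.Lib.MP_09cbbd_ndg.GLem

/-!
# The blocking lemma: final form
-/

set_option autoImplicit false

namespace Pool.Agent.Needle

open MeasureTheory Metric Set Filter Topology

variable {d : ℕ}

theorem lint_shift (hd : 1 ≤ d) (L a c : ℝ) (q : V d) :
    ∫⁻ x : V d, kr hd L a (‖x - q‖ + c) = ∫⁻ x : V d, kr hd L a (‖x‖ + c) :=
  lintegral_sub_right_eq_self (fun x : V d => kr hd L a (‖x‖ + c)) q

theorem W_ne_top (hd : 1 ≤ d) {L a : ℝ} (hL : 0 ≤ L) (ha : 0 ≤ a) : W d L a ≠ ⊤ :=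
  ne_top_of_le_ne_top ENNReal.ofReal_ne_top (W_le hd hL ha)

theorem lint_km_ne_top (hd : 1 ≤ d) {L a c : ℝ} (hL : 0 ≤ L) (ha : 0 ≤ a) (hc : 0 ≤ c) :
    ∫⁻ x : V d, kr hd L a (‖x‖ + c) ≠ ⊤ := by
  have h1 : ∫⁻ x : V d, kr hd L a (‖x‖ + c) ≤ ∫⁻ x : V d, K L a x := by
    refine lintegral_mono fun x => ?_
    rw [← kr_norm hd]
    exact kr_anti hd L a (by linarith)
  rw [lintegral_K hd] at h1
  exact ne_top_of_le_ne_top (ENNReal.mul_ne_top (W_ne_top hd hL ha) (W_ne_top hd hL ha)) h1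

variable {s : ℝ} {w : ENNReal} {ι : Type} [Fintype ι] {Q : ι → Set (V d)} {q : ι → V d}

theorem Cells.third (hd : 1 ≤ d) (C : Cells d s w ι Q q) (hw : w ≠ ⊤) (hs : 0 ≤ s) {L a : ℝ}
    (hL : 0 ≤ L) (ha : 0 ≤ a) (η : ENNReal) :
    η ^ 2 * mu d {p | η ≤ tub L a (⋃ i, Q i) p ∧ ∀ i, p ∉ At L a (q i)} +
      2 * (volume (⋃ i, Q i) * ∫⁻ x : V d, kr hd L a (‖x‖ + 2 * s)) ≤
    2 * (volume (⋃ i, Q i) * ∫⁻ x : V d, kr hd L a (‖x‖ - 2 * s)) := by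
  have h0 := C.second hd hs L a η
  obtain ⟨m, hm⟩ : ∃ m, m = η ^ 2 * mu d {p | η ≤ tub L a (⋃ i, Q i) p ∧
    ∀ i, p ∉ At L a (q i)} := ⟨_, rfl⟩
  obtain ⟨Y, hY⟩ : ∃ Y, Y = ⋃ i, Q i := ⟨_, rfl⟩
  have hYm : MeasurableSet Y := by rw [hY]; exact C.meas_union
  rw [← hm] at h0 ⊢
  rw [C.vol_union]
  rw [← hY] at h0
  obtain ⟨bm, hbm⟩ : ∃ b, b = ∫⁻ x : V d, kr hd L a (‖x‖ + 2 * s) := ⟨_, rfl⟩
  obtain ⟨bp, hbp⟩ : ∃ b, b = ∫⁻ x : V d, kr hd L a (‖x‖ - 2 * s) := ⟨_, rfl⟩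
  rw [← hbm, ← hbp]
  have h1 : ∀ i, (∫⁻ x in Y, kr hd L a (‖x - q i‖ - 2 * s)) + bm ≤
      (∫⁻ x in Y, kr hd L a (‖x - q i‖ + 2 * s)) + bp := by
    intro i
    have e1 : bm = ∫⁻ x : V d, kr hd L a (‖x - q i‖ + 2 * s) := by rw [hbm, lint_shift]
    have e2 : bp = ∫⁻ x : V d, kr hd L a (‖x - q i‖ - 2 * s) := by
      rw [hbp]
      have := lint_shift hd L a (-(2 * s)) (q i)
      simp only [← sub_eq_add_neg] at this
      exact this.symm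
    have e4 : bm = (∫⁻ x in Y, kr hd L a (‖x - q i‖ + 2 * s)) +
        ∫⁻ x in Yᶜ, kr hd L a (‖x - q i‖ + 2 * s) := by
      rw [e1, lintegral_add_compl _ hYm]
    have e5 : bp = (∫⁻ x in Y, kr hd L a (‖x - q i‖ - 2 * s)) +
        ∫⁻ x in Yᶜ, kr hd L a (‖x - q i‖ - 2 * s) := by
      rw [e2, lintegral_add_compl _ hYm]
    rw [e4, e5]
    have e3 : ∫⁻ x in Yᶜ, kr hd L a (‖x - q i‖ + 2 * s) ≤
        ∫⁻ x in Yᶜ, kr hd L a (‖x - q i‖ - 2 * s) :=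
      lintegral_mono fun x => kr_anti hd L a (by linarith)
    rw [← add_assoc, ← add_assoc, add_comm (∫⁻ x in Y, kr hd L a (‖x - q i‖ + 2 * s))
      (∫⁻ x in Y, kr hd L a (‖x - q i‖ - 2 * s))]
    exact add_le_add le_rfl e3
  have h2 : (∑ i, w * ∫⁻ x in Y, kr hd L a (‖x - q i‖ - 2 * s)) + Fintype.card ι * w * bm ≤
      (∑ i, w * ∫⁻ x in Y, kr hd L a (‖x - q i‖ + 2 * s)) + Fintype.card ι * w * bp := by
    have e : ∀ b : ENNReal, (Fintype.card ι : ENNReal) * w * b = ∑ _i : ι, w * b := fun b => by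
      rw [Finset.sum_const, Finset.card_univ, nsmul_eq_mul, mul_assoc]
    rw [e, e, ← Finset.sum_add_distrib, ← Finset.sum_add_distrib]
    refine Finset.sum_le_sum fun i _ => ?_
    rw [← mul_add, ← mul_add]
    exact mul_le_mul' le_rfl (h1 i)
  obtain ⟨A, hA⟩ : ∃ A, A = ∑ i, w * ∫⁻ x in Y, kr hd L a (‖x - q i‖ + 2 * s) := ⟨_, rfl⟩
  obtain ⟨B, hB⟩ : ∃ B, B = ∑ i, w * ∫⁻ x in Y, kr hd L a (‖x - q i‖ - 2 * s) := ⟨_, rfl⟩
  rw [← hA, ← hB] at h2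
  rw [← hA, ← hB] at h0
  have hAt : 2 * A ≠ ⊤ := by
    refine ENNReal.mul_ne_top (by simp) ?_
    rw [hA]
    refine (ENNReal.sum_lt_top.2 fun i _ => ?_).ne
    refine ENNReal.mul_lt_top hw.lt_top ?_
    refine lt_of_le_of_lt (setLIntegral_le_lintegral Y _) ?_
    rw [lint_shift]
    exact (lint_km_ne_top hd hL ha (by linarith)).lt_top
  refine (ENNReal.add_le_add_iff_left hAt).1 ?_
  calc 2 * A + (m + 2 * (Fintype.card ι * w * bm)) = (2 * A + m) + 2 * (Fintype.card ι * w * bm) := by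
        rw [add_assoc]
    _ ≤ 2 * B + 2 * (Fintype.card ι * w * bm) := add_le_add h0 le_rfl
    _ = 2 * (B + Fintype.card ι * w * bm) := (mul_add _ _ _).symm
    _ ≤ 2 * (A + Fintype.card ι * w * bp) := mul_le_mul' le_rfl h2
    _ = _ := mul_add _ _ _

theorem Cells.fourth (hd : 1 ≤ d) (C : Cells d s w ι Q q) (hw : w ≠ ⊤) (hs : 0 ≤ s) {L a : ℝ}
    (hL : 0 ≤ L) (ha : 0 ≤ a) (η : ENNReal) {R : ℝ} (hR : 2 * s < R) :
    η ^ 2 * mu d {p | η ≤ tub L a (⋃ i, Q i) p ∧ ∀ i, p ∉ At L a (q i)} ≤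
      ENNReal.ofReal (2 * (volume (⋃ i, Q i)).toReal *
        (2 * (volume (ball (0 : V d) R)).toReal * (W d L a).toReal +
        (((1 - 2 * s / R) ^ d)⁻¹ - ((1 + 2 * s / R) ^ d)⁻¹) * (W d L a).toReal ^ 2)) := by
  have h0 := C.third hd hw hs hL ha η
  have hR0 : 0 < R := by linarith
  have hp := lintegral_kp hd L a (c := 2 * s) (by linarith) hR
  have hm := lintegral_km hd L a (c := 2 * s) (by linarith) hR0
  have hWt := W_ne_top (d := d) hd hL ha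
  have hYt : volume (⋃ i, Q i) ≠ ⊤ := by
    rw [C.vol_union]
    exact ENNReal.mul_ne_top (by simp) hw
  have hBt : volume (ball (0 : V d) R) ≠ ⊤ := measure_ball_lt_top.ne
  have hmt := lint_km_ne_top (d := d) hd (c := 2 * s) hL ha (by linarith)
  have h1 : 0 < 1 - 2 * s / R := by
    rw [sub_pos, div_lt_one hR0]
    exact hR
  have h2 : 0 < 1 + 2 * s / R := by positivity
  obtain ⟨X, hX⟩ : ∃ X, X = η ^ 2 * mu d {p | η ≤ tub L a (⋃ i, Q i) p ∧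
    ∀ i, p ∉ At L a (q i)} := ⟨_, rfl⟩
  rw [← hX] at h0 ⊢
  obtain ⟨v, hv⟩ : ∃ v, v = volume (⋃ i, Q i) := ⟨_, rfl⟩
  obtain ⟨β, hβ⟩ : ∃ v, v = volume (ball (0 : V d) R) := ⟨_, rfl⟩
  obtain ⟨bm, hbm⟩ : ∃ b, b = ∫⁻ x : V d, kr hd L a (‖x‖ + 2 * s) := ⟨_, rfl⟩
  obtain ⟨bp, hbp⟩ : ∃ b, b = ∫⁻ x : V d, kr hd L a (‖x‖ - 2 * s) := ⟨_, rfl⟩
  obtain ⟨W', hW'⟩ : ∃ b, b = W d L a := ⟨_, rfl⟩
  rw [← hv, ← hbm, ← hbp] at h0
  rw [← hbp, ← hβ, ← hW'] at hp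
  rw [← hbm, ← hβ, ← hW'] at hm
  rw [← hv, ← hβ, ← hW']
  rw [← hv] at hYt
  rw [← hβ] at hBt
  rw [← hbm] at hmt
  rw [← hW'] at hWt
  have hpt : bp ≠ ⊤ := ne_top_of_le_ne_top (ENNReal.add_ne_top.2 ⟨ENNReal.mul_ne_top hBt hWt,
    ENNReal.mul_ne_top ENNReal.ofReal_ne_top (ENNReal.mul_ne_top hWt hWt)⟩) hp
  have hXt : X ≠ ⊤ := by
    refine ne_top_of_le_ne_top (ENNReal.mul_ne_top (by simp) (ENNReal.mul_ne_top hYt hpt))
      (le_trans ?_ h0)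
    exact le_self_add
  rw [← ENNReal.ofReal_toReal hXt]
  refine ENNReal.ofReal_le_ofReal ?_
  lift v to NNReal using hYt
  lift β to NNReal using hBt
  lift bm to NNReal using hmt
  lift bp to NNReal using hpt
  lift W' to NNReal using hWt
  lift X to NNReal using hXt
  have e0 : (X : ℝ) + 2 * (v * bm) ≤ 2 * (v * bp) := by exact_mod_cast h0
  have e1 : (bp : ℝ) ≤ β * W' + ((1 - 2 * s / R) ^ d)⁻¹ * (W' * W') := by
    have h3 : ENNReal.ofReal (((1 - 2 * s / R) ^ d)⁻¹) =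
        ((((1 - 2 * s / R) ^ d)⁻¹).toNNReal : ENNReal) := rfl
    rw [h3] at hp
    have h4 : bp ≤ β * W' + (((1 - 2 * s / R) ^ d)⁻¹).toNNReal * (W' * W') := by
      exact_mod_cast hp
    have h5 : (bp : ℝ) ≤ β * W' + ((((1 - 2 * s / R) ^ d)⁻¹).toNNReal : ℝ) * (W' * W') := by
      exact_mod_cast h4
    rwa [Real.coe_toNNReal _ (by positivity)] at h5
  have e2 : ((1 + 2 * s / R) ^ d)⁻¹ * (W' * W' : ℝ) ≤ β * W' + bm := by
    have h3 : ENNReal.ofReal (((1 + 2 * s / R) ^ d)⁻¹) =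
        ((((1 + 2 * s / R) ^ d)⁻¹).toNNReal : ENNReal) := rfl
    rw [h3] at hm
    have h4 : (((1 + 2 * s / R) ^ d)⁻¹).toNNReal * (W' * W') ≤ β * W' + bm := by
      exact_mod_cast hm
    have h5 : ((((1 + 2 * s / R) ^ d)⁻¹).toNNReal : ℝ) * (W' * W') ≤ β * W' + bm := by
      exact_mod_cast h4
    rwa [Real.coe_toNNReal _ (by positivity)] at h5
  simp only [ENNReal.coe_toReal]
  have e3 : (v : ℝ) * bp ≤ v * (β * W' + ((1 - 2 * s / R) ^ d)⁻¹ * (W' * W')) :=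
    mul_le_mul_of_nonneg_left e1 v.coe_nonneg
  have e4 : (v : ℝ) * (((1 + 2 * s / R) ^ d)⁻¹ * (W' * W' : ℝ)) ≤ v * (β * W' + bm) :=
    mul_le_mul_of_nonneg_left e2 v.coe_nonneg
  nlinarith

theorem tendsto_dev (d : ℕ) (s : ℝ) : Tendsto (fun R : ℝ =>
    ((1 - 2 * s / R) ^ d)⁻¹ - ((1 + 2 * s / R) ^ d)⁻¹) atTop (𝓝 0) := by
  have h0 : Tendsto (fun R : ℝ => 2 * s / R) atTop (𝓝 0) := tendsto_const_nhds.div_atTop tendsto_id
  have h1 : Tendsto (fun R : ℝ => ((1 - 2 * s / R) ^ d)⁻¹) atTop (𝓝 1) := by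
    have := ((h0.const_sub 1).pow d).inv₀ (by simp)
    simpa using this
  have h2 : Tendsto (fun R : ℝ => ((1 + 2 * s / R) ^ d)⁻¹) atTop (𝓝 1) := by
    have := ((h0.const_add 1).pow d).inv₀ (by simp)
    simpa using this
  have := h1.sub h2
  simpa using this

/-- BLOCKING LEMMA. Cells of diameter at most `s`, one point in each cell: if the needle is long,
the needles whose cylinder meets the cells in at least the fraction `η` of its volume but contains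
none of the points are rare. -/
theorem blocking (hd : 1 ≤ d) {a s η ε : ℝ} (ha : 0 < a) (hs : 0 ≤ s) (hη : 0 < η) (hε : 0 < ε) :
    ∃ L0 : ℝ, 0 < L0 ∧ ∀ L : ℝ, L0 ≤ L → ∀ (w : ENNReal) (ι : Type) (_ : Fintype ι)
      (Q : ι → Set (V d)) (q : ι → V d), Cells d s w ι Q q → w ≠ ⊤ →
      mu d {p | ENNReal.ofReal η * W d L a ≤ tub L a (⋃ i, Q i) p ∧ ∀ i, p ∉ At L a (q i)} ≤
        ENNReal.ofReal ε * volume (⋃ i, Q i) := by
  have hev : ∀ᶠ R : ℝ in atTop, ((1 - 2 * s / R) ^ d)⁻¹ - ((1 + 2 * s / R) ^ d)⁻¹ < ε * η ^ 2 / 4 :=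
    (tendsto_dev d s).eventually_lt_const (by positivity)
  obtain ⟨R, hR1, hR2⟩ := (hev.and (eventually_gt_atTop (2 * s))).exists
  have hd0 : (0 : ℝ) < d := by exact_mod_cast hd
  obtain ⟨β, hβ⟩ : ∃ β, β = (volume (ball (0 : V d) R)).toReal := ⟨_, rfl⟩
  have hβ0 : 0 ≤ β := by rw [hβ]; exact ENNReal.toReal_nonneg
  have hc : 0 < (a / d) ^ (d - 1) := by positivity
  refine ⟨8 * β / (ε * η ^ 2) / (a / d) ^ (d - 1) + 1, by positivity, ?_⟩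
  intro L hL w ι _ Q q C hw
  have hL0 : 0 < L := lt_of_lt_of_le (by positivity) hL
  obtain ⟨W', hW'⟩ : ∃ W', W' = (W d L a).toReal := ⟨_, rfl⟩
  have hWt := W_ne_top (d := d) hd hL0.le ha.le
  have hW1 : L * (a / d) ^ (d - 1) ≤ W' := by
    rw [hW', ← ENNReal.ofReal_le_iff_le_toReal hWt]
    exact le_W hd hL0.le ha
  have hW0 : 0 < W' := lt_of_lt_of_le (by positivity) hW1
  have hW2 : 8 * β / (ε * η ^ 2) ≤ W' := by
    refine le_trans ?_ hW1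
    rw [← div_le_iff₀ hc]
    linarith
  have h4 := C.fourth hd hw hs hL0.le ha.le (ENNReal.ofReal η * W d L a) hR2
  obtain ⟨X, hX⟩ : ∃ X, X = mu d {p | ENNReal.ofReal η * W d L a ≤ tub L a (⋃ i, Q i) p ∧
    ∀ i, p ∉ At L a (q i)} := ⟨_, rfl⟩
  rw [← hX] at h4 ⊢
  have hvt : volume (⋃ i, Q i) ≠ ⊤ := by
    rw [C.vol_union]
    exact ENNReal.mul_ne_top (by simp) hw
  obtain ⟨v, hv⟩ : ∃ v, v = (volume (⋃ i, Q i)).toReal := ⟨_, rfl⟩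
  have hv0 : 0 ≤ v := by rw [hv]; exact ENNReal.toReal_nonneg
  have e1 : ENNReal.ofReal ε * volume (⋃ i, Q i) = ENNReal.ofReal (ε * v) := by
    rw [ENNReal.ofReal_mul hε.le, hv, ENNReal.ofReal_toReal hvt]
  have e2 : ENNReal.ofReal η * W d L a = ENNReal.ofReal (η * W') := by
    rw [ENNReal.ofReal_mul hη.le, hW', ENNReal.ofReal_toReal hWt]
  rw [← hv, ← hβ, ← hW', e2] at h4
  rw [e1]
  have hne : ENNReal.ofReal (η * W') ^ 2 ≠ 0 := by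
    rw [← ENNReal.ofReal_pow (by positivity)]
    simp only [ne_eq, ENNReal.ofReal_eq_zero, not_le]
    positivity
  have hnt : ENNReal.ofReal (η * W') ^ 2 ≠ ⊤ := ENNReal.pow_ne_top ENNReal.ofReal_ne_top
  rw [← ENNReal.mul_le_mul_iff_right hne hnt]
  refine h4.trans ?_
  rw [← ENNReal.ofReal_pow (by positivity), ← ENNReal.ofReal_mul (by positivity)]
  refine ENNReal.ofReal_le_ofReal ?_
  have e3 : β * W' ≤ ε * η ^ 2 / 8 * W' ^ 2 := by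
    have : β ≤ ε * η ^ 2 / 8 * W' := by
      rw [div_le_iff₀ (by positivity)] at hW2
      linarith
    nlinarith
  have e4 : (((1 - 2 * s / R) ^ d)⁻¹ - ((1 + 2 * s / R) ^ d)⁻¹) * W' ^ 2 ≤
      ε * η ^ 2 / 4 * W' ^ 2 := mul_le_mul_of_nonneg_right hR1.le (by positivity)
  have e5 : 2 * β * W' + (((1 - 2 * s / R) ^ d)⁻¹ - ((1 + 2 * s / R) ^ d)⁻¹) * W' ^ 2 ≤
      ε * η ^ 2 / 2 * W' ^ 2 := by linarith
  have e6 := mul_le_mul_of_nonneg_left e5 (by positivity : (0 : ℝ) ≤ 2 * v)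
  calc _ ≤ 2 * v * (ε * η ^ 2 / 2 * W' ^ 2) := e6
    _ = _ := by ring

end Pool.Agent.Needle
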