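import Pool.Agent.Lib.MP_09cbbd_ndg.GKer

/-!
# Oscillation of the pair function
-/

set_option autoImplicit false

namespace Pool.Agent.Needle

open MeasureTheory Metric Set

variable {d : ℕ}

/-- The pair function at a point at distance `r` (0 for negative `r`). -/
noncomputable def kr (hd : 1 ≤ d) (L a r : ℝ) : ENNReal := K L a ((max r 0) • e0 hd)

theorem kr_norm (hd : 1 ≤ d) (L a : ℝ) (z : V d) : kr hd L a ‖z‖ = K L a z := by
  unfold kr
  have h : ‖(max ‖z‖ 0) • e0 hd‖ = ‖z‖ := by
    rw [norm_smul, norm_e0, mul_one, max_eq_left (norm_nonneg z), norm_norm]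
  exact le_antisymm (K_anti L a h.ge) (K_anti L a h.le)

theorem kr_anti (hd : 1 ≤ d) (L a : ℝ) {r r' : ℝ} (h : r ≤ r') : kr hd L a r' ≤ kr hd L a r := by
  unfold kr
  refine K_anti L a ?_
  rw [norm_smul, norm_smul, norm_e0, mul_one, mul_one, Real.norm_of_nonneg (le_max_right _ _),
    Real.norm_of_nonneg (le_max_right _ _)]
  exact max_le_max h le_rfl

theorem kr_le (hd : 1 ≤ d) (L a r : ℝ) : kr hd L a r ≤ W d L a := K_le _ _ _

theorem measurable_kr (hd : 1 ≤ d) (L a : ℝ) : Measurable (kr hd L a) := by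
  unfold kr
  exact (measurable_K L a).comp (by fun_prop)

theorem lintegral_K_smul (hd : 1 ≤ d) (L a : ℝ) {t : ℝ} (ht : 0 < t) :
    ∫⁻ p : V d, K L a (t • p) = ENNReal.ofReal ((t ^ d)⁻¹) * (W d L a * W d L a) := by
  rw [← lintegral_K hd L a]
  have h := Measure.map_addHaar_smul (volume : Measure (V d)) ht.ne'
  have h2 : ∫⁻ p : V d, K L a (t • p) =
      ∫⁻ p : V d, K L a p ∂(Measure.map (fun x : V d => t • x) volume) := by
    rw [lintegral_map (measurable_K L a) (measurable_const_smul t)]
  rw [h2, h, lintegral_smul_measure, smul_eq_mul]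
  congr 2
  rw [finrank_euclideanSpace, Fintype.card_fin, abs_inv, abs_of_pos (by positivity)]

theorem lintegral_kp (hd : 1 ≤ d) (L a : ℝ) {c R : ℝ} (hc : 0 ≤ c) (hcR : c < R) :
    ∫⁻ p : V d, kr hd L a (‖p‖ - c) ≤ volume (ball (0 : V d) R) * W d L a +
      ENNReal.ofReal (((1 - c / R) ^ d)⁻¹) * (W d L a * W d L a) := by
  have hR : 0 < R := lt_of_le_of_lt hc hcR
  have ht : 0 < 1 - c / R := by
    rw [sub_pos, div_lt_one hR]
    exact hcR
  rw [← lintegral_K_smul hd L a ht]
  have h1 : ∀ p : V d, kr hd L a (‖p‖ - c) ≤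
      (ball (0 : V d) R).indicator (fun _ => W d L a) p + K L a ((1 - c / R) • p) := by
    intro p
    by_cases hp : p ∈ ball (0 : V d) R
    · rw [indicator_of_mem hp]
      exact (kr_le hd L a _).trans le_self_add
    · rw [indicator_of_notMem hp, zero_add, ← kr_norm hd]
      refine kr_anti hd L a ?_
      rw [norm_smul, Real.norm_of_nonneg ht.le]
      rw [mem_ball_zero_iff, not_lt] at hp
      have h2 : c ≤ c / R * ‖p‖ := by
        rw [div_mul_eq_mul_div, le_div_iff₀ hR]
        exact mul_le_mul_of_nonneg_left hp hc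
      linarith
  calc ∫⁻ p : V d, kr hd L a (‖p‖ - c) ≤ ∫⁻ p : V d, ((ball (0 : V d) R).indicator
        (fun _ => W d L a) p + K L a ((1 - c / R) • p)) := lintegral_mono h1
    _ = _ := by
        rw [lintegral_add_left (measurable_const.indicator measurableSet_ball),
          lintegral_indicator_const measurableSet_ball, mul_comm]

theorem lintegral_km (hd : 1 ≤ d) (L a : ℝ) {c R : ℝ} (hc : 0 ≤ c) (hR : 0 < R) :
    ENNReal.ofReal (((1 + c / R) ^ d)⁻¹) * (W d L a * W d L a) ≤
      volume (ball (0 : V d) R) * W d L a + ∫⁻ p : V d, kr hd L a (‖p‖ + c) := by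
  have ht : 0 < 1 + c / R := by positivity
  rw [← lintegral_K_smul hd L a ht]
  have h1 : ∀ p : V d, K L a ((1 + c / R) • p) ≤
      (ball (0 : V d) R).indicator (fun _ => W d L a) p + kr hd L a (‖p‖ + c) := by
    intro p
    by_cases hp : p ∈ ball (0 : V d) R
    · rw [indicator_of_mem hp]
      exact (K_le L a _).trans le_self_add
    · rw [indicator_of_notMem hp, zero_add, ← kr_norm hd]
      refine kr_anti hd L a ?_
      rw [norm_smul, Real.norm_of_nonneg ht.le]
      rw [mem_ball_zero_iff, not_lt] at hp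
      have h2 : c ≤ c / R * ‖p‖ := by
        rw [div_mul_eq_mul_div, le_div_iff₀ hR]
        exact mul_le_mul_of_nonneg_left hp hc
      linarith
  calc ∫⁻ p : V d, K L a ((1 + c / R) • p) ≤ ∫⁻ p : V d, ((ball (0 : V d) R).indicator
        (fun _ => W d L a) p + kr hd L a (‖p‖ + c)) := lintegral_mono h1
    _ = _ := by
        rw [lintegral_add_left (measurable_const.indicator measurableSet_ball),
          lintegral_indicator_const measurableSet_ball, mul_comm]

end Pool.Agent.Needle
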