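import Pool.Agent.Lib.MP_09cbbd_ndg.GCore

/-!
# Free needles of a block: own cells
-/

set_option autoImplicit false

namespace Pool.Agent.Needle

open MeasureTheory Metric Set

variable {d : ℕ}

theorem arith_mid {k c u e F φ X K η : ℝ} (hu0 : 0 < u) (hu : u ≤ 1 / 2)
    (hk : 0 < k) (hc : c ≤ k / 4) (he : e ≤ c * u / 2) (hη : (K + 1) * η ≤ c * u / 2)
    (h1 : F + φ + X ≤ 1 + e + K * η) (h2 : k * ((1 - φ) * φ) ≤ X + η) (h3 : u ≤ φ)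
    (h4 : φ ≤ 1 - u) : F + φ ≤ 1 - c * u := by
  have h5 : u / 2 ≤ (1 - φ) * φ := by nlinarith
  have h6 : k * (u / 2) ≤ k * ((1 - φ) * φ) := mul_le_mul_of_nonneg_left h5 hk.le
  have h7 : c * u ≤ k / 4 * u := mul_le_mul_of_nonneg_right hc hu0.le
  nlinarith

theorem arith_low {k k' c u x e F φ X K η : ℝ} (hu0 : 0 < u) (hx : 0 < x) (hx1 : x ≤ 1)
    (hk : 0 < k) (hk' : 0 < k') (hc : c ≤ k ^ 2 / (16 * k')) (he : e ≤ c * u / 2)
    (hη0 : 0 < η)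
    (hη : (K + 1) * η ≤ c * u / 2) (hη2 : η ≤ k * u * x ^ 2 / 8)
    (h1 : F + φ + X ≤ 1 + e + K * η)
    (h2 : ∀ T : ℝ, 0 ≤ T → 2 * T * (k * ((1 - φ) * φ)) ≤ T ^ 2 * (k' * x ^ 4 * φ) + X + 2 * T * η)
    (h3 : u * x ^ 2 ≤ φ) (h4 : φ ≤ 1 / 2) : F + φ ≤ 1 - c * u := by
  have hx4 : 0 < x ^ 4 := by positivity
  have hφ : 0 < φ := lt_of_lt_of_le (by positivity) h3
  have hT := h2 (k / (2 * k' * x ^ 4)) (by positivity)
  obtain ⟨T, hTd⟩ : ∃ T, T = k / (2 * k' * x ^ 4) := ⟨_, rfl⟩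
  rw [← hTd] at hT
  have hT0 : 0 < T := by rw [hTd]; positivity
  have e1 : T ^ 2 * (k' * x ^ 4 * φ) = T * (k / 2) * φ := by
    rw [hTd]
    field_simp
  have e2 : T * k * φ ≤ 2 * T * (k * ((1 - φ) * φ)) := by
    have : T * k * φ * 1 ≤ T * k * φ * (2 * (1 - φ)) :=
      mul_le_mul_of_nonneg_left (by linarith) (by positivity)
    nlinarith
  have e3 : T * (k * φ / 2 - 2 * η) ≤ X := by nlinarith
  have e4 : k * u * x ^ 2 / 4 ≤ k * φ / 2 - 2 * η := by nlinarith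
  have e5 : T * (k * u * x ^ 2 / 4) ≤ X := (mul_le_mul_of_nonneg_left e4 hT0.le).trans e3
  have e6 : k ^ 2 / (8 * k') * u ≤ T * (k * u * x ^ 2 / 4) := by
    rw [hTd]
    have : k / (2 * k' * x ^ 4) * (k * u * x ^ 2 / 4) = k ^ 2 / (8 * k') * u / x ^ 2 := by
      field_simp
      ring
    rw [this, le_div_iff₀ (by positivity)]
    have hx2 : x ^ 2 ≤ 1 := pow_le_one₀ hx.le hx1
    have : 0 < k ^ 2 / (8 * k') * u := by positivity
    nlinarith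
  have e7 : 2 * (c * u) ≤ k ^ 2 / (8 * k') * u := by
    have : c * u ≤ k ^ 2 / (16 * k') * u := mul_le_mul_of_nonneg_right hc hu0.le
    have e8 : k ^ 2 / (8 * k') * u = 2 * (k ^ 2 / (16 * k') * u) := by field_simp; ring
    linarith
  nlinarith

theorem vP01 (hd : 1 ≤ d) : ∃ c : ℝ, 0 < c ∧ ∀ x : ℝ, 0 < x → x ≤ 1 / 2 → ∀ a : ℝ, 0 < a →
    ∀ s : ℝ, 0 ≤ s → ∀ ε : ℝ, 0 < ε → ∃ H0 : ℝ, 0 < H0 ∧ ∀ h : ℝ, H0 ≤ h → ∀ b : Set (V d),
      Bk d h b → ∀ (w : ENNReal) (ι : Type) (_ : Fintype ι) (Q : ι → Set (V d)) (q : ι → V d),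
      Cells d s w ι Q q → w ≠ ⊤ → (⋃ i, Q i) ⊆ b → ∀ U : Set (V d × V d),
      (∀ p ∈ U, ∀ i, p ∉ At (16 * d * h) a (q i)) →
      (mu d (Prod.fst ⁻¹' b ∩ U)).toReal / h ^ d + (volume (⋃ i, Q i)).toReal / h ^ d ≤ 1 + ε ∧
      (x ^ (4 * d + 2) ≤ (volume (⋃ i, Q i)).toReal / h ^ d →
        (volume (⋃ i, Q i)).toReal / h ^ d ≤ 1 - x ^ (4 * d) →
        (mu d (Prod.fst ⁻¹' b ∩ U)).toReal / h ^ d + (volume (⋃ i, Q i)).toReal / h ^ d ≤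
          1 - c * x ^ (4 * d)) := by
  have hk0 := k0_pos hd
  have hk1 := k1_pos hd
  have hk2 := k2_pos hd
  obtain ⟨c, hc⟩ : ∃ c, c = min (k1 d / 4) (k1 d ^ 2 / (16 * k2 d)) := ⟨_, rfl⟩
  have hc0 : 0 < c := by rw [hc]; positivity
  have hc1 : c ≤ k1 d / 4 := by rw [hc]; exact min_le_left _ _
  have hc2 : c ≤ k1 d ^ 2 / (16 * k2 d) := by rw [hc]; exact min_le_right _ _
  refine ⟨c, hc0, ?_⟩
  intro x hx hx1 a ha s hs ε hε
  obtain ⟨u, hu⟩ : ∃ u, u = x ^ (4 * d) := ⟨_, rfl⟩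
  have hu0 : 0 < u := by rw [hu]; positivity
  have hu1 : u ≤ 1 / 2 := by
    rw [hu]
    calc x ^ (4 * d) ≤ x ^ 1 := pow_le_pow_of_le_one hx.le (by linarith) (by omega)
      _ = x := pow_one x
      _ ≤ 1 / 2 := hx1
  obtain ⟨e, he⟩ : ∃ e, e = min (ε / 2) (c * u / 2) := ⟨_, rfl⟩
  have he0 : 0 < e := by rw [he]; positivity
  have he1 : e ≤ ε / 2 := by rw [he]; exact min_le_left _ _
  have he2 : e ≤ c * u / 2 := by rw [he]; exact min_le_right _ _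
  obtain ⟨η, hη⟩ : ∃ η, η = min (min (ε / (2 * (k0 d + 1))) (c * u / (2 * (k0 d + 1))))
    (k1 d * u * x ^ 2 / 8) := ⟨_, rfl⟩
  have hη0 : 0 < η := by rw [hη]; positivity
  have hη1 : (k0 d + 1) * η ≤ ε / 2 := by
    have : η ≤ ε / (2 * (k0 d + 1)) := by
      rw [hη]; exact (min_le_left _ _).trans (min_le_left _ _)
    rw [le_div_iff₀ (by positivity)] at this
    linarith
  have hη2 : (k0 d + 1) * η ≤ c * u / 2 := by
    have : η ≤ c * u / (2 * (k0 d + 1)) := by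
      rw [hη]; exact (min_le_left _ _).trans (min_le_right _ _)
    rw [le_div_iff₀ (by positivity)] at this
    linarith
  have hη3 : η ≤ k1 d * u * x ^ 2 / 8 := by rw [hη]; exact min_le_right _ _
  obtain ⟨L0, hL0, hL⟩ := blocking hd ha hs hη0 he0
  refine ⟨max a L0, by positivity, ?_⟩
  intro h hh b B w ι _ Q q C hw hQb U hU
  have hah : a ≤ h := (le_max_left _ _).trans hh
  have hLh : L0 ≤ h := (le_max_right _ _).trans hh
  have hh0 : 0 < h := lt_of_lt_of_le ha hah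
  have hd1 : (1 : ℝ) ≤ d := by exact_mod_cast hd
  have hbl := hL (16 * d * h) (by nlinarith) w ι inferInstance Q q C hw
  obtain ⟨X, hX0, hX1, hX2, hX3⟩ := core hd ha hah B C.meas_union hQb
    (U := U) (N := {p | ∀ i, p ∉ At (16 * d * h) a (q i)}) hU hη0 he0.le hbl
  obtain ⟨F, hF⟩ : ∃ F, F = (mu d (Prod.fst ⁻¹' b ∩ U)).toReal / h ^ d := ⟨_, rfl⟩
  obtain ⟨φ, hφ⟩ : ∃ φ, φ = (volume (⋃ i, Q i)).toReal / h ^ d := ⟨_, rfl⟩
  rw [← hF, ← hφ] at hX1 ⊢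
  rw [← hφ] at hX2 hX3
  refine ⟨by nlinarith, ?_⟩
  intro h1 h2
  rw [← hu] at h2 ⊢
  have h1' : u * x ^ 2 ≤ φ := by
    rw [hu, ← pow_add]
    exact h1
  by_cases h3 : u ≤ φ
  · exact arith_mid hu0 hu1 hk1 hc1 he2 hη2 hX1 hX2 h3 h2
  · have h4 : φ ≤ u := (not_le.1 h3).le
    have h5 : φ ≤ (x ^ 4) ^ d := by
      rw [← pow_mul, ← hu]
      exact h4
    exact arith_low hu0 hx (by linarith) hk1 hk2 hc2 he2 hη0 hη2 hη3 hX1
      (hX3 (x ^ 4) (by positivity) h5) h1' (h4.trans hu1)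

end Pool.Agent.Needle
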