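import Pool.Agent.Lib.MP_09cbbd_ndg.GCore

/-!
# Free needles of a block: cells of other blocks
-/

set_option autoImplicit false

namespace Pool.Agent.Needle

open MeasureTheory Metric Set

variable {d : ℕ}

/-- Constant of the first moment for a neighbour. -/
noncomputable def k3 (d : ℕ) : ℝ := c3 d / (16 * d * (2 * d) ^ (d - 1) * 2 ^ (d - 1))

theorem k3_pos (hd : 1 ≤ d) : 0 < k3 d := by
  unfold k3
  have := c3_pos hd
  have hd0 : (0 : ℝ) < d := by exact_mod_cast hd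
  positivity

theorem id4 (hd : 1 ≤ d) {a h : ℝ} (hh : 0 < h) :
    c3 d * (a / (2 * d * h)) ^ (d - 1) * h ^ d = k3 d * (16 * d * h * (2 * a) ^ (d - 1)) := by
  have hd0 : (0 : ℝ) < d := by exact_mod_cast hd
  obtain ⟨n, rfl⟩ : ∃ n, d = n + 1 := ⟨d - 1, by omega⟩
  unfold k3
  simp only [Nat.add_sub_cancel, mul_pow, div_pow, pow_succ]
  field_simp

theorem vP2 (hd : 1 ≤ d) : ∃ c : ℝ, 0 < c ∧ ∀ a : ℝ, 0 < a → ∀ s : ℝ, 0 ≤ s →
    ∃ H0 : ℝ, 0 < H0 ∧ ∀ h : ℝ, H0 ≤ h → ∀ b : Set (V d),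
      Bk d h b → ∀ (w : ENNReal) (ι : Type) (_ : Fintype ι) (Q : ι → Set (V d)) (q : ι → V d),
      Cells d s w ι Q q → w ≠ ⊤ → (∀ x ∈ ⋃ i, Q i, ∀ y ∈ b, ‖x - y‖ ≤ 2 * d * h) →
      volume (⋃ i, Q i) ≤ ENNReal.ofReal (h ^ d) → 1 / 2 ≤ (volume (⋃ i, Q i)).toReal / h ^ d →
      ∀ U : Set (V d × V d), (∀ p ∈ U, ∀ i, p ∉ At (16 * d * h) a (q i)) →
      (mu d (Prod.fst ⁻¹' b ∩ U)).toReal / h ^ d ≤ 1 - c := by
  have hk3 := k3_pos hd
  have hc3 := c3_pos hd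
  refine ⟨k3 d / 4, by positivity, ?_⟩
  intro a ha s hs
  obtain ⟨L0, hL0, hL⟩ := blocking hd ha hs (η := k3 d / 8) (ε := k3 d / 8) (by positivity)
    (by positivity)
  refine ⟨max a L0, by positivity, ?_⟩
  intro h hh b B w ι _ Q q C hw hQb hQv hQh U hU
  have hah : a ≤ h := (le_max_left _ _).trans hh
  have hLh : L0 ≤ h := (le_max_right _ _).trans hh
  have hh0 : 0 < h := lt_of_lt_of_le ha hah
  have hd0 : (0 : ℝ) < d := by exact_mod_cast hd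
  have hd1 : (1 : ℝ) ≤ d := by exact_mod_cast hd
  have hbl := hL (16 * d * h) (by nlinarith) w ι inferInstance Q q C hw
  obtain ⟨Y, hYd⟩ : ∃ Y, Y = ⋃ i, Q i := ⟨_, rfl⟩
  have hY : MeasurableSet Y := by rw [hYd]; exact C.meas_union
  rw [← hYd] at hQb hQv hQh hbl
  obtain ⟨β, hβ⟩ : ∃ β, β = h ^ d := ⟨_, rfl⟩
  have hβ0 : 0 < β := by rw [hβ]; positivity
  have hvb : volume b = ENNReal.ofReal β := by rw [B.vol, hβ]
  obtain ⟨L, hLd⟩ : ∃ L, L = 16 * d * h := ⟨_, rfl⟩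
  have hL0 : 0 < L := by rw [hLd]; positivity
  obtain ⟨W', hW'⟩ : ∃ W', W' = (W d L a).toReal := ⟨_, rfl⟩
  have hWt := W_ne_top (d := d) hd hL0.le ha.le
  have hWe : W d L a = ENNReal.ofReal W' := by rw [hW', ENNReal.ofReal_toReal hWt]
  obtain ⟨Wu, hWu⟩ : ∃ Wu, Wu = 16 * d * h * (2 * a) ^ (d - 1) := ⟨_, rfl⟩
  have hWu0 : 0 < Wu := by rw [hWu]; positivity
  have hW1 : W' ≤ Wu := by
    rw [hW', hWu, ← hLd]
    refine ENNReal.toReal_le_of_le_ofReal (by positivity) (W_le hd hL0.le ha.le)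
  have hW0 : 0 ≤ W' := by rw [hW']; exact ENNReal.toReal_nonneg
  rw [← hβ] at hQv hQh ⊢
  obtain ⟨y, hy⟩ : ∃ y, y = (volume Y).toReal := ⟨_, rfl⟩
  have hvY : volume Y = ENNReal.ofReal y := by
    rw [hy, ENNReal.ofReal_toReal (ne_top_of_le_ne_top ENNReal.ofReal_ne_top hQv)]
  have hy0 : 0 ≤ y := by rw [hy]; exact ENNReal.toReal_nonneg
  have hyβ : y ≤ β := by
    rw [hvY, ENNReal.ofReal_le_ofReal_iff hβ0.le] at hQv
    exact hQv
  rw [← hy] at hQh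
  obtain ⟨τ, hτ⟩ : ∃ τ, τ = ENNReal.ofReal (k3 d / 8) * W d L a := ⟨_, rfl⟩
  have hτe : τ = ENNReal.ofReal (k3 d / 8 * W') := by
    rw [hτ, hWe, ENNReal.ofReal_mul (by positivity)]
  rw [← hLd, ← hτ, hvY, ← ENNReal.ofReal_mul (by positivity)] at hbl
  have hmub : mu d (Prod.fst ⁻¹' b) = ENNReal.ofReal β := by rw [mu_fst B.meas, hvb]
  have fin : ∀ S : Set (V d × V d), S ⊆ Prod.fst ⁻¹' b → ∃ m : ℝ, 0 ≤ m ∧ mu d S = ENNReal.ofReal m ∧
      m = (mu d S).toReal := by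
    intro S hS
    refine ⟨(mu d S).toReal, ENNReal.toReal_nonneg, ?_, rfl⟩
    rw [ENNReal.ofReal_toReal]
    have h1 := measure_mono (μ := mu d) hS
    rw [hmub] at h1
    exact ne_top_of_le_ne_top ENNReal.ofReal_ne_top h1
  obtain ⟨f, hf0, hf, hf'⟩ := fin (Prod.fst ⁻¹' b ∩ U) inter_subset_left
  obtain ⟨X, hX0, hX, -⟩ := fin {p | p.1 ∈ b ∧ τ ≤ tub L a Y p} (fun p hp => hp.1)
  have hU' : U ⊆ {p | ∀ i, p ∉ At L a (q i)} := by
    rw [hLd]
    exact hU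
  have R1 : f + X ≤ β + k3 d / 8 * y := by
    have h1 := base_le' (Y := Y) B.meas L a τ hU'
    rw [hvb, hf, hX] at h1
    have h2 := h1.trans (add_le_add le_rfl hbl)
    rw [← ENNReal.ofReal_add hf0 hX0, ← ENNReal.ofReal_add hβ0.le (by positivity),
      ENNReal.ofReal_le_ofReal_iff (by positivity)] at h2
    exact h2
  have hfm := first_moment hd B.meas hY ha (L := L) (D := 2 * d * h) (by nlinarith)
    (by rw [hLd]; nlinarith) hQb
  rw [hvb, hvY] at hfm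
  have I1 := id4 hd (a := a) hh0
  rw [← hWu, ← hβ] at I1
  have R2 : c3 d * (a / (2 * d * h)) ^ (d - 1) * (β * y) ≤ W' * X + k3 d / 8 * W' * β := by
    have h1 := hfm.trans (split_le hd B.meas Y L a τ)
    rw [hX, hvb, hτe, hWe, ← ENNReal.ofReal_mul (by positivity), ← ENNReal.ofReal_mul (by positivity),
      ← ENNReal.ofReal_mul (by positivity), ← ENNReal.ofReal_mul (by positivity),
      ← ENNReal.ofReal_add (by positivity) (by positivity),
      ENNReal.ofReal_le_ofReal_iff (by positivity)] at h1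
    exact h1
  have R3 : k3 d * y ≤ X + k3 d / 8 * β := by
    have h1 : Wu * (k3 d * y) ≤ Wu * (X + k3 d / 8 * β) := by
      calc Wu * (k3 d * y) = (k3 d * Wu) * y := by ring
        _ = c3 d * (a / (2 * d * h)) ^ (d - 1) * β * y := by rw [I1]
        _ = c3 d * (a / (2 * d * h)) ^ (d - 1) * (β * y) := by ring
        _ ≤ _ := R2
        _ = W' * (X + k3 d / 8 * β) := by ring
        _ ≤ _ := by gcongr
    exact le_of_mul_le_mul_left h1 hWu0
  rw [le_div_iff₀ hβ0] at hQh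
  rw [← hf', div_le_iff₀ hβ0]
  have h5 : k3 d * (1 / 2 * β) ≤ k3 d * y := by gcongr
  have h6 : k3 d / 8 * y ≤ k3 d / 8 * β := by gcongr
  nlinarith

end Pool.Agent.Needle
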