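import Pool.Agent.Lib.MP_09cbbd_ndg.GCore

/-!
# Free needles of a block: dense surroundings
-/

set_option autoImplicit false

namespace Pool.Agent.Needle

open MeasureTheory Metric Set

variable {d : ℕ}

/-- Constant of dense surroundings. -/
noncomputable def k4 (d : ℕ) : ℝ :=
  4 * (2 * d) ^ (2 * (d - 1)) * k2 d * (32 * d + 5) ^ (d + 1) + (32 * d + 5) ^ d

theorem k4_pos (hd : 1 ≤ d) : 0 < k4 d := by
  unfold k4
  have := k2_pos hd
  have hd0 : (0 : ℝ) < d := by exact_mod_cast hd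
  positivity

theorem tub_split (hd : 1 ≤ d) {L a : ℝ} {Y R : Set (V d)} {p : V d × V d} (hp : ‖p.2‖ = 1)
    (hR : ∀ u, u - p.1 ∈ Cy L a p.2 → u ∈ R) :
    W d L a ≤ tub L a Y p + tub L a (R \ Y) p := by
  rw [← volume_Cy_W hd hp]
  have h1 : volume {z : V d | z - p.1 ∈ Cy L a p.2} = volume (Cy L a p.2) :=
    (measurePreserving_sub_right (volume : Measure (V d)) p.1).measure_preimage
      (measurableSet_Cy L a p.2).nullMeasurableSet
  rw [← h1]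
  unfold tub
  refine (measure_mono ?_).trans (measure_union_le _ _)
  intro z hz
  by_cases h : z ∈ Y
  · exact Or.inl ⟨h, hz⟩
  · exact Or.inr ⟨⟨hR z hz, h⟩, hz⟩

theorem vP4 (hd : 1 ≤ d) : ∀ x : ℝ, 0 < x → ∀ a : ℝ, 0 < a → ∀ s : ℝ, 0 ≤ s →
    ∃ H0 : ℝ, 0 < H0 ∧ ∀ h : ℝ, H0 ≤ h → ∀ b : Set (V d),
      Bk d h b → ∀ (w : ENNReal) (ι : Type) (_ : Fintype ι) (Q : ι → Set (V d)) (q : ι → V d),
      Cells d s w ι Q q → w ≠ ⊤ → ∀ R : Set (V d),
      (∀ y ∈ b, ∀ u, ‖u - y‖ ≤ (8 * d + 1) * h → u ∈ R) →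
      volume (R \ ⋃ i, Q i) ≤ ENNReal.ofReal (x ^ (4 * d) * ((32 * d + 5) * h) ^ d) →
      volume (⋃ i, Q i) ≤ ENNReal.ofReal (((32 * d + 5) * h) ^ d) →
      ∀ U : Set (V d × V d), (∀ p ∈ U, ∀ i, p ∉ At (16 * d * h) a (q i)) →
      (mu d (Prod.fst ⁻¹' b ∩ U)).toReal / h ^ d ≤ k4 d * x ^ (4 * d + 4) := by
  have hk2 := k2_pos hd
  have hd0 : (0 : ℝ) < d := by exact_mod_cast hd
  have hd1 : (1 : ℝ) ≤ d := by exact_mod_cast hd
  have hc2 := c2_pos (d := d)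
  have hc4 := c4_pos (d := d)
  intro x hx a ha s hs
  obtain ⟨L0, hL0, hL⟩ := blocking hd ha hs (η := 1 / 2) (ε := x ^ (4 * d + 4)) (by positivity)
    (by positivity)
  refine ⟨max a L0, by positivity, ?_⟩
  intro h hh b B w ι _ Q q C hw R hR hRv hQv U hU
  have hah : a ≤ h := (le_max_left _ _).trans hh
  have hLh : L0 ≤ h := (le_max_right _ _).trans hh
  have hh0 : 0 < h := lt_of_lt_of_le ha hah
  have hbl := hL (16 * d * h) (by nlinarith) w ι inferInstance Q q C hw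
  obtain ⟨Y, hYd⟩ : ∃ Y, Y = ⋃ i, Q i := ⟨_, rfl⟩
  have hY : MeasurableSet Y := by rw [hYd]; exact C.meas_union
  rw [← hYd] at hRv hQv hbl
  obtain ⟨β, hβ⟩ : ∃ β, β = h ^ d := ⟨_, rfl⟩
  have hβ0 : 0 < β := by rw [hβ]; positivity
  have hvb : volume b = ENNReal.ofReal β := by rw [B.vol, hβ]
  obtain ⟨L, hLd⟩ : ∃ L, L = 16 * d * h := ⟨_, rfl⟩
  have hL0 : 0 < L := by rw [hLd]; positivity
  obtain ⟨W', hW'⟩ : ∃ W', W' = (W d L a).toReal := ⟨_, rfl⟩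
  have hWt := W_ne_top (d := d) hd hL0.le ha.le
  have hWe : W d L a = ENNReal.ofReal W' := by rw [hW', ENNReal.ofReal_toReal hWt]
  obtain ⟨Wl, hWl⟩ : ∃ Wl, Wl = 16 * d * h * (a / d) ^ (d - 1) := ⟨_, rfl⟩
  have hWl0 : 0 < Wl := by rw [hWl]; positivity
  have hW1 : Wl ≤ W' := by
    rw [hW', hWl, ← hLd, ← ENNReal.ofReal_le_iff_le_toReal hWt]
    exact le_W hd hL0.le ha
  have hW0 : 0 < W' := lt_of_lt_of_le hWl0 hW1
  obtain ⟨τ, hτ⟩ : ∃ τ, τ = ENNReal.ofReal (1 / 2) * W d L a := ⟨_, rfl⟩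
  have hτe : τ = ENNReal.ofReal (W' / 2) := by
    rw [hτ, hWe, ← ENNReal.ofReal_mul (by positivity)]
    congr 1
    ring
  rw [← hLd, ← hτ] at hbl
  have hmub : mu d (Prod.fst ⁻¹' b) = ENNReal.ofReal β := by rw [mu_fst B.meas, hvb]
  have fin : ∀ S : Set (V d × V d), S ⊆ Prod.fst ⁻¹' b → ∃ m : ℝ, 0 ≤ m ∧ mu d S = ENNReal.ofReal m ∧
      m = (mu d S).toReal := by
    intro S hS
    refine ⟨(mu d S).toReal, ENNReal.toReal_nonneg, ?_, rfl⟩
    rw [ENNReal.ofReal_toReal]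
    have h1 := measure_mono (μ := mu d) hS
    rw [hmub] at h1
    exact ne_top_of_le_ne_top ENNReal.ofReal_ne_top h1
  obtain ⟨f, hf0, hf, hf'⟩ := fin (Prod.fst ⁻¹' b ∩ U) inter_subset_left
  obtain ⟨X, hX0, hX, -⟩ := fin {p | p.1 ∈ b ∧ τ ≤ tub L a (R \ Y) p} (fun p hp => hp.1)
  have hU' : U ⊆ {p | ∀ i, p ∉ At L a (q i)} := by
    rw [hLd]
    exact hU
  obtain ⟨ρ, hρ⟩ : ∃ ρ, ρ = (32 * d + 5) * x ^ 4 := ⟨_, rfl⟩
  have hρ0 : 0 < ρ := by rw [hρ]; positivity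
  have hρd : ρ ^ d = x ^ (4 * d) * (32 * d + 5) ^ d := by
    rw [hρ, mul_pow, ← pow_mul, mul_comm]
  have R1 : f ≤ x ^ (4 * d + 4) * ((32 * d + 5) * h) ^ d + X := by
    have h1 : Prod.fst ⁻¹' b ∩ U ⊆ {p | τ ≤ tub L a Y p ∧ ∀ i, p ∉ At L a (q i)} ∪
        (Prod.fst ⁻¹' b ∩ {p | tub L a Y p < τ}) := by
      rintro p ⟨hp1, hp2⟩
      by_cases h : τ ≤ tub L a Y p
      · exact Or.inl ⟨h, hU' hp2⟩
      · exact Or.inr ⟨hp1, not_le.1 h⟩
    have h2 : mu d (Prod.fst ⁻¹' b ∩ {p | tub L a Y p < τ}) ≤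
        mu d {p | p.1 ∈ b ∧ τ ≤ tub L a (R \ Y) p} := by
      refine measure_mono_ae ?_
      have h3 : ∀ᵐ p ∂(mu d), ‖p.2‖ = 1 := by
        unfold mu
        exact Measure.quasiMeasurePreserving_snd.ae (ae_norm hd)
      filter_upwards [h3] with p hp
      rintro ⟨hp1, hp2⟩
      refine ⟨hp1, ?_⟩
      have h4 := tub_split hd (L := L) (a := a) (Y := Y) (R := R) hp (fun u hu => by
        refine hR p.1 hp1 u ?_
        have h5 := norm_add_le (u - p.1 - (inner ℝ (u - p.1) p.2 : ℝ) • p.2)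
          ((inner ℝ (u - p.1) p.2 : ℝ) • p.2)
        rw [sub_add_cancel, norm_smul, hp, mul_one, Real.norm_eq_abs] at h5
        have h6 := hu.1
        have h7 := hu.2
        rw [hLd] at h6
        nlinarith)
      have h8 : W d L a = τ + τ := by
        rw [hτe, hWe, ← ENNReal.ofReal_add (by positivity) (by positivity)]
        congr 1
        ring
      rw [h8] at h4
      by_contra h9
      have h10 := ENNReal.add_lt_add hp2 (not_le.1 h9)
      exact absurd h4 (not_le.2 h10)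
    have h3 := (measure_mono (μ := mu d) h1).trans (measure_union_le _ _)
    have h4 := h3.trans (add_le_add (hbl.trans (mul_le_mul' le_rfl hQv)) h2)
    rw [hf, hX, ← ENNReal.ofReal_mul (by positivity), ← ENNReal.ofReal_add (by positivity) hX0,
      ENNReal.ofReal_le_ofReal_iff (by positivity)] at h4
    exact h4
  obtain ⟨Wu, hWu⟩ : ∃ Wu, Wu = 16 * d * h * (2 * a) ^ (d - 1) := ⟨_, rfl⟩
  have hWul : Wu = (2 * d) ^ (d - 1) * Wl := by
    rw [hWu, hWl]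
    have : (2 * a) ^ (d - 1) = (2 * d : ℝ) ^ (d - 1) * (a / d) ^ (d - 1) := by
      rw [← mul_pow]
      congr 1
      field_simp
    rw [this]
    ring
  have hRr : volume (R \ Y) ≤ ENNReal.ofReal ((ρ * h) ^ d) := by
    refine hRv.trans (le_of_eq ?_)
    rw [mul_pow ρ h d, hρd, mul_pow (32 * (d : ℝ) + 5) h d, mul_assoc]
  have R2 : (W' / 2) ^ 2 * X ≤ k2 d * ρ * Wu ^ 2 * (ρ * h) ^ d := by
    have h1 := cheb_le B.meas (R \ Y) L a τ
    have h2 := second_block hd B.meas (L := L) (by positivity : (0 : ℝ) ≤ d * h) ha.le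
      (by positivity : 0 < ρ * h) B.diam hRr
    have I2 := id2 hd (a := a) (ρ := ρ) hh0
    rw [← hWu] at I2
    rw [I2] at h2
    have h3 := h1.trans (h2.trans (mul_le_mul' le_rfl hRr))
    rw [hX, hτe, ← ENNReal.ofReal_pow (by positivity), ← ENNReal.ofReal_mul (by positivity),
      ← ENNReal.ofReal_mul (by positivity), ENNReal.ofReal_le_ofReal_iff (by positivity)] at h3
    exact h3
  have R3 : X ≤ 4 * (2 * d) ^ (2 * (d - 1)) * k2 d * (32 * d + 5) ^ (d + 1) * x ^ (4 * d + 4) * β := by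
    have h1 : (Wl / 2) ^ 2 * X ≤ (W' / 2) ^ 2 * X := by gcongr
    have h2 : (Wl / 2) ^ 2 * X ≤ (Wl / 2) ^ 2 *
        (4 * (2 * d) ^ (2 * (d - 1)) * k2 d * (32 * d + 5) ^ (d + 1) * x ^ (4 * d + 4) * β) := by
      refine (h1.trans R2).trans (le_of_eq ?_)
      rw [hWul, mul_pow ρ h d, hρd, ← hβ, mul_pow, ← pow_mul, hρ]
      ring
    exact le_of_mul_le_mul_left h2 (by positivity)
  rw [← hβ, ← hf', div_le_iff₀ hβ0]
  refine (R1.trans (add_le_add le_rfl R3)).trans (le_of_eq ?_)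
  unfold k4
  rw [mul_pow (32 * (d : ℝ) + 5) h d, ← hβ]
  ring

end Pool.Agent.Needle
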