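import Pool.Agent.Lib.MP_09cbbd_ndg.GTube

/-!
# Free needles of a block: inequalities
-/

set_option autoImplicit false

namespace Pool.Agent.Needle

open MeasureTheory Metric Set

variable {d : ℕ}

/-- The basic inequality: `N` is the set of the needles which miss the points, `U` a subset. -/
theorem base_le {b Y : Set (V d)} (hb : MeasurableSet b) (hY : MeasurableSet Y) (L a : ℝ)
    (τ : ENNReal) {U N : Set (V d × V d)} (hN : U ⊆ N) :
    mu d (Prod.fst ⁻¹' b ∩ U) + mu d {p | p.1 ∈ b \ Y ∧ τ ≤ tub L a Y p} + volume (b ∩ Y) ≤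
      volume b + mu d {p | τ ≤ tub L a Y p ∧ p ∈ N} +
        mu d {p | p.1 ∈ b ∧ p.1 ∈ Y ∧ tub L a Y p < τ} := by
  have htm := measurable_tub (d := d) L a Y
  have hX : MeasurableSet {p : V d × V d | τ ≤ tub L a Y p} := measurableSet_le measurable_const htm
  have h1 : Prod.fst ⁻¹' b ∩ U ⊆ {p | τ ≤ tub L a Y p ∧ p ∈ N} ∪
      ({p | p.1 ∈ b ∧ p.1 ∈ Y ∧ tub L a Y p < τ} ∪
        (Prod.fst ⁻¹' (b \ Y) \ {p | τ ≤ tub L a Y p})) := by
    rintro p ⟨hp1, hp2⟩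
    by_cases h : τ ≤ tub L a Y p
    · exact Or.inl ⟨h, hN hp2⟩
    · by_cases h2 : p.1 ∈ Y
      · exact Or.inr (Or.inl ⟨hp1, h2, not_le.1 h⟩)
      · exact Or.inr (Or.inr ⟨⟨hp1, h2⟩, h⟩)
  have h2 : mu d (Prod.fst ⁻¹' b ∩ U) ≤ mu d {p | τ ≤ tub L a Y p ∧ p ∈ N} +
      (mu d {p | p.1 ∈ b ∧ p.1 ∈ Y ∧ tub L a Y p < τ} +
        mu d (Prod.fst ⁻¹' (b \ Y) \ {p | τ ≤ tub L a Y p})) :=
    (measure_mono h1).trans ((measure_union_le _ _).trans (by gcongr; exact measure_union_le _ _))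
  have h3 : mu d {p | p.1 ∈ b \ Y ∧ τ ≤ tub L a Y p} +
      mu d (Prod.fst ⁻¹' (b \ Y) \ {p | τ ≤ tub L a Y p}) = volume (b \ Y) := by
    rw [← mu_fst (hb.diff hY)]
    exact measure_inter_add_sdiff _ hX
  have h4 : volume (b \ Y) + volume (b ∩ Y) = volume b := measure_sdiff_add_inter b hY
  calc _ ≤ (mu d {p | τ ≤ tub L a Y p ∧ p ∈ N} +
      (mu d {p | p.1 ∈ b ∧ p.1 ∈ Y ∧ tub L a Y p < τ} +
        mu d (Prod.fst ⁻¹' (b \ Y) \ {p | τ ≤ tub L a Y p}))) +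
        mu d {p | p.1 ∈ b \ Y ∧ τ ≤ tub L a Y p} + volume (b ∩ Y) := by gcongr
    _ = (mu d {p | p.1 ∈ b \ Y ∧ τ ≤ tub L a Y p} +
      mu d (Prod.fst ⁻¹' (b \ Y) \ {p | τ ≤ tub L a Y p})) + volume (b ∩ Y) +
        mu d {p | τ ≤ tub L a Y p ∧ p ∈ N} +
          mu d {p | p.1 ∈ b ∧ p.1 ∈ Y ∧ tub L a Y p < τ} := by ring
    _ = _ := by rw [h3, h4]

/-- The basic inequality for an arbitrary set `Y`. -/
theorem base_le' {b Y : Set (V d)} (hb : MeasurableSet b) (L a : ℝ)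
    (τ : ENNReal) {U N : Set (V d × V d)} (hN : U ⊆ N) :
    mu d (Prod.fst ⁻¹' b ∩ U) + mu d {p | p.1 ∈ b ∧ τ ≤ tub L a Y p} ≤
      volume b + mu d {p | τ ≤ tub L a Y p ∧ p ∈ N} := by
  have htm := measurable_tub (d := d) L a Y
  have hX : MeasurableSet {p : V d × V d | τ ≤ tub L a Y p} := measurableSet_le measurable_const htm
  have h1 : Prod.fst ⁻¹' b ∩ U ⊆ {p | τ ≤ tub L a Y p ∧ p ∈ N} ∪
      (Prod.fst ⁻¹' b \ {p | τ ≤ tub L a Y p}) := by
    rintro p ⟨hp1, hp2⟩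
    by_cases h : τ ≤ tub L a Y p
    · exact Or.inl ⟨h, hN hp2⟩
    · exact Or.inr ⟨hp1, h⟩
  have h2 := (measure_mono (μ := mu d) h1).trans (measure_union_le _ _)
  have h3 : mu d {p | p.1 ∈ b ∧ τ ≤ tub L a Y p} +
      mu d (Prod.fst ⁻¹' b \ {p | τ ≤ tub L a Y p}) = volume b := by
    rw [← mu_fst hb]
    exact measure_inter_add_sdiff _ hX
  calc _ ≤ (mu d {p | τ ≤ tub L a Y p ∧ p ∈ N} +
      mu d (Prod.fst ⁻¹' b \ {p | τ ≤ tub L a Y p})) +
        mu d {p | p.1 ∈ b ∧ τ ≤ tub L a Y p} := by gcongr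
    _ = (mu d {p | p.1 ∈ b ∧ τ ≤ tub L a Y p} +
      mu d (Prod.fst ⁻¹' b \ {p | τ ≤ tub L a Y p})) +
        mu d {p | τ ≤ tub L a Y p ∧ p ∈ N} := by ring
    _ = _ := by rw [h3]

theorem split_le (hd : 1 ≤ d) {S : Set (V d)} (hS : MeasurableSet S) (Y : Set (V d)) (L a : ℝ)
    (τ : ENNReal) :
    ∫⁻ p in Prod.fst ⁻¹' S, tub L a Y p ∂(mu d) ≤
      W d L a * mu d {p | p.1 ∈ S ∧ τ ≤ tub L a Y p} + τ * volume S := by
  have htm := measurable_tub (d := d) L a Y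
  have hX : MeasurableSet {p : V d × V d | τ ≤ tub L a Y p} := measurableSet_le measurable_const htm
  rw [← lintegral_inter_add_sdiff _ (Prod.fst ⁻¹' S) hX]
  have hSm : MeasurableSet (Prod.fst ⁻¹' S : Set (V d × V d)) := measurable_fst hS
  refine add_le_add ?_ ?_
  · calc ∫⁻ p in Prod.fst ⁻¹' S ∩ {p | τ ≤ tub L a Y p}, tub L a Y p ∂(mu d)
        ≤ ∫⁻ _p in Prod.fst ⁻¹' S ∩ {p | τ ≤ tub L a Y p}, W d L a ∂(mu d) :=
          lintegral_mono_ae (ae_restrict_of_ae (tub_le_W hd L a Y))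
      _ = _ := by rw [setLIntegral_const]; rfl
  · calc ∫⁻ p in Prod.fst ⁻¹' S \ {p | τ ≤ tub L a Y p}, tub L a Y p ∂(mu d)
        ≤ ∫⁻ _p in Prod.fst ⁻¹' S \ {p | τ ≤ tub L a Y p}, τ ∂(mu d) :=
          setLIntegral_mono' (hSm.diff hX) fun p hp => (not_le.1 hp.2).le
      _ = τ * mu d (Prod.fst ⁻¹' S \ {p | τ ≤ tub L a Y p}) := by rw [setLIntegral_const]
      _ ≤ τ * mu d (Prod.fst ⁻¹' S) := by gcongr; exact sdiff_subset
      _ = _ := by rw [mu_fst hS]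

theorem split2_le {S : Set (V d)} (hS : MeasurableSet S) (Y : Set (V d)) (L a : ℝ)
    (τ t : ENNReal) :
    2 * t * ∫⁻ p in Prod.fst ⁻¹' S, tub L a Y p ∂(mu d) ≤
      t ^ 2 * ∫⁻ p in Prod.fst ⁻¹' S, tub L a Y p ^ 2 ∂(mu d) +
        mu d {p | p.1 ∈ S ∧ τ ≤ tub L a Y p} + 2 * t * τ * volume S := by
  have htm := measurable_tub (d := d) L a Y
  have hX : MeasurableSet {p : V d × V d | τ ≤ tub L a Y p} := measurableSet_le measurable_const htm
  have hpt : ∀ p : V d × V d, 2 * t * tub L a Y p ≤ t ^ 2 * tub L a Y p ^ 2 +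
      {p : V d × V d | τ ≤ tub L a Y p}.indicator 1 p + 2 * t * τ := by
    intro p
    by_cases h : p ∈ {p : V d × V d | τ ≤ tub L a Y p}
    · rw [indicator_of_mem h]
      have h1 := amgm (t * tub L a Y p) 1
      rw [mul_one, one_pow, mul_pow, ← mul_assoc] at h1
      exact h1.trans le_self_add
    · rw [indicator_of_notMem h, add_zero]
      have h2 : tub L a Y p ≤ τ := (not_le.1 h).le
      exact le_trans (mul_le_mul' le_rfl h2) le_add_self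
  have h3 := lintegral_mono (μ := (mu d).restrict (Prod.fst ⁻¹' S)) hpt
  rw [lintegral_const_mul _ htm, lintegral_add_right _ measurable_const,
    lintegral_add_left ((htm.pow_const 2).const_mul _), lintegral_const_mul _ (htm.pow_const 2),
    lintegral_indicator_one hX, Measure.restrict_apply hX, setLIntegral_const, mu_fst hS] at h3
  have h4 : {p : V d × V d | τ ≤ tub L a Y p} ∩ Prod.fst ⁻¹' S =
      {p | p.1 ∈ S ∧ τ ≤ tub L a Y p} := by
    rw [inter_comm]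
    rfl
  rw [h4] at h3
  exact h3

theorem cheb_le {S : Set (V d)} (hS : MeasurableSet S) (H : Set (V d)) (L a : ℝ)
    (τ : ENNReal) :
    τ ^ 2 * mu d {p | p.1 ∈ S ∧ τ ≤ tub L a H p} ≤
      ∫⁻ p in Prod.fst ⁻¹' S, tub L a H p ^ 2 ∂(mu d) := by
  have htm := measurable_tub (d := d) L a H
  have hX : MeasurableSet {p : V d × V d | τ ≤ tub L a H p} := measurableSet_le measurable_const htm
  have hSm : MeasurableSet (Prod.fst ⁻¹' S : Set (V d × V d)) := measurable_fst hS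
  calc τ ^ 2 * mu d {p | p.1 ∈ S ∧ τ ≤ tub L a H p}
      = ∫⁻ _p in Prod.fst ⁻¹' S ∩ {p | τ ≤ tub L a H p}, τ ^ 2 ∂(mu d) := by
        rw [setLIntegral_const]; rfl
    _ ≤ ∫⁻ p in Prod.fst ⁻¹' S ∩ {p | τ ≤ tub L a H p}, tub L a H p ^ 2 ∂(mu d) :=
        setLIntegral_mono' (hSm.inter hX) fun p hp => pow_le_pow_left₀ zero_le hp.2 2
    _ ≤ _ := lintegral_mono_set inter_subset_left

end Pool.Agent.Needle
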