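import Pool.Agent.Lib.MP_09cbbd_ndg.GCell

/-!
# Transfer to coordinates
-/

set_option autoImplicit false

namespace Pool.Agent.Needle

open MeasureTheory Metric Set Pool.Agent.NeedleGas Pool.Agent.SquareWellGas

variable {d : ℕ}

theorem norm_emb (x : Fin d → ℝ) : ‖emb x‖ = nrm x := by
  rw [EuclideanSpace.norm_eq]
  unfold nrm
  congr 1
  refine Finset.sum_congr rfl fun k _ => ?_
  rw [emb_apply, Real.norm_eq_abs, sq_abs]

theorem nrm_le_one (x : Fin d → ℝ) : ∑ k, x k ^ 2 ≤ 1 ↔ ‖emb x‖ ≤ 1 := by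
  rw [norm_emb]
  unfold nrm
  rw [Real.sqrt_le_left zero_le_one, one_pow]

theorem mp_emb : MeasurePreserving (emb : (Fin d → ℝ) → V d) volume volume :=
  PiLp.volume_preserving_toLp (Fin d)

theorem kap_eq (hd : 1 ≤ d) : kap d = (volume (ball (0 : V d) 1)).toReal := by
  have : Nonempty (Fin d) := ⟨⟨0, hd⟩⟩
  have : Nontrivial (V d) := inferInstance
  unfold kap
  rw [← Measure.addHaar_closedBall_eq_addHaar_ball, measureReal_def,
    ← mp_emb.measure_preimage measurableSet_closedBall.nullMeasurableSet]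
  congr 2
  ext g
  simp only [mem_ofPred_eq, mem_preimage, mem_closedBall, dist_zero_right]
  exact nrm_le_one g

theorem hit_of {a L : ℝ} {x y g : Fin d → ℝ}
    (h : (emb y, ‖emb g‖⁻¹ • emb g) ∈ At L a (emb x)) : Hit a L x y g := by
  have h1 := near_of_Cy h
  obtain ⟨s, hs⟩ : ∃ s : ℝ, s = inner ℝ (emb x - emb y) (‖emb g‖⁻¹ • emb g) := ⟨_, rfl⟩
  rw [← hs] at h1
  refine ⟨s, h1.1, ?_⟩
  have h2 := h1.2
  rw [EuclideanSpace.norm_eq] at h2
  have h3 : ∀ k, (emb x - (emb y + s • ‖emb g‖⁻¹ • emb g)) k = x k - pt y g s k := by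
    intro k
    rw [PiLp.sub_apply, PiLp.add_apply, PiLp.smul_apply, PiLp.smul_apply, emb_apply, emb_apply,
      emb_apply, norm_emb]
    unfold pt
    simp only [smul_eq_mul]
    ring
  simp only [h3, Real.norm_eq_abs, sq_abs] at h2
  have h4 : 0 < a := lt_of_le_of_lt (Real.sqrt_nonneg _) h2
  rwa [Real.sqrt_lt' h4] at h2

theorem vol_closed (hd : 1 ≤ d) {T : Set (V d)} (hT : MeasurableSet T) :
    volume (closedBall (0 : V d) 1 ∩ {g | ‖g‖⁻¹ • g ∈ T}) =
      volume (ball (0 : V d) 1) * sg d T := by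
  have : Nonempty (Fin d) := ⟨⟨0, hd⟩⟩
  have : Nontrivial (V d) := inferInstance
  rw [sg_apply hT, ← mul_assoc, ENNReal.mul_inv_cancel vol_ball_pos.ne' vol_ball_ne_top, one_mul]
  refine le_antisymm ?_ (measure_mono (inter_subset_inter_left _ ball_subset_closedBall))
  have h1 : closedBall (0 : V d) 1 ∩ {g | ‖g‖⁻¹ • g ∈ T} ⊆
      (ball (0 : V d) 1 ∩ {g | ‖g‖⁻¹ • g ∈ T}) ∪ sphere (0 : V d) 1 := by
    rintro g ⟨h1, h2⟩
    rcases eq_or_ne ‖g‖ 1 with h3 | h3
    · right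
      simpa using h3
    · left
      refine ⟨?_, h2⟩
      rw [mem_ball_zero_iff]
      rw [mem_closedBall_zero_iff] at h1
      exact lt_of_le_of_ne h1 h3
  refine (measure_mono h1).trans ((measure_union_le _ _).trans ?_)
  rw [Measure.addHaar_sphere, add_zero]

/-- The transfer. -/
theorem transfer (hd : 1 ≤ d) {b : Set (V d)} (hb : MeasurableSet b) {U : Set (V d × V d)}
    (hU : MeasurableSet U) {A : Set ((Fin d → ℝ) × (Fin d → ℝ))}
    (hA : ∀ q ∈ A, emb q.1 ∈ b ∧ ‖emb q.2‖ ≤ 1 ∧ (emb q.1, ‖emb q.2‖⁻¹ • emb q.2) ∈ U) :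
    volume A ≤ volume (ball (0 : V d) 1) * mu d (Prod.fst ⁻¹' b ∩ U) := by
  obtain ⟨A2, hA2⟩ : ∃ A2, A2 = {p : V d × V d | p.1 ∈ b ∧ p.2 ∈ closedBall (0 : V d) 1 ∧
    (p.1, ‖p.2‖⁻¹ • p.2) ∈ U} := ⟨_, rfl⟩
  have hf : Measurable fun p : V d × V d => (p.1, ‖p.2‖⁻¹ • p.2) :=
    measurable_fst.prodMk (measurable_nrm.comp measurable_snd)
  have hA2m : MeasurableSet A2 := by
    rw [hA2]
    exact (measurable_fst hb).inter ((measurable_snd measurableSet_closedBall).inter (hf hU))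
  have hmp : MeasurePreserving (Prod.map emb emb : (Fin d → ℝ) × (Fin d → ℝ) → V d × V d)
      (volume.prod volume) (volume.prod volume) := mp_emb.prod mp_emb
  have h1 : A ⊆ Prod.map emb emb ⁻¹' A2 := by
    intro q hq
    rw [hA2]
    obtain ⟨h1, h2, h3⟩ := hA q hq
    exact ⟨h1, by rw [mem_closedBall_zero_iff]; exact h2, h3⟩
  have h2 : volume A ≤ (volume.prod volume) A2 := by
    refine (measure_mono h1).trans (le_of_eq ?_)
    exact hmp.measure_preimage hA2m.nullMeasurableSet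
  refine h2.trans (le_of_eq ?_)
  have hmU : MeasurableSet (Prod.fst ⁻¹' b ∩ U) := (measurable_fst hb).inter hU
  unfold mu
  rw [Measure.prod_apply hA2m, Measure.prod_apply hmU,
    ← lintegral_const_mul _ (measurable_measure_prodMk_left hmU)]
  refine lintegral_congr fun y => ?_
  have hT : MeasurableSet (Prod.mk y ⁻¹' (Prod.fst ⁻¹' b ∩ U)) := measurable_prodMk_left hmU
  rw [← vol_closed hd hT]
  congr 1
  ext g
  rw [hA2]
  simp only [mem_preimage, mem_ofPred_eq, mem_inter_iff]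
  tauto

theorem free_le (hd : 1 ≤ d) {a L h : ℝ} (hh : 0 < h) {S : Set (Fin d → ℝ)} {ι : Type}
    [Fintype ι] {q : ι → V d} (hq : ∀ i, ∃ x ∈ S, q i = emb x) :
    NeedleGas.free d a L h S ≤
      (mu d (Prod.fst ⁻¹' (Cl h 0) ∩ {p | ∀ i, p ∉ At L a (q i)})).toReal / h ^ d := by
  have hU : MeasurableSet {p : V d × V d | ∀ i, p ∉ At L a (q i)} := by
    have : {p : V d × V d | ∀ i, p ∉ At L a (q i)} = ⋂ i, (At L a (q i))ᶜ := by
      ext p; simp
    rw [this]
    exact MeasurableSet.iInter fun i => (measurableSet_At L a (q i)).compl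
  have hkap := kap_pos (d := d)
  have h1 := transfer hd (meas_Cl h 0) hU (A := {q : (Fin d → ℝ) × (Fin d → ℝ) | q.1 ∈ Box d h ∧
    ∑ k, q.2 k ^ 2 ≤ 1 ∧ ∀ x ∈ S, ¬ Hit a L x q.1 q.2}) (by
      rintro ⟨y, g⟩ ⟨h1, h2, h3⟩
      refine ⟨?_, (nrm_le_one g).1 h2, ?_⟩
      · intro k
        have h4 := h1 k
        simp only [Pi.zero_apply, Int.cast_zero, zero_mul, zero_add, one_mul]
        exact h4
      · intro i hi
        obtain ⟨x, hx, hxi⟩ := hq i
        rw [hxi] at hi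
        exact h3 x hx (hit_of hi))
  have hfin : mu d (Prod.fst ⁻¹' (Cl h 0) ∩ {p | ∀ i, p ∉ At L a (q i)}) ≠ ⊤ := by
    refine ne_top_of_le_ne_top ?_ (measure_mono inter_subset_left)
    rw [mu_fst (meas_Cl h 0), vol_Cl hh.le]
    exact ENNReal.ofReal_ne_top
  unfold NeedleGas.free
  rw [kap_eq hd, measureReal_def]
  have h2 := ENNReal.toReal_mono (ENNReal.mul_ne_top vol_ball_ne_top hfin) h1
  rw [ENNReal.toReal_mul] at h2
  rw [div_le_div_iff₀ (by positivity) (by positivity)]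
  have hhd : 0 < h ^ d := by positivity
  nlinarith

end Pool.Agent.Needle
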