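import Pool.Agent.Lib.MP_09cbbd_ndg.GBath
import Pool.Agent.Lib.MP_09cbbd_ndg.GLemB

/-!
# First moments, tubes
-/

set_option autoImplicit false

namespace Pool.Agent.Needle

open MeasureTheory Metric Set

variable {d : ℕ}

theorem mu_fst {S : Set (V d)} (hS : MeasurableSet S) : mu d (Prod.fst ⁻¹' S) = volume S := by
  rw [mu_apply (measurable_fst hS)]
  simp

theorem mu_fst_inter_At (L a : ℝ) {S : Set (V d)} (hS : MeasurableSet S) (x : V d) :
    mu d (Prod.fst ⁻¹' S ∩ At L a x) = ∫⁻ y in S, sg d {θ | x - y ∈ Cy L a θ} := by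
  unfold mu
  rw [Measure.prod_apply ((measurable_fst hS).inter (measurableSet_At L a x)),
    ← lintegral_indicator hS]
  refine lintegral_congr fun y => ?_
  by_cases h : y ∈ S
  · rw [indicator_of_mem h]
    congr 1
    ext θ
    simp [At, h]
  · rw [indicator_of_notMem h]
    convert measure_empty (μ := sg d)
    refine eq_empty_of_forall_notMem ?_
    rintro θ ⟨g1, -⟩
    exact h g1

/-- Lower bound of the first moment. -/
theorem first_moment (hd : 1 ≤ d) {S Y : Set (V d)} (hS : MeasurableSet S) (hY : MeasurableSet Y)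
    {L a D : ℝ} (ha : 0 < a) (haD : a ≤ D) (hDL : D ≤ L / 2)
    (h : ∀ x ∈ Y, ∀ y ∈ S, ‖x - y‖ ≤ D) :
    ENNReal.ofReal (c3 d * (a / D) ^ (d - 1)) * (volume S * volume Y) ≤
      ∫⁻ p in Prod.fst ⁻¹' S, tub L a Y p ∂(mu d) := by
  have h1 : ∫⁻ p in Prod.fst ⁻¹' S, tub L a Y p ∂(mu d) =
      ∫⁻ x in Y, mu d (Prod.fst ⁻¹' S ∩ At L a x) := by
    simp only [tub_eq]
    rw [lintegral_lintegral_swap]
    · refine lintegral_congr fun x => ?_
      have h2 : ∀ p : V d × V d, (At L a x).indicator (fun _ => (1 : ENNReal)) p =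
          (At L a x).indicator 1 p := fun p => rfl
      simp only [h2]
      rw [lintegral_indicator_one (measurableSet_At L a x),
        Measure.restrict_apply (measurableSet_At L a x), inter_comm]
    · exact (measurable_ind L a).aemeasurable
  rw [h1]
  have h3 : ∀ x ∈ Y, ENNReal.ofReal (c3 d * (a / D) ^ (d - 1)) * volume S ≤
      mu d (Prod.fst ⁻¹' S ∩ At L a x) := by
    intro x hx
    rw [mu_fst_inter_At L a hS x, ← setLIntegral_const]
    exact setLIntegral_mono' hS fun y hy => le_cap hd ha haD hDL (h x hx y hy)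
  calc ENNReal.ofReal (c3 d * (a / D) ^ (d - 1)) * (volume S * volume Y)
      = ∫⁻ _x in Y, ENNReal.ofReal (c3 d * (a / D) ^ (d - 1)) * volume S := by
        rw [setLIntegral_const, mul_assoc]
    _ ≤ _ := setLIntegral_mono' hY h3

/-- The points of `Y` whose cylinder meets `Y` in a small volume are rare. -/
theorem tube_low (hd : 1 ≤ d) {b Y : Set (V d)} (hbm : MeasurableSet b) (hYm : MeasurableSet Y)
    {L a h D : ℝ} (ha : 0 < a) (hh : 0 < h) (hL : h ≤ L / 2)
    (hb : ∀ x ∈ b, ∀ y ∈ b, ‖x - y‖ ≤ D) {θ : V d} (hθ : ‖θ‖ = 1) (τ : ENNReal) :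
    ENNReal.ofReal (h * (a / (2 * d)) ^ (d - 1)) *
        volume {y | y ∈ b ∧ y ∈ Y ∧ tub L a Y (y, θ) < τ} ≤
      τ * volume (ball (0 : V d) (D + h + a)) := by
  obtain ⟨G, hG⟩ : ∃ G, G = {y | y ∈ b ∧ y ∈ Y ∧ tub L a Y (y, θ) < τ} := ⟨_, rfl⟩
  rw [← hG]
  have hGm : MeasurableSet G := by
    rw [hG]
    refine hbm.inter (hYm.inter ?_)
    have h1 : Measurable fun y : V d => tub L a Y (y, θ) :=
      (measurable_tub L a Y).comp (measurable_id.prodMk measurable_const)
    exact measurableSet_lt h1 measurable_const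
  rcases Set.eq_empty_or_nonempty G with h0 | ⟨y0, hy0⟩
  · rw [h0, measure_empty, mul_zero]
    exact zero_le
  obtain ⟨t, ht⟩ : ∃ t, t = {u : V d | 0 ≤ (inner ℝ u θ : ℝ) ∧ (inner ℝ u θ : ℝ) ≤ h ∧
    ‖u - (inner ℝ u θ : ℝ) • θ‖ < a / 2} := ⟨_, rfl⟩
  have htm : MeasurableSet t := by
    rw [ht]
    have k1 : Continuous fun g : V d => (inner ℝ g θ : ℝ) := by fun_prop
    have k2 : Continuous fun g : V d => ‖g - (inner ℝ g θ : ℝ) • θ‖ := by fun_prop
    exact (measurableSet_le measurable_const k1.measurable).inter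
      ((measurableSet_le k1.measurable measurable_const).inter
        (measurableSet_lt k2.measurable measurable_const))
  have hvt : ENNReal.ofReal (h * (a / (2 * d)) ^ (d - 1)) ≤ volume t := by
    have h1 := le_box hd θ hθ 0 h (a / 2) hh.le (by positivity)
    rw [ht]
    refine le_trans (le_of_eq ?_) h1
    congr 1
    rw [sub_zero]
    congr 2
    field_simp
  have hmA : MeasurableSet {r : V d × V d | r.2 ∈ G ∧ r.1 - r.2 ∈ t} :=
    (measurable_snd hGm).inter ((measurable_fst.sub measurable_snd) htm)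
  -- Tonelli
  have hT : ∫⁻ x : V d, volume {y | y ∈ G ∧ x - y ∈ t} = volume G * volume t := by
    have e1 : ∫⁻ x : V d, volume {y | y ∈ G ∧ x - y ∈ t} =
        (volume.prod volume) {r : V d × V d | r.2 ∈ G ∧ r.1 - r.2 ∈ t} := by
      rw [Measure.prod_apply hmA]
      rfl
    have e2 : (volume.prod volume) {r : V d × V d | r.2 ∈ G ∧ r.1 - r.2 ∈ t} =
        ∫⁻ y : V d, G.indicator (fun _ => volume t) y := by
      rw [Measure.prod_apply_symm hmA]
      refine lintegral_congr fun y => ?_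
      by_cases hy : y ∈ G
      · rw [indicator_of_mem hy]
        have e3 : (fun x => (x, y)) ⁻¹' {r : V d × V d | r.2 ∈ G ∧ r.1 - r.2 ∈ t} =
            (fun x => x - y) ⁻¹' t := by
          ext x
          simp [hy]
        rw [e3]
        exact (measurePreserving_sub_right (volume : Measure (V d)) y).measure_preimage
          htm.nullMeasurableSet
      · rw [indicator_of_notMem hy]
        convert measure_empty (μ := (volume : Measure (V d)))
        refine eq_empty_of_forall_notMem ?_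
        rintro x ⟨g1, -⟩
        exact hy g1
    rw [e1, e2, lintegral_indicator_const hGm, mul_comm]
  have hpt : ∀ x : V d, volume {y | y ∈ G ∧ x - y ∈ t} ≤
      (ball y0 (D + h + a)).indicator (fun _ => τ) x := by
    intro x
    rcases Set.eq_empty_or_nonempty {y | y ∈ G ∧ x - y ∈ t} with h1 | ⟨p, hp1, hp2⟩
    · rw [h1, measure_empty]
      exact zero_le
    · have hx : x ∈ ball y0 (D + h + a) := by
        rw [mem_ball_iff_norm]
        have h2 : ‖x - p‖ ≤ ‖x - p - (inner ℝ (x - p) θ : ℝ) • θ‖ + |(inner ℝ (x - p) θ : ℝ)| := by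
          have := norm_add_le (x - p - (inner ℝ (x - p) θ : ℝ) • θ) ((inner ℝ (x - p) θ : ℝ) • θ)
          rw [sub_add_cancel, norm_smul, hθ, mul_one, Real.norm_eq_abs] at this
          exact this
        rw [ht] at hp2
        obtain ⟨g1, g2, g3⟩ := hp2
        have g4 : |(inner ℝ (x - p) θ : ℝ)| ≤ h := by
          rw [abs_of_nonneg g1]
          exact g2
        have h3 : ‖p - y0‖ ≤ D := by
          rw [hG] at hp1 hy0
          exact hb p hp1.1 y0 hy0.1
        have h4 := norm_add_le (x - p) (p - y0)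
        rw [sub_add_sub_cancel] at h4
        linarith
      rw [indicator_of_mem hx]
      have h5 : {y | y ∈ G ∧ x - y ∈ t} ⊆ Y ∩ {z | z - p ∈ Cy L a θ} := by
        rintro y ⟨hy1, hy2⟩
        refine ⟨by rw [hG] at hy1; exact hy1.2.1, ?_⟩
        rw [ht] at hy2 hp2
        obtain ⟨g1, g2, g3⟩ := hp2
        obtain ⟨k1, k2, k3⟩ := hy2
        have e : (x - p) - (x - y) = y - p := by abel
        constructor
        · rw [← e, inner_sub_left, abs_le]
          constructor <;> linarith
        · have := perp_add θ (x - p) (x - y)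
          rw [e] at this
          linarith
      refine (measure_mono h5).trans ?_
      rw [hG] at hp1
      exact hp1.2.2.le
  calc ENNReal.ofReal (h * (a / (2 * d)) ^ (d - 1)) * volume G ≤ volume t * volume G :=
        mul_le_mul' hvt le_rfl
    _ = ∫⁻ x : V d, volume {y | y ∈ G ∧ x - y ∈ t} := by rw [hT, mul_comm]
    _ ≤ ∫⁻ x : V d, (ball y0 (D + h + a)).indicator (fun _ => τ) x := lintegral_mono hpt
    _ = τ * volume (ball y0 (D + h + a)) := lintegral_indicator_const measurableSet_ball _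
    _ = _ := by rw [Measure.addHaar_ball_center]

theorem mu_tube_low (hd : 1 ≤ d) {b Y : Set (V d)} (hbm : MeasurableSet b) (hYm : MeasurableSet Y)
    {L a h D : ℝ} (ha : 0 < a) (hh : 0 < h) (hL : h ≤ L / 2)
    (hb : ∀ x ∈ b, ∀ y ∈ b, ‖x - y‖ ≤ D) (τ : ENNReal) :
    ENNReal.ofReal (h * (a / (2 * d)) ^ (d - 1)) *
        mu d {p | p.1 ∈ b ∧ p.1 ∈ Y ∧ tub L a Y p < τ} ≤
      τ * volume (ball (0 : V d) (D + h + a)) := by
  have hm : MeasurableSet {p : V d × V d | p.1 ∈ b ∧ p.1 ∈ Y ∧ tub L a Y p < τ} :=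
    (measurable_fst hbm).inter ((measurable_fst hYm).inter
      (measurableSet_lt (measurable_tub L a Y) measurable_const))
  have hmm : Measurable fun θ : V d => (volume : Measure (V d))
      {y | (y, θ) ∈ {p : V d × V d | p.1 ∈ b ∧ p.1 ∈ Y ∧ tub L a Y p < τ}} :=
    measurable_measure_prodMk_right hm
  rw [mu_apply hm, ← lintegral_const_mul _ hmm]
  have h1 : ∀ᵐ θ ∂(sg d), ENNReal.ofReal (h * (a / (2 * d)) ^ (d - 1)) *
      volume {y | (y, θ) ∈ {p : V d × V d | p.1 ∈ b ∧ p.1 ∈ Y ∧ tub L a Y p < τ}} ≤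
      τ * volume (ball (0 : V d) (D + h + a)) := by
    filter_upwards [ae_norm hd] with θ hθ
    exact tube_low hd hbm hYm ha hh hL hb hθ τ
  refine (lintegral_mono_ae h1).trans ?_
  rw [lintegral_const, measure_univ, mul_one]

theorem tub_le_W (hd : 1 ≤ d) (L a : ℝ) (Y : Set (V d)) :
    ∀ᵐ p ∂(mu d), tub L a Y p ≤ W d L a := by
  have h3 : ∀ᵐ p ∂(mu d), ‖p.2‖ = 1 := by
    unfold mu
    exact Measure.quasiMeasurePreserving_snd.ae (ae_norm hd)
  filter_upwards [h3] with p hp
  rw [← volume_Cy_W hd hp]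
  refine (measure_mono inter_subset_right).trans (le_of_eq ?_)
  exact (measurePreserving_sub_right (volume : Measure (V d)) p.1).measure_preimage
    (measurableSet_Cy L a p.2).nullMeasurableSet

end Pool.Agent.Needle
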