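import Pool.Agent.Lib.MP_09cbbd_ndg.GBas

/-!
# Volumes of cylinders and caps
-/

set_option autoImplicit false

namespace Pool.Agent.Needle

open MeasureTheory Metric Set

variable {d : ℕ}

/-
ROW GV. Let e be the first unit vector. (1) box_le: the set is contained in the box |g_0| between, |g_k| <= rho (k /= 0):
g - <g,e> e has coordinates 0, g_1, ..., each |g_k| <= norm. volume of a box in EuclideanSpace: transfer with
(PiLp.volume_preserving_toLp _) / volume_preserving_ofLp and Real.volume_pi_Icc or volume_pi_pi. (2) le_box: contains the box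
|g_k| < rho / sqrt d (d - 1 coordinates: sum of squares < rho^2).
-/
-- BEGIN ROW GV
theorem vol_pi (I : Fin d → Set ℝ) (hI : ∀ k, MeasurableSet (I k)) :
    volume {g : V d | ∀ k, g k ∈ I k} = ∏ k, volume (I k) := by
  have h := (PiLp.volume_preserving_ofLp (Fin d)).measure_preimage
    ((MeasurableSet.univ_pi hI).nullMeasurableSet : NullMeasurableSet (Set.univ.pi I) volume)
  rw [volume_pi_pi] at h
  rw [← h]
  congr 1
  ext g
  simp

theorem prod_split (hd : 1 ≤ d) (x y : ENNReal) :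
    ∏ k : Fin d, (if k = ⟨0, hd⟩ then x else y) = x * y ^ (d - 1) := by
  obtain ⟨n, rfl⟩ : ∃ n, d = n + 1 := ⟨d - 1, by omega⟩
  rw [Fin.prod_univ_succ]
  have h0 : (⟨0, hd⟩ : Fin (n + 1)) = 0 := rfl
  rw [h0, if_pos rfl]
  congr 1
  simp

/-- The first unit vector. -/
noncomputable def e0 (hd : 1 ≤ d) : V d := EuclideanSpace.single (⟨0, hd⟩ : Fin d) (1 : ℝ)

theorem norm_e0 (hd : 1 ≤ d) : ‖e0 hd‖ = 1 := by simp [e0]

theorem e0_apply (hd : 1 ≤ d) (k : Fin d) : e0 hd k = if k = ⟨0, hd⟩ then 1 else 0 := by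
  simp [e0, Pi.single_apply]

theorem box_eq (hd : 1 ≤ d) (e : V d) (he : ‖e‖ = 1) (P : ℝ → ℝ → Prop) :
    volume {g : V d | P (inner ℝ g e : ℝ) ‖g - (inner ℝ g e : ℝ) • e‖} =
      volume {g : V d | P (g ⟨0, hd⟩) ‖g - (g ⟨0, hd⟩) • e0 hd‖} := by
  obtain ⟨R, hR⟩ := exists_iso (v := e) (w := e0 hd) (by rw [he, norm_e0])
  have h := R.measurePreserving.measure_preimage_equiv (f := R.toHomeomorph.toMeasurableEquiv)
    {g : V d | P (g ⟨0, hd⟩) ‖g - (g ⟨0, hd⟩) • e0 hd‖}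
  rw [← h]
  congr 1
  ext g
  simp only [mem_preimage, mem_ofPred_eq]
  have h1 : (R g) ⟨0, hd⟩ = (inner ℝ g e : ℝ) := by
    rw [← R.inner_map_map g e, hR, e0, EuclideanSpace.inner_single_right]
    simp
  have h2 : (R.toHomeomorph.toMeasurableEquiv g) = R g := rfl
  rw [h2, h1]
  have h3 : R g - (inner ℝ g e : ℝ) • e0 hd =
      R (g - (inner ℝ g e : ℝ) • e) := by
    rw [map_sub, map_smul, hR]
  rw [h3, R.norm_map]

theorem coord_sub (hd : 1 ≤ d) (g : V d) (k : Fin d) :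
    (g - (g ⟨0, hd⟩) • e0 hd) k =
      if k = ⟨0, hd⟩ then 0 else g k := by
  rw [PiLp.sub_apply, PiLp.smul_apply, smul_eq_mul, e0_apply]
  by_cases hk : k = ⟨0, hd⟩
  · subst hk
    simp
  · simp [hk]

theorem box_le (hd : 1 ≤ d) (e : V d) (he : ‖e‖ = 1) (α β ρ : ℝ) (hαβ : α ≤ β) (hρ : 0 ≤ ρ) :
    volume {g : V d | α ≤ (inner ℝ g e : ℝ) ∧ (inner ℝ g e : ℝ) ≤ β ∧
      ‖g - (inner ℝ g e : ℝ) • e‖ ≤ ρ} ≤ ENNReal.ofReal ((β - α) * (2 * ρ) ^ (d - 1)) := by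
  rw [box_eq hd e he (fun u w => α ≤ u ∧ u ≤ β ∧ w ≤ ρ)]
  have h1 : {g : V d | α ≤ g ⟨0, hd⟩ ∧ g ⟨0, hd⟩ ≤ β ∧
      ‖g - (g ⟨0, hd⟩) • e0 hd‖ ≤ ρ} ⊆
      {g : V d | ∀ k, g k ∈ (fun k => if k = ⟨0, hd⟩ then Icc α β else Icc (-ρ) ρ) k} := by
    rintro g ⟨g1, g2, g3⟩ k
    by_cases hk : k = ⟨0, hd⟩
    · subst hk
      simp [g1, g2]
    · simp only [if_neg hk]
      have h2 := PiLp.norm_apply_le (g - (g ⟨0, hd⟩) • e0 hd) k
      rw [coord_sub, if_neg hk, Real.norm_eq_abs] at h2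
      exact abs_le.1 (h2.trans g3)
  refine (measure_mono h1).trans ?_
  rw [vol_pi _ (fun k => by
    show MeasurableSet (if k = ⟨0, hd⟩ then Icc α β else Icc (-ρ) ρ)
    split_ifs <;> exact measurableSet_Icc)]
  have h3 : ∀ k : Fin d, volume (if k = ⟨0, hd⟩ then Icc α β else Icc (-ρ) ρ) =
      if k = ⟨0, hd⟩ then ENNReal.ofReal (β - α) else ENNReal.ofReal (2 * ρ) := by
    intro k
    split_ifs
    · exact Real.volume_Icc
    · rw [Real.volume_Icc]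
      congr 1
      ring
  simp only [h3]
  rw [prod_split, ENNReal.ofReal_mul (p := β - α) (by linarith),
    ENNReal.ofReal_pow (p := 2 * ρ) (by positivity)]

theorem le_box (hd : 1 ≤ d) (e : V d) (he : ‖e‖ = 1) (α β ρ : ℝ) (hαβ : α ≤ β) (hρ : 0 < ρ) :
    ENNReal.ofReal ((β - α) * (ρ / d) ^ (d - 1)) ≤
      volume {g : V d | α ≤ (inner ℝ g e : ℝ) ∧ (inner ℝ g e : ℝ) ≤ β ∧
        ‖g - (inner ℝ g e : ℝ) • e‖ < ρ} := by
  have hd0 : (0 : ℝ) < d := by exact_mod_cast hd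
  rw [box_eq hd e he (fun u w => α ≤ u ∧ u ≤ β ∧ w < ρ)]
  have h1 : {g : V d | ∀ k, g k ∈ (fun k => if k = ⟨0, hd⟩ then Icc α β else
      Ioo (-(ρ / (2 * d))) (ρ / (2 * d))) k} ⊆ {g : V d | α ≤ g ⟨0, hd⟩ ∧ g ⟨0, hd⟩ ≤ β ∧
      ‖g - (g ⟨0, hd⟩) • e0 hd‖ < ρ} := by
    intro g hg
    have h2 := hg ⟨0, hd⟩
    simp only [if_pos] at h2
    refine ⟨h2.1, h2.2, ?_⟩
    have h3 : ∀ k, ‖(g - (g ⟨0, hd⟩) • e0 hd) k‖ ≤ ρ / (2 * d) := by
      intro k
      rw [coord_sub]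
      split_ifs with hk
      · rw [norm_zero]; positivity
      · have h4 := hg k
        simp only [if_neg hk] at h4
        rw [Real.norm_eq_abs, abs_le]
        exact ⟨h4.1.le, h4.2.le⟩
    rw [EuclideanSpace.norm_eq]
    have h5 : ∑ k, ‖(g - (g ⟨0, hd⟩) • e0 hd) k‖ ^ 2 ≤
        ∑ _k : Fin d, (ρ / (2 * d)) ^ 2 := Finset.sum_le_sum fun k _ => by
      have := h3 k
      gcongr
    rw [Real.sqrt_lt' hρ]
    refine lt_of_le_of_lt h5 ?_
    rw [Finset.sum_const, Finset.card_univ, Fintype.card_fin, nsmul_eq_mul]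
    have h6 : (d : ℝ) * (ρ / (2 * d)) ^ 2 = ρ ^ 2 / (4 * d) := by field_simp; ring
    rw [h6, div_lt_iff₀ (by positivity)]
    have h7 : (1 : ℝ) ≤ d := by exact_mod_cast hd
    nlinarith [pow_pos hρ 2]
  refine le_trans ?_ (measure_mono h1)
  rw [vol_pi _ (fun k => by
    show MeasurableSet (if k = ⟨0, hd⟩ then Icc α β else Ioo (-(ρ / (2 * d))) (ρ / (2 * d)))
    split_ifs
    · exact measurableSet_Icc
    · exact measurableSet_Ioo)]
  have h3 : ∀ k : Fin d, volume (if k = ⟨0, hd⟩ then Icc α β else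
      Ioo (-(ρ / (2 * d))) (ρ / (2 * d))) =
      if k = ⟨0, hd⟩ then ENNReal.ofReal (β - α) else ENNReal.ofReal (ρ / d) := by
    intro k
    split_ifs
    · exact Real.volume_Icc
    · rw [Real.volume_Ioo]
      congr 1
      field_simp
      ring
  simp only [h3]
  rw [prod_split, ENNReal.ofReal_mul (p := β - α) (by linarith),
    ENNReal.ofReal_pow (p := ρ / d) (by positivity)]
-- END ROW GV

/-! ### Volume of the cylinder -/

theorem volume_Cy_le (hd : 1 ≤ d) {L a : ℝ} (hL : 0 ≤ L) (ha : 0 ≤ a) {θ : V d} (hθ : ‖θ‖ = 1) :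
    volume (Cy L a θ) ≤ ENNReal.ofReal (L * (2 * a) ^ (d - 1)) := by
  refine le_trans (measure_mono ?_) ((box_le hd θ hθ (-(L / 2)) (L / 2) a (by linarith) ha).trans
    (le_of_eq ?_))
  · rintro g ⟨h1, h2⟩
    exact ⟨(abs_le.1 h1).1, (abs_le.1 h1).2, h2.le⟩
  · congr 1
    ring

theorem le_volume_Cy (hd : 1 ≤ d) {L a : ℝ} (hL : 0 ≤ L) (ha : 0 < a) {θ : V d} (hθ : ‖θ‖ = 1) :
    ENNReal.ofReal (L * (a / d) ^ (d - 1)) ≤ volume (Cy L a θ) := by
  refine le_trans (le_of_eq ?_) ((le_box hd θ hθ (-(L / 2)) (L / 2) a (by linarith) ha).trans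
    (measure_mono ?_))
  · congr 1
    ring
  · rintro g ⟨h1, h2, h3⟩
    exact ⟨abs_le.2 ⟨h1, h2⟩, h3⟩

theorem volume_Cy_iso {L a : ℝ} (R : V d ≃ₗᵢ[ℝ] V d) (θ : V d) :
    volume (Cy L a (R θ)) = volume (Cy L a θ) := by
  rw [← R.measurePreserving.measure_preimage (measurableSet_Cy L a (R θ)).nullMeasurableSet]
  congr 1
  ext u
  exact map_mem_Cy R

theorem volume_Cy_eq {L a : ℝ} {θ θ' : V d} (h : ‖θ‖ = ‖θ'‖) :
    volume (Cy L a θ) = volume (Cy L a θ') := by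
  obtain ⟨R, hR⟩ := exists_iso h
  rw [← hR, volume_Cy_iso]

theorem volume_Cy_W (hd : 1 ≤ d) {L a : ℝ} {θ : V d} (hθ : ‖θ‖ = 1) :
    volume (Cy L a θ) = W d L a := by
  unfold W
  have h : ∫⁻ θ', volume (Cy L a θ') ∂(sg d) = ∫⁻ _θ' : V d, volume (Cy L a θ) ∂(sg d) := by
    refine lintegral_congr_ae ?_
    filter_upwards [ae_norm hd] with θ' hθ'
    exact volume_Cy_eq (by rw [hθ', hθ])
  rw [h, lintegral_const, measure_univ, mul_one]

theorem exists_unit (hd : 1 ≤ d) : ∃ e : V d, ‖e‖ = 1 :=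
  ⟨EuclideanSpace.single ⟨0, hd⟩ 1, by simp⟩

theorem W_le (hd : 1 ≤ d) {L a : ℝ} (hL : 0 ≤ L) (ha : 0 ≤ a) :
    W d L a ≤ ENNReal.ofReal (L * (2 * a) ^ (d - 1)) := by
  obtain ⟨e, he⟩ := exists_unit hd
  rw [← volume_Cy_W hd he]
  exact volume_Cy_le hd hL ha he

theorem le_W (hd : 1 ≤ d) {L a : ℝ} (hL : 0 ≤ L) (ha : 0 < a) :
    ENNReal.ofReal (L * (a / d) ^ (d - 1)) ≤ W d L a := by
  obtain ⟨e, he⟩ := exists_unit hd
  rw [← volume_Cy_W hd he]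
  exact le_volume_Cy hd hL ha he

end Pool.Agent.Needle
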