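import Pool.Agent.Lib.MP_09cbbd_ndg.GP1
import Pool.Agent.Lib.MP_09cbbd_ndg.GP2
import Pool.Agent.Lib.MP_09cbbd_ndg.GP4
import Pool.Agent.Lib.MP_09cbbd_ndg.GTr

/-!
# The geometric facts on the free needles
-/

set_option autoImplicit false

namespace Pool.Agent.Needle

open MeasureTheory Metric Set Pool.Agent.NeedleGas

variable {d : ℕ}

open scoped Classical in
/-- The occupied cells. -/
noncomputable def occ (l : ℝ) (S : Set (Fin d → ℝ)) (A : Finset (Fin d → ℤ)) :
    Finset (Fin d → ℤ) :=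
  A.filter fun v => ∃ x ∈ S, x ∈ cell l v

theorem mem_occ {l : ℝ} {S : Set (Fin d → ℝ)} {A : Finset (Fin d → ℤ)} {v : Fin d → ℤ} :
    v ∈ occ l S A ↔ v ∈ A ∧ ∃ x ∈ S, x ∈ cell l v := by
  simp only [occ, Finset.mem_filter]

theorem phi_eq (K : ℕ) (l : ℝ) (S : Set (Fin d → ℝ)) (b : Fin d → ℤ) :
    phi K l S b = ((occ l S (cells K b)).card : ℝ) / (K : ℝ) ^ d := rfl

theorem vol_occ {K : ℕ} {l : ℝ} (hl : 0 < l) (S : Set (Fin d → ℝ)) (b : Fin d → ℤ) :
    (volume (⋃ v : occ l S (cells K b), Cl l v.1)).toReal / (K * l) ^ d = phi K l S b := by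
  rw [vol_family hl, ENNReal.toReal_ofReal (by positivity), phi_eq, mul_pow,
    mul_div_mul_right _ _ (by positivity : l ^ d ≠ 0)]

theorem occ_sub {K : ℕ} {l : ℝ} (hl : 0 < l) (S : Set (Fin d → ℝ)) (b : Fin d → ℤ) :
    (⋃ v : occ l S (cells K b), Cl l v.1) ⊆ Cl (K * l) b :=
  iUnion_subset fun v => Cl_sub hl.le (mem_occ.1 v.2).1

/-- The cells of the blocks with coordinates of absolute value at most `m`. -/
noncomputable def RC (d K m : ℕ) : Finset (Fin d → ℤ) :=
  Fintype.piFinset fun _ => Finset.Ico (-((m * K : ℕ) : ℤ)) (((m + 1) * K : ℕ) : ℤ)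

theorem card_RC (d K m : ℕ) : (RC d K m).card = ((2 * m + 1) * K) ^ d := by
  unfold RC
  rw [Fintype.card_piFinset]
  have : ∀ _k : Fin d, (Finset.Ico (-((m * K : ℕ) : ℤ)) (((m + 1) * K : ℕ) : ℤ)).card =
      (2 * m + 1) * K := by
    intro _
    rw [Int.card_Ico]
    have : ((((m + 1) * K : ℕ) : ℤ) - -((m * K : ℕ) : ℤ)) = (((2 * m + 1) * K : ℕ) : ℤ) := by
      push_cast
      ring
    rw [this]
    exact Int.toNat_natCast _
  rw [Finset.prod_congr rfl (fun k _ => this k), Finset.prod_const, Finset.card_univ,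
    Fintype.card_fin]

/-- The number of the empty cells. -/
theorem card_empty {K m : ℕ} (hK : 0 < K) (l : ℝ) (S : Set (Fin d → ℝ)) {ξ : ℝ}
    (h : ∀ b : Fin d → ℤ, (∀ k, |b k| ≤ (m : ℤ)) → 1 - ξ ≤ phi K l S b) :
    (((RC d K m) \ occ l S (RC d K m)).card : ℝ) ≤ ξ * ((2 * m + 1) * K) ^ d := by
  have h1 : (RC d K m) \ occ l S (RC d K m) ⊆
      (Fintype.piFinset fun _ : Fin d => Finset.Icc (-(m : ℤ)) m).biUnion fun b =>
        cells K b \ occ l S (cells K b) := by
    intro v hv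
    rw [Finset.mem_sdiff] at hv
    obtain ⟨hv1, hv2⟩ := hv
    have hK' : (0 : ℤ) < K := by exact_mod_cast hK
    have hv3 := fun k => Finset.mem_Ico.1 (Fintype.mem_piFinset.1 hv1 k)
    rw [Finset.mem_biUnion]
    refine ⟨fun k => v k / K, ?_, ?_⟩
    · rw [Fintype.mem_piFinset]
      intro k
      rw [Finset.mem_Icc]
      obtain ⟨g1, g2⟩ := hv3 k
      push_cast at g1 g2
      constructor
      · rw [Int.le_ediv_iff_mul_le hK']
        linarith
      · have : v k / K < (m : ℤ) + 1 := by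
          rw [Int.ediv_lt_iff_lt_mul hK']
          linarith
        omega
    · rw [Finset.mem_sdiff]
      refine ⟨?_, fun h2 => hv2 (mem_occ.2 ⟨hv1, (mem_occ.1 h2).2⟩)⟩
      unfold cells
      rw [Fintype.mem_piFinset]
      intro k
      rw [Finset.mem_Ico]
      constructor
      · exact Int.ediv_mul_le (v k) hK'.ne'
      · have := Int.lt_ediv_add_one_mul_self (v k) hK'
        exact this
  have h2 : ∀ b : Fin d → ℤ, (∀ k, |b k| ≤ (m : ℤ)) →
      ((cells K b \ occ l S (cells K b)).card : ℝ) ≤ ξ * (K : ℝ) ^ d := by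
    intro b hb
    have h3 := h b hb
    rw [phi_eq, le_div_iff₀ (by positivity)] at h3
    have h4 : occ l S (cells K b) ⊆ cells K b := fun v hv => (mem_occ.1 hv).1
    have h5 := Finset.card_sdiff_add_card_eq_card h4
    rw [card_cells] at h5
    have h6 : ((cells K b \ occ l S (cells K b)).card : ℝ) + (occ l S (cells K b)).card =
        (K : ℝ) ^ d := by exact_mod_cast h5
    nlinarith
  have h3 := (Finset.card_le_card h1).trans Finset.card_biUnion_le
  have h4 : (((RC d K m) \ occ l S (RC d K m)).card : ℝ) ≤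
      ∑ b ∈ (Fintype.piFinset fun _ : Fin d => Finset.Icc (-(m : ℤ)) m),
        ((cells K b \ occ l S (cells K b)).card : ℝ) := by exact_mod_cast h3
  refine h4.trans ?_
  have h5 : ∑ b ∈ (Fintype.piFinset fun _ : Fin d => Finset.Icc (-(m : ℤ)) m),
        ((cells K b \ occ l S (cells K b)).card : ℝ) ≤
      ∑ _b ∈ (Fintype.piFinset fun _ : Fin d => Finset.Icc (-(m : ℤ)) m), ξ * (K : ℝ) ^ d := by
    refine Finset.sum_le_sum fun b hb => h2 b fun k => ?_
    have := Finset.mem_Icc.1 (Fintype.mem_piFinset.1 hb k)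
    rw [abs_le]
    exact this
  refine h5.trans (le_of_eq ?_)
  rw [Finset.sum_const, Fintype.card_piFinset]
  have h6 : ∀ _k : Fin d, (Finset.Icc (-(m : ℤ)) m).card = 2 * m + 1 := by
    intro _
    rw [Int.card_Icc]
    omega
  rw [Finset.prod_congr rfl (fun k _ => h6 k), Finset.prod_const, Finset.card_univ,
    Fintype.card_fin, nsmul_eq_mul]
  push_cast
  rw [mul_pow]
  ring

/-- The region of the blocks. -/
def Rg (d : ℕ) (h : ℝ) (m : ℕ) : Set (V d) :=
  {y | ∀ k, -(m * h) ≤ y k ∧ y k < (m + 1) * h}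

theorem Rg_sub {K m : ℕ} (l : ℝ) (hl : 0 < l) (S : Set (Fin d → ℝ)) :
    Rg d (K * l) m \ (⋃ v : occ l S (RC d K m), Cl l v.1) ⊆
      ⋃ v : (RC d K m \ occ l S (RC d K m) : Finset (Fin d → ℤ)), Cl l v.1 := by
  rintro y ⟨hy1, hy2⟩
  obtain ⟨v, hv⟩ : ∃ v : Fin d → ℤ, v = fun k => ⌊y k / l⌋ := ⟨_, rfl⟩
  have hyv : y ∈ Cl l v := by
    intro k
    rw [hv]
    constructor
    · rw [← le_div_iff₀ hl]
      exact Int.floor_le _
    · rw [← div_lt_iff₀ hl]
      exact Int.lt_floor_add_one _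
  have hvR : v ∈ RC d K m := by
    unfold RC
    rw [Fintype.mem_piFinset]
    intro k
    rw [Finset.mem_Ico, hv]
    have h1 := hy1 k
    constructor
    · refine Int.le_floor.2 ?_
      rw [le_div_iff₀ hl]
      push_cast
      linarith [h1.1]
    · rw [Int.floor_lt, div_lt_iff₀ hl]
      push_cast
      linarith [h1.2]
  rw [mem_iUnion]
  refine ⟨⟨v, ?_⟩, hyv⟩
  rw [Finset.mem_sdiff]
  refine ⟨hvR, fun h => hy2 ?_⟩
  rw [mem_iUnion]
  exact ⟨⟨v, h⟩, hyv⟩

end Pool.Agent.Needle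

namespace Pool.Agent.NeedleGas

open MeasureTheory Metric Set Pool.Agent.Needle

/-- The geometric facts on the free needles: block `0` of `K ^ d` cells of side `l`, side
`h = K l`, needles of length `16 d h`. -/
theorem geo (d : ℕ) (hd : 2 ≤ d) : ∃ c C x0 : ℝ, 0 < c ∧ 0 < C ∧ 0 < x0 ∧ x0 ≤ 1 / 2 ∧
    ∀ x : ℝ, 0 < x → x ≤ x0 → ∀ a : ℝ, 0 < a → ∀ l1 : ℝ, a ≤ l1 → ∀ ε : ℝ, 0 < ε →
    ∃ K0 : ℕ, 0 < K0 ∧ ∀ K : ℕ, K0 ≤ K → ∀ l : ℝ, l1 ≤ l → l ≤ 2 * l1 → ∀ S : Set (Fin d → ℝ),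
      (NeedleGas.free d a (16 * d * (K * l)) (K * l) S + phi K l S 0 ≤ 1 + ε) ∧
      (x ^ (4 * d + 2) ≤ phi K l S 0 → phi K l S 0 ≤ 1 - x ^ (4 * d) →
        NeedleGas.free d a (16 * d * (K * l)) (K * l) S + phi K l S 0 ≤ 1 - c * x ^ (4 * d)) ∧
      ((∃ b : Fin d → ℤ, (∀ k, |b k| ≤ 1) ∧ 1 - x ^ (4 * d) ≤ phi K l S b) →
        phi K l S 0 ≤ x ^ (4 * d) →
        NeedleGas.free d a (16 * d * (K * l)) (K * l) S + phi K l S 0 ≤ 1 - c) ∧
      ((∀ b : Fin d → ℤ, (∀ k, |b k| ≤ 16 * d + 2) → 1 - x ^ (4 * d) ≤ phi K l S b) →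
        NeedleGas.free d a (16 * d * (K * l)) (K * l) S ≤ C * x ^ (4 * d + 4)) := by
  have hd1 : 1 ≤ d := by omega
  have hd0 : (0 : ℝ) < d := by exact_mod_cast hd1
  have hdr : (1 : ℝ) ≤ d := by exact_mod_cast hd1
  obtain ⟨c1, hc1, H1⟩ := vP01 hd1
  obtain ⟨c2, hc2, H2⟩ := vP2 hd1
  have H4 := vP4 hd1
  refine ⟨min c1 (c2 / 2), k4 d, min (1 / 2) (c2 / 2), by positivity, k4_pos hd1, by positivity,
    min_le_left _ _, ?_⟩
  intro x hx hx0 a ha l1 hl1 ε hε
  have hx1 : x ≤ 1 / 2 := hx0.trans (min_le_left _ _)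
  have hx2 : x ≤ c2 / 2 := hx0.trans (min_le_right _ _)
  have hl10 : 0 < l1 := lt_of_lt_of_le ha hl1
  have hxd : x ^ (4 * d) ≤ x := by
    calc x ^ (4 * d) ≤ x ^ 1 := pow_le_pow_of_le_one hx.le (by linarith) (by omega)
      _ = x := pow_one x
  obtain ⟨A1, hA1, P1⟩ := H1 x hx hx1 a ha (2 * d * l1) (by positivity) ε hε
  obtain ⟨A2, hA2, P2⟩ := H2 a ha (2 * d * l1) (by positivity)
  obtain ⟨A4, hA4, P4⟩ := H4 x hx a ha (2 * d * l1) (by positivity)
  refine ⟨⌈(max (max A1 A2) A4) / l1⌉₊ + 1, Nat.succ_pos _, ?_⟩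
  intro K hK l hl hl2 S
  have hl0 : 0 < l := lt_of_lt_of_le hl10 hl
  have hK0 : 0 < K := lt_of_lt_of_le (Nat.succ_pos _) hK
  have hKr : (0 : ℝ) < K := by exact_mod_cast hK0
  obtain ⟨h, hh⟩ : ∃ h : ℝ, h = K * l := ⟨_, rfl⟩
  have hhA : max (max A1 A2) A4 ≤ h := by
    have h1 : (max (max A1 A2) A4) / l1 ≤ K := by
      refine (Nat.le_ceil _).trans ?_
      exact_mod_cast (Nat.le_succ _).trans hK
    rw [div_le_iff₀ hl10] at h1
    rw [hh]
    exact h1.trans (by gcongr)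
  have hh0 : 0 < h := by rw [hh]; positivity
  have hsl : d * l ≤ 2 * d * l1 := by nlinarith
  rw [← hh]
  -- own block
  obtain ⟨q, hq, C0⟩ := exists_family hl0 hsl S (occ l S (cells K 0))
    (fun v hv => (mem_occ.1 hv).2)
  have hF0 := free_le (a := a) (L := 16 * d * h) hd1 hh0 hq
  have G1 := P1 h ((le_max_left _ _).trans ((le_max_left _ _).trans hhA)) (Cl h 0)
    (Bk_Cl hh0.le 0) _ _ inferInstance _ q C0 ENNReal.ofReal_ne_top
    (by rw [hh]; exact occ_sub hl0 S 0) {p | ∀ i, p ∉ At (16 * d * h) a (q i)} (fun p hp => hp)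
  have hv0 : (volume (⋃ v : occ l S (cells K 0), Cl l v.1)).toReal / h ^ d = phi K l S 0 := by
    rw [hh]
    exact vol_occ hl0 S 0
  rw [hv0] at G1
  refine ⟨by linarith [G1.1], ?_, ?_, ?_⟩
  · intro h1 h2
    have h3 := G1.2 h1 h2
    have h4 : min c1 (c2 / 2) * x ^ (4 * d) ≤ c1 * x ^ (4 * d) :=
      mul_le_mul_of_nonneg_right (min_le_left _ _) (by positivity)
    linarith
  · rintro ⟨b, hb, hbx⟩ hφ
    obtain ⟨q', hq', C'⟩ := exists_family hl0 hsl S (occ l S (cells K b))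
      (fun v hv => (mem_occ.1 hv).2)
    have hF' := free_le (a := a) (L := 16 * d * h) hd1 hh0 hq'
    have hvb : (volume (⋃ v : occ l S (cells K b), Cl l v.1)).toReal / h ^ d = phi K l S b := by
      rw [hh]
      exact vol_occ hl0 S b
    have hsub : (⋃ v : occ l S (cells K b), Cl l v.1) ⊆ Cl h b := by
      rw [hh]
      exact occ_sub hl0 S b
    have G2 := P2 h ((le_max_right _ _).trans ((le_max_left _ _).trans hhA)) (Cl h 0)
      (Bk_Cl hh0.le 0) _ _ inferInstance _ q' C' ENNReal.ofReal_ne_top (by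
        intro z hz y hy
        have h1 := hsub hz
        have h2 : ‖z - y‖ ≤ d * (2 * h) := by
          refine norm_le_of (by positivity) fun k => ?_
          rw [PiLp.sub_apply, abs_le]
          have h3 := h1 k
          have h4 := hy k
          simp only [Pi.zero_apply, Int.cast_zero, zero_mul, zero_add, one_mul] at h4
          have h5 := abs_le.1 (hb k)
          have h6 : (-1 : ℝ) ≤ b k := by exact_mod_cast h5.1
          have h7 : (b k : ℝ) ≤ 1 := by exact_mod_cast h5.2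
          constructor <;> nlinarith
        linarith) (by
        refine (measure_mono hsub).trans (le_of_eq ?_)
        exact vol_Cl hh0.le b) (by
        rw [hvb]
        linarith) {p | ∀ i, p ∉ At (16 * d * h) a (q' i)} (fun p hp => hp)
    have h5 : min c1 (c2 / 2) ≤ c2 / 2 := min_le_right _ _
    linarith
  · intro hb
    obtain ⟨m, hm⟩ : ∃ m : ℕ, m = 16 * d + 2 := ⟨_, rfl⟩
    have hmr : (m : ℝ) = 16 * d + 2 := by rw [hm]; push_cast; ring
    obtain ⟨q', hq', C'⟩ := exists_family hl0 hsl S (occ l S (RC d K m))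
      (fun v hv => (mem_occ.1 hv).2)
    have hF' := free_le (a := a) (L := 16 * d * h) hd1 hh0 hq'
    have hce := card_empty (m := m) hK0 l S (ξ := x ^ (4 * d)) (fun b h1 => hb b fun k => by
      have := h1 k
      rw [hm] at this
      push_cast at this
      exact this)
    have hcc : (32 * d + 5 : ℝ) = 2 * m + 1 := by rw [hmr]; ring
    refine hF'.trans (P4 h ((le_max_right _ _).trans hhA) (Cl h 0)
      (Bk_Cl hh0.le 0) _ _ inferInstance _ q' C' ENNReal.ofReal_ne_top (Rg d h m) ?_ ?_ ?_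
      {p | ∀ i, p ∉ At (16 * d * h) a (q' i)} (fun p hp => hp))
    · intro y hy u hu k
      have h1 := PiLp.norm_apply_le (u - y) k
      rw [PiLp.sub_apply, Real.norm_eq_abs] at h1
      have h2 := abs_le.1 (h1.trans hu)
      have h3 := hy k
      simp only [Pi.zero_apply, Int.cast_zero, zero_mul, zero_add, one_mul] at h3
      rw [hmr]
      constructor <;> nlinarith
    · have h1 := Rg_sub (d := d) (K := K) (m := m) l hl0 S
      rw [← hh] at h1
      refine (measure_mono h1).trans ?_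
      rw [vol_family hl0]
      refine ENNReal.ofReal_le_ofReal ?_
      calc _ ≤ (x ^ (4 * d) * ((2 * m + 1) * K) ^ d) * l ^ d := by gcongr
        _ = x ^ (4 * d) * ((32 * d + 5) * h) ^ d := by
          rw [hcc, hh, mul_assoc, ← mul_pow, mul_assoc]
    · rw [vol_family hl0]
      refine ENNReal.ofReal_le_ofReal ?_
      have h1 : ((occ l S (RC d K m)).card : ℝ) ≤ ((2 * m + 1) * K) ^ d := by
        have h2 : occ l S (RC d K m) ⊆ RC d K m := fun v hv => (mem_occ.1 hv).1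
        have h3 := Finset.card_le_card h2
        rw [card_RC] at h3
        exact_mod_cast h3
      calc _ ≤ ((2 * m + 1) * K) ^ d * l ^ d := by gcongr
        _ = ((32 * d + 5) * h) ^ d := by
          rw [hcc, hh, ← mul_pow, mul_assoc]

end Pool.Agent.NeedleGas
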